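import Mathlib

open Finset

namespace Pool.Agent.H986R2.SP

/-- Horner form of the exponential sums -/
def hor (z : ℚ) : ℕ → ℕ → ℚ
  | _, 0 => 0
  | i, n + 1 => 1 + z / (i + 1) * hor z (i + 1) n

theorem hor_eq (z : ℚ) (i n : ℕ) :
    (hor z i n : ℝ) = ∑ m ∈ range n, (z : ℝ) ^ m * i.factorial / (i + m).factorial := by
  induction n generalizing i with
  | zero => simp [hor]
  | succ n ih =>
    rw [sum_range_succ', hor]
    push_cast
    rw [ih (i + 1), mul_sum, add_comm]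
    congr 1
    · refine sum_congr rfl fun m _ => ?_
      have h1 : (i + 1 + m) = (i + (m + 1)) := by omega
      rw [h1, Nat.factorial_succ]
      push_cast
      have h2 : ((i : ℝ) + 1) ≠ 0 := by positivity
      have h3 : (((i + (m + 1)).factorial : ℕ) : ℝ) ≠ 0 := by positivity
      field_simp
      ring
    · rw [pow_zero, add_zero, one_mul, div_self]
      positivity

theorem hor_zero (z : ℚ) (n : ℕ) :
    (hor z 0 n : ℝ) = ∑ m ∈ range n, (z : ℝ) ^ m / m.factorial := by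
  rw [hor_eq]
  refine sum_congr rfl fun m _ => ?_
  rw [Nat.factorial_zero, zero_add]
  simp

theorem exp_hor (z : ℚ) (h0 : 0 ≤ z) (h1 : z ≤ 1) :
    (hor (-z) 0 50 : ℝ) - 1 / 10 ^ 64 ≤ Real.exp (-z) ∧
      Real.exp (-z) ≤ (hor (-z) 0 50 : ℝ) + 1 / 10 ^ 64 := by
  have hz : |(-(z : ℝ))| ≤ 1 := by
    rw [abs_neg, abs_of_nonneg (by exact_mod_cast h0)]
    exact_mod_cast h1
  have h2 := Real.exp_bound hz (n := 50) (by norm_num)
  have h3 : |(-(z : ℝ))| ^ 50 * ((Nat.succ 50 : ℕ) / ((Nat.factorial 50 : ℕ) * (50 : ℕ) : ℝ))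
      ≤ 1 / 10 ^ 64 := by
    have h4 : |(-(z : ℝ))| ^ 50 ≤ 1 := pow_le_one₀ (abs_nonneg _) hz
    have h5 : ((Nat.succ 50 : ℕ) / ((Nat.factorial 50 : ℕ) * (50 : ℕ) : ℝ)) ≤ 1 / 10 ^ 64 := by
      norm_num [Nat.factorial]
    have h6 : (0 : ℝ) ≤ ((Nat.succ 50 : ℕ) / ((Nat.factorial 50 : ℕ) * (50 : ℕ) : ℝ)) := by
      positivity
    calc _ ≤ 1 * ((Nat.succ 50 : ℕ) / ((Nat.factorial 50 : ℕ) * (50 : ℕ) : ℝ)) :=
          mul_le_mul_of_nonneg_right h4 h6
      _ ≤ _ := by rw [one_mul]; exact h5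
  have h4 := h2.trans h3
  rw [hor_zero]
  push_cast
  rw [abs_le] at h4
  constructor <;> linarith [h4.1, h4.2]

/-- check of an enclosure of `exp (-x)` -/
def chk (x : ℚ) (c : ℤ) : Bool :=
  let y : ℚ := (⌊x * 10 ^ 62⌋ : ℤ) / 10 ^ 62
  let lo : ℚ := hor (-((y + 1 / 10 ^ 62) / 8)) 0 50 - 1 / 10 ^ 64
  let hi : ℚ := hor (-(y / 8)) 0 50 + 1 / 10 ^ 64
  decide (0 ≤ y) && (decide (y + 1 / 10 ^ 62 ≤ 8) && (decide (0 ≤ lo) &&
    (decide ((c : ℚ) / 10 ^ 60 ≤ lo ^ 8) && decide (hi ^ 8 ≤ ((c : ℚ) + 2) / 10 ^ 60))))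

theorem chk_sound (x : ℚ) (c : ℤ) (h : chk x c = true) :
    (c : ℝ) / 10 ^ 60 ≤ Real.exp (-x) ∧ Real.exp (-x) ≤ ((c : ℝ) + 2) / 10 ^ 60 := by
  unfold chk at h
  simp only [Bool.and_eq_true, decide_eq_true_eq] at h
  set y : ℚ := (⌊x * 10 ^ 62⌋ : ℤ) / 10 ^ 62 with hy
  obtain ⟨h0, h8, hlo0, hlo, hhi⟩ := h
  have hyx : y ≤ x := by
    rw [hy, div_le_iff₀ (by positivity)]
    exact Int.floor_le _
  have hxy : x ≤ y + 1 / 10 ^ 62 := by
    have h1 := (Int.lt_floor_add_one (x * 10 ^ 62)).le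
    rw [hy, ← add_div, le_div_iff₀ (by positivity)]
    exact h1
  have hyx' : (y : ℝ) ≤ x := by exact_mod_cast hyx
  have hxy' : (x : ℝ) ≤ y + 1 / 10 ^ 62 := by
    have : ((x : ℚ) : ℝ) ≤ ((y + 1 / 10 ^ 62 : ℚ) : ℝ) := by exact_mod_cast hxy
    push_cast at this
    exact this
  constructor
  · have h1 := (exp_hor ((y + 1 / 10 ^ 62) / 8) (by positivity) (by
      rw [div_le_one (by norm_num)]; exact h8)).1
    have h2 : (0 : ℝ) ≤ (hor (-((y + 1 / 10 ^ 62) / 8)) 0 50 : ℝ) - 1 / 10 ^ 64 := by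
      have : ((0 : ℚ) : ℝ) ≤ ((hor (-((y + 1 / 10 ^ 62) / 8)) 0 50 - 1 / 10 ^ 64 : ℚ) : ℝ) := by
        exact_mod_cast hlo0
      push_cast at this
      exact this
    have h3 := pow_le_pow_left₀ h2 h1 8
    have h4 : Real.exp (-(((y + 1 / 10 ^ 62) / 8 : ℚ) : ℝ)) ^ 8 = Real.exp (-(y + 1 / 10 ^ 62)) := by
      rw [← Real.exp_nat_mul]
      congr 1
      push_cast
      ring
    rw [h4] at h3
    have h5 : (c : ℝ) / 10 ^ 60
        ≤ ((hor (-((y + 1 / 10 ^ 62) / 8)) 0 50 : ℝ) - 1 / 10 ^ 64) ^ 8 := by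
      have : (((c : ℚ) / 10 ^ 60 : ℚ) : ℝ)
          ≤ (((hor (-((y + 1 / 10 ^ 62) / 8)) 0 50 - 1 / 10 ^ 64) ^ 8 : ℚ) : ℝ) := by
        exact_mod_cast hlo
      push_cast at this
      exact this
    exact (h5.trans h3).trans (Real.exp_le_exp.2 (by linarith))
  · have hy8 : y ≤ 8 := by
      have : (0 : ℚ) ≤ 1 / 10 ^ 62 := by positivity
      linarith
    have h1 := (exp_hor (y / 8) (by positivity) (by
      rw [div_le_one (by norm_num)]; exact hy8)).2
    have h3 := pow_le_pow_left₀ (Real.exp_pos _).le h1 8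
    have h4 : Real.exp (-((y / 8 : ℚ) : ℝ)) ^ 8 = Real.exp (-y) := by
      rw [← Real.exp_nat_mul]
      congr 1
      push_cast
      ring
    rw [h4] at h3
    have h5 : ((hor (-(y / 8)) 0 50 : ℝ) + 1 / 10 ^ 64) ^ 8 ≤ ((c : ℝ) + 2) / 10 ^ 60 := by
      have : (((hor (-(y / 8)) 0 50 + 1 / 10 ^ 64) ^ 8 : ℚ) : ℝ)
          ≤ ((((c : ℚ) + 2) / 10 ^ 60 : ℚ) : ℝ) := by
        exact_mod_cast hhi
      push_cast at this
      exact this
    exact (Real.exp_le_exp.2 (by linarith)).trans (h3.trans h5)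

/-- iterated differences -/
def dif (E : ℕ → ℝ) : ℕ → ℕ → ℝ
  | 0, j => E j
  | M + 1, j => dif E M j - dif E M (j + 1)

theorem dif_eq (E : ℕ → ℝ) (M i : ℕ) :
    dif E M i = ∑ j ∈ range (M + 1), (-1 : ℝ) ^ j * M.choose j * E (i + j) := by
  have h : ∀ M i, dif E M i = (-1) ^ M * (fwdDiff (1 : ℕ))^[M] E i := by
    intro M
    induction M with
    | zero => intro i; simp [dif]
    | succ M ih =>
      intro i
      rw [dif, ih, ih, Function.iterate_succ', Function.comp_apply, fwdDiff]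
      ring
  rw [h, fwdDiff_iter_eq_sum_shift, mul_sum]
  refine sum_congr rfl fun j hj => ?_
  rw [mem_range] at hj
  simp only [zsmul_eq_mul, nsmul_eq_mul, mul_one, Nat.cast_id]
  push_cast
  have h2 : (-1 : ℝ) ^ M = (-1) ^ (M - j) * (-1) ^ j := by
    rw [← pow_add]; congr 1; omega
  rw [h2]
  have h3 : ((-1 : ℝ) ^ (M - j)) * (-1) ^ (M - j) = 1 := by
    rw [← mul_pow]; norm_num
  calc (-1 : ℝ) ^ (M - j) * (-1) ^ j * ((-1) ^ (M - j) * (M.choose j) * E (i + j))
      = (((-1 : ℝ) ^ (M - j)) * (-1) ^ (M - j)) * ((-1) ^ j * M.choose j * E (i + j)) := by ring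
    _ = _ := by rw [h3, one_mul]

/-- one step of the difference scheme -/
def nxt (w : ℤ) : List ℤ → List ℤ
  | [] => []
  | [_] => []
  | a :: b :: t => (a - b - w) :: nxt w (b :: t)

/-- enclosures -/
def Enc (E : ℕ → ℝ) (M : ℕ) (w : ℤ) (L : List ℤ) (i : ℕ) : Prop :=
  ∀ j (h : j < L.length), (L[j] : ℝ) / 10 ^ 60 ≤ dif E M (i + j) ∧
    dif E M (i + j) ≤ ((L[j] : ℝ) + w) / 10 ^ 60

theorem enc_nxt (E : ℕ → ℝ) (M : ℕ) (w : ℤ) (L : List ℤ) (i : ℕ) (h : Enc E M w L i) :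
    Enc E (M + 1) (2 * w) (nxt w L) i := by
  induction L generalizing i with
  | nil => intro j hj; simp [nxt] at hj
  | cons a t ih =>
    cases t with
    | nil => intro j hj; simp [nxt] at hj
    | cons b t =>
      have h2 : Enc E M w (b :: t) (i + 1) := by
        intro j hj
        have := h (j + 1) (by simp at hj ⊢; omega)
        simp only [List.getElem_cons_succ] at this
        rw [show i + 1 + j = i + (j + 1) by ring]
        exact this
      intro j hj
      cases j with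
      | zero =>
        simp only [nxt, List.getElem_cons_zero, add_zero]
        have h3 := h 0 (by simp)
        have h4 := h 1 (by simp)
        simp only [List.getElem_cons_zero, List.getElem_cons_succ, add_zero] at h3 h4
        rw [dif]
        push_cast
        constructor
        · calc ((a : ℝ) - b - w) / 10 ^ 60 = (a : ℝ) / 10 ^ 60 - ((b : ℝ) + w) / 10 ^ 60 := by ring
            _ ≤ _ := sub_le_sub h3.1 h4.2
        · calc dif E M i - dif E M (i + 1) ≤ ((a : ℝ) + w) / 10 ^ 60 - (b : ℝ) / 10 ^ 60 :=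
                sub_le_sub h3.2 h4.1
            _ = _ := by ring
      | succ j =>
        have h3 := ih (i + 1) h2 j (by simpa [nxt] using hj)
        simp only [nxt, List.getElem_cons_succ]
        rw [show i + (j + 1) = i + 1 + j by ring]
        exact h3

/-- the lower bound of the site term computed by the difference scheme -/
def tot : ℕ → ℕ → ℤ → List ℤ → ℚ
  | 0, _, _, _ => 0
  | f + 1, M, w, L =>
    ((max 0 ((nxt w L).headD 0) : ℤ) : ℚ) ^ 2 / (M + 1) + tot f (M + 1) (2 * w) (nxt w L)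

theorem tot_le (E : ℕ → ℝ) (f M : ℕ) (w : ℤ) (L : List ℤ) (h : Enc E M w L 0) :
    (tot f M w L : ℝ) / 10 ^ 120 ≤ ∑ m ∈ range f, dif E (M + m + 1) 0 ^ 2 / ((M : ℝ) + m + 1) := by
  induction f generalizing M w L with
  | zero => simp [tot]
  | succ f ih =>
    have h1 := enc_nxt E M w L 0 h
    have h2 := ih (M + 1) (2 * w) (nxt w L) h1
    rw [sum_range_succ', tot]
    push_cast
    rw [add_div, add_comm]
    apply add_le_add
    · refine h2.trans (le_of_eq (sum_congr rfl fun m _ => ?_))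
      rw [show M + 1 + m + 1 = M + (m + 1) + 1 by ring]
      push_cast
      congr 1
      ring
    · simp only [add_zero]
      have h3 : ((max 0 ((nxt w L).headD 0) : ℤ) : ℝ) ^ 2 / 10 ^ 120 ≤ dif E (M + 1) 0 ^ 2 := by
        have e1 : ((max 0 ((nxt w L).headD 0) : ℤ) : ℝ) ^ 2 / 10 ^ 120
            = (((max 0 ((nxt w L).headD 0) : ℤ) : ℝ) / 10 ^ 60) ^ 2 := by
          rw [div_pow]; norm_num
        rw [e1]
        cases hL : nxt w L with
        | nil =>
          simp only [List.headD_nil, max_self, Int.cast_zero, zero_div]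
          rw [zero_pow (by norm_num)]
          exact sq_nonneg _
        | cons a t =>
          simp only [List.headD_cons]
          rcases le_total a 0 with ha | ha
          · rw [max_eq_left ha]
            simp only [Int.cast_zero, zero_div]
            rw [zero_pow (by norm_num)]
            exact sq_nonneg _
          · rw [max_eq_right ha]
            have h4 := (h1 0 (by rw [hL]; simp)).1
            simp only [hL, List.getElem_cons_zero, add_zero] at h4
            have h5 : (0 : ℝ) ≤ (a : ℝ) / 10 ^ 60 := by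
              have : (0 : ℝ) ≤ a := by exact_mod_cast ha
              positivity
            exact pow_le_pow_left₀ h5 h4 2
      have h4 : (0 : ℝ) < (M : ℝ) + 1 := by positivity
      have e2 : ((max 0 ((nxt w L).headD 0) : ℤ) : ℝ) ^ 2 / ((M : ℝ) + 1) / 10 ^ 120
          = ((max 0 ((nxt w L).headD 0) : ℤ) : ℝ) ^ 2 / 10 ^ 120 / ((M : ℝ) + 1) := by
        rw [div_div, div_div, mul_comm]
      push_cast at h3 e2 ⊢
      rw [e2]
      exact div_le_div_of_nonneg_right h3 h4.le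

/-- upper bound for `-log (1 - t)` -/
def lgup (t : ℚ) : ℚ := ∑ i ∈ range 80, t ^ (i + 1) / (i + 1) + t ^ 81 / (1 - t)

theorem lgup_le (t : ℚ) (h0 : 0 ≤ t) (h1 : t < 1) : -Real.log (1 - t) ≤ lgup t := by
  have h0' : (0 : ℝ) ≤ t := by exact_mod_cast h0
  have h1' : (t : ℝ) < 1 := by exact_mod_cast h1
  have h2 : |(t : ℝ)| < 1 := by rw [abs_of_nonneg h0']; exact h1'
  have h3 := Real.abs_log_sub_add_sum_range_le h2 80
  rw [abs_le] at h3
  rw [abs_of_nonneg h0'] at h3
  unfold lgup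
  push_cast
  linarith [h3.1]

end Pool.Agent.H986R2.SP
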