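import Pool.Agent.H986R2.SP.Crit
import Pool.Agent.H986R2.SP.Num

open Finset Filter Topology

namespace Pool.Agent.H986R2.SP

/-- sums over tuples of atoms -/
def ts {N : ℕ} (r et : Fin N → ℚ) : ℕ → (ℚ → ℚ) → ℚ
  | 0, f => f 1
  | k + 1, f => ∑ x, r x * ts r et k (fun t => f (et x * t))

theorem sum_cons {N k : ℕ} (G : (Fin (k + 1) → Fin N) → ℝ) :
    ∑ a, G a = ∑ x, ∑ b : Fin k → Fin N, G (Fin.cons x b) := by
  rw [← (Fin.consEquiv (fun _ => Fin N)).sum_comp, Fintype.sum_prod_type]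
  rfl

theorem ts_eq {N : ℕ} (r et : Fin N → ℚ) (F : ℝ → ℝ) (f : ℚ → ℚ) (k : ℕ) (s : ℚ)
    (h : ∀ t : ℚ, F t = f t) :
    ∑ a : Fin k → Fin N, (∏ j, (r (a j) : ℝ)) * F (s * ∏ j, (et (a j) : ℝ))
      = ts r et k (fun t => f (s * t)) := by
  induction k generalizing s with
  | zero =>
    simp only [univ_unique, Fin.prod_univ_zero, one_mul, mul_one, sum_const, card_singleton,
      one_smul, ts]
    exact h s
  | succ k ih =>
    rw [sum_cons, ts]
    push_cast
    refine sum_congr rfl fun x _ => ?_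
    have h1 := ih (s * et x)
    have e1 : (fun t : ℚ => f (s * et x * t)) = fun t => f (s * (et x * t)) := by
      funext t; rw [mul_assoc]
    rw [e1] at h1
    rw [← h1, mul_sum]
    refine sum_congr rfl fun b _ => ?_
    rw [Fin.prod_univ_succ, Fin.prod_univ_succ]
    simp only [Fin.cons_zero, Fin.cons_succ]
    push_cast
    rw [mul_assoc, mul_assoc]

theorem ts_le {N : ℕ} (r et : Fin N → ℚ) (hr : ∀ a, 0 ≤ r a) (het : ∀ a, 0 ≤ et a)
    (het1 : ∀ a, et a < 1) (F : ℝ → ℝ) (f : ℚ → ℚ) (k : ℕ) (s : ℚ) (hs0 : 0 ≤ s) (hs1 : s < 1)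
    (h : ∀ t : ℚ, 0 ≤ t → t < 1 → F t ≤ f t) :
    ∑ a : Fin k → Fin N, (∏ j, (r (a j) : ℝ)) * F (s * ∏ j, (et (a j) : ℝ))
      ≤ ts r et k (fun t => f (s * t)) := by
  induction k generalizing s with
  | zero =>
    simp only [univ_unique, Fin.prod_univ_zero, one_mul, mul_one, sum_const, card_singleton,
      one_smul, ts]
    exact h s hs0 hs1
  | succ k ih =>
    rw [sum_cons, ts]
    push_cast
    refine sum_le_sum fun x _ => ?_
    have h1 := ih (s * et x) (mul_nonneg hs0 (het x)) (by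
      have := het1 x
      have := het x
      nlinarith)
    have e1 : (fun t : ℚ => f (s * et x * t)) = fun t => f (s * (et x * t)) := by
      funext t; rw [mul_assoc]
    rw [e1] at h1
    have h2 := mul_le_mul_of_nonneg_left h1 (show (0 : ℝ) ≤ r x by exact_mod_cast hr x)
    refine le_trans (le_of_eq ?_) h2
    rw [mul_sum]
    refine sum_congr rfl fun b _ => ?_
    rw [Fin.prod_univ_succ, Fin.prod_univ_succ]
    simp only [Fin.cons_zero, Fin.cons_succ]
    push_cast
    rw [mul_assoc, mul_assoc]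

/-- check of a list of enclosures -/
def chkAll (x : ℕ → ℚ) : ℕ → List ℤ → Bool
  | _, [] => true
  | i, c :: t => chk (x i) c && chkAll x (i + 1) t

theorem chkAll_sound (x : ℕ → ℚ) (E : ℕ → ℝ) (hE : ∀ j, E j = Real.exp (-(x j : ℝ))) (i : ℕ)
    (L : List ℤ) (h : chkAll x i L = true) : Enc E 0 2 L i := by
  induction L generalizing i with
  | nil => intro j hj; simp at hj
  | cons c t ih =>
    rw [chkAll, Bool.and_eq_true] at h
    intro j hj
    cases j with
    | zero =>
      simp only [List.getElem_cons_zero, add_zero, dif]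
      rw [hE]
      have := chk_sound (x i) c h.1
      push_cast
      exact this
    | succ j =>
      have h3 := ih (i + 1) h.2 j (by simpa using hj)
      simp only [List.getElem_cons_succ]
      rw [show i + (j + 1) = i + 1 + j by ring]
      exact h3

/-- The certificate theorem. -/
theorem check {N : ℕ} (k : ℕ) (α : ℚ) (r et : Fin N → ℚ) (hα : 0 < α) (hr : ∀ a, 0 ≤ r a)
    (hr1 : ∑ a, r a = 1) (het : ∀ a, 0 ≤ et a) (het1 : ∀ a, et a < 1) (D : ℕ) (L : List ℤ)
    (h1 : chkAll (fun j => ((k : ℚ) + 1) * α / 2 * (1 - ts r et k (fun t => (1 - t) ^ j))) 0 L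
      = true)
    (h2 : α * (k * ts r et (k + 1) lgup) < tot D 0 2 L / 10 ^ 120)
    (β : ℝ) (hβ : (α : ℝ) ≤ β) :
    Tendsto (fun n : ℕ => probSat (k + 1) n ⌊β * n⌋₊) atTop (𝓝 0) := by
  set R : Fin N → ℝ := fun a => (r a : ℝ) with hR
  set T : Fin N → ℝ := fun a => (et a : ℝ) with hT
  have hkap : ∀ j, kap k R T j = (ts r et k (fun t => (1 - t) ^ j) : ℝ) := by
    intro j
    have h3 := ts_eq r et (fun t : ℝ => (1 - t) ^ j) (fun t : ℚ => (1 - t) ^ j) k 1
      (fun t => by push_cast; rfl)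
    simp only [one_mul, Rat.cast_one] at h3
    rw [← h3]
    rfl
  have hEE : ∀ j, EE k α R T j = Real.exp (-((((k : ℚ) + 1) * α / 2 *
      (1 - ts r et k (fun t => (1 - t) ^ j)) : ℚ) : ℝ)) := by
    intro j
    unfold EE
    rw [hkap]
    push_cast
    rfl
  have hEnc := chkAll_sound _ (EE k α R T) hEE 0 L h1
  have htot := tot_le (EE k α R T) D 0 2 L hEnc
  have hNN : ∑ m ∈ range D, dif (EE k α R T) (0 + m + 1) 0 ^ 2 / (((0 : ℕ) : ℝ) + m + 1)
      = NN k α R T D := by
    unfold NN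
    refine sum_congr rfl fun m _ => ?_
    rw [zero_add, dif_eq]
    unfold aa
    simp only [zero_add, Nat.cast_zero]
  rw [hNN] at htot
  have hcst : cst1 k R T ≤ (ts r et (k + 1) lgup : ℝ) := by
    unfold cst1
    rw [sum_cons, ts]
    push_cast
    refine sum_le_sum fun x _ => ?_
    have h3 := ts_le r et hr het het1 (fun t : ℝ => -Real.log (1 - t)) lgup k (et x) (het x)
      (het1 x) (fun t h0 h1 => lgup_le t h0 h1)
    have h4 := mul_le_mul_of_nonneg_left h3 (show (0 : ℝ) ≤ r x by exact_mod_cast hr x)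
    refine le_trans (le_of_eq ?_) h4
    rw [mul_sum]
    refine sum_congr rfl fun b _ => ?_
    rw [Fin.prod_univ_succ, Fin.prod_univ_succ]
    simp only [Fin.cons_zero, Fin.cons_succ]
    rw [mul_assoc]
  have hα' : (0 : ℝ) < α := by exact_mod_cast hα
  have h2' : (α : ℝ) * (k * (ts r et (k + 1) lgup : ℝ)) < (tot D 0 2 L : ℝ) / 10 ^ 120 := by
    exact_mod_cast h2
  have hr' : ∀ a, 0 ≤ R a := fun a => by simp only [hR]; exact_mod_cast hr a
  have het' : ∀ a, 0 ≤ T a := fun a => by simp only [hT]; exact_mod_cast het a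
  have het1' : ∀ a, T a < 1 := fun a => by simp only [hT]; exact_mod_cast het1 a
  apply criterion' k α hα' R T hr'
    (by have : ((∑ a, r a : ℚ) : ℝ) = 1 := by rw [hr1]; norm_num
        push_cast at this
        exact this)
    het' het1' D _ β hβ
  refine lt_of_le_of_lt ?_ (lt_of_lt_of_le h2' htot)
  apply mul_le_mul_of_nonneg_left _ hα'.le
  exact mul_le_mul_of_nonneg_left hcst (Nat.cast_nonneg k)

end Pool.Agent.H986R2.SP
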