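import Pool.Agent.H986R2.SP.Num2

open Finset

namespace Pool.Agent.H986R2.SP

/-- Horner recursion, real version -/
noncomputable def horR (z : ℝ) : ℕ → ℕ → ℝ
  | _, 0 => 0
  | i, n + 1 => 1 - z / (i + 1) * horR z (i + 1) n

theorem horR_eq (z : ℝ) (i n : ℕ) :
    horR z i n = ∑ m ∈ range n, (-z) ^ m * i.factorial / (i + m).factorial := by
  induction n generalizing i with
  | zero => simp [horR]
  | succ n ih =>
    rw [sum_range_succ', horR]
    rw [ih (i + 1), mul_sum, sub_eq_add_neg, ← sum_neg_distrib, add_comm]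
    congr 1
    · refine sum_congr rfl fun m _ => ?_
      have h1 : (i + 1 + m) = (i + (m + 1)) := by omega
      rw [h1, Nat.factorial_succ]
      push_cast
      have h2 : ((i : ℝ) + 1) ≠ 0 := by positivity
      have h3 : (((i + (m + 1)).factorial : ℕ) : ℝ) ≠ 0 := by positivity
      field_simp
      ring
    · rw [pow_zero, add_zero, one_mul, div_self]
      positivity

theorem horR_zero (z : ℝ) (n : ℕ) :
    horR z 0 n = ∑ m ∈ range n, (-z) ^ m / m.factorial := by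
  rw [horR_eq]
  refine sum_congr rfl fun m _ => ?_
  rw [Nat.factorial_zero, zero_add]
  simp

theorem horR_mem (z : ℝ) (h0 : 0 ≤ z) (h1 : z ≤ 1) (i n : ℕ) :
    0 ≤ horR z i n ∧ horR z i n ≤ 1 := by
  induction n generalizing i with
  | zero => simp [horR]
  | succ n ih =>
    rw [horR]
    obtain ⟨h2, h3⟩ := ih (i + 1)
    have hi : (0 : ℝ) < (i : ℝ) + 1 := by positivity
    have h4 : 0 ≤ z / (i + 1) := by positivity
    have h5 : z / (i + 1) ≤ 1 := by
      rw [div_le_one hi]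
      have : (0 : ℝ) ≤ i := Nat.cast_nonneg i
      linarith
    have h6 : z / (i + 1) * horR z (i + 1) n ≤ 1 := mul_le_one₀ h5 h2 h3
    have h7 : 0 ≤ z / (i + 1) * horR z (i + 1) n := mul_nonneg h4 h2
    constructor <;> linarith

theorem exp_horR (N : ℕ) (hN : 0 < N) (z : ℝ) (h0 : 0 ≤ z) (h1 : z ≤ 1) :
    horR z 0 N - dl N ≤ Real.exp (-z) ∧ Real.exp (-z) ≤ horR z 0 N + dl N := by
  have hz : |(-z)| ≤ 1 := by
    rw [abs_neg, abs_of_nonneg h0]
    exact h1
  have h2 := Real.exp_bound hz hN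
  have h3 : |(-z)| ^ N * ((Nat.succ N : ℕ) / ((Nat.factorial N : ℕ) * (N : ℕ) : ℝ))
      ≤ dl N := by
    have h4 : |(-z)| ^ N ≤ 1 := pow_le_one₀ (abs_nonneg _) hz
    have h6 : (0 : ℝ) ≤ ((Nat.succ N : ℕ) / ((Nat.factorial N : ℕ) * (N : ℕ) : ℝ)) := by
      positivity
    calc _ ≤ 1 * ((Nat.succ N : ℕ) / ((Nat.factorial N : ℕ) * (N : ℕ) : ℝ)) :=
          mul_le_mul_of_nonneg_right h4 h6
      _ = _ := by rw [one_mul]; unfold dl; push_cast; rfl
  have h4 := h2.trans h3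
  rw [horR_zero]
  rw [abs_le] at h4
  constructor <;> linarith [h4.1, h4.2]

theorem ediv_le_real (a b : ℤ) (hb : 0 < b) : ((a / b : ℤ) : ℝ) ≤ (a : ℝ) / b := by
  have hb' : (0 : ℝ) < b := by exact_mod_cast hb
  rw [le_div_iff₀ hb']
  exact_mod_cast Int.ediv_mul_le a hb.ne'

theorem lt_ediv_real (a b : ℤ) (hb : 0 < b) : (a : ℝ) / b ≤ ((a / b : ℤ) : ℝ) + 1 := by
  have hb' : (0 : ℝ) < b := by exact_mod_cast hb
  rw [div_le_iff₀ hb']
  have := (Int.lt_ediv_add_one_mul_self a hb).le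
  exact_mod_cast this

/-- integer enclosures of the Horner recursion -/
def ih (B zl zh : ℤ) : ℕ → ℕ → ℤ × ℤ
  | _, 0 => (0, 0)
  | i, n + 1 =>
    (max 0 (B - (zh * (ih B zl zh (i + 1) n).2 / (((i : ℤ) + 1) * B) + 1)),
      B - zl * (ih B zl zh (i + 1) n).1 / (((i : ℤ) + 1) * B))

theorem ih_sound (B zl zh : ℤ) (hB : 0 < B) (hzl : 0 ≤ zl) (z : ℝ) (h1 : z ≤ 1)
    (hl : (zl : ℝ) / B ≤ z) (hh : z ≤ (zh : ℝ) / B) (i n : ℕ) :
    0 ≤ (ih B zl zh i n).1 ∧ ((ih B zl zh i n).1 : ℝ) / B ≤ horR z i n ∧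
      horR z i n ≤ ((ih B zl zh i n).2 : ℝ) / B := by
  have hB' : (0 : ℝ) < B := by exact_mod_cast hB
  have hzl' : (0 : ℝ) ≤ zl := by exact_mod_cast hzl
  have h0 : 0 ≤ z := le_trans (by positivity) hl
  induction n generalizing i with
  | zero => simp [ih, horR]
  | succ n IH =>
    obtain ⟨h2, h3, h4⟩ := IH (i + 1)
    have hmem := horR_mem z h0 h1 (i + 1) n
    have hmem' := horR_mem z h0 h1 i (n + 1)
    rw [ih, horR] at *
    set p := ih B zl zh (i + 1) n with hp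
    have hi : (0 : ℝ) < (i : ℝ) + 1 := by positivity
    have hb : (0 : ℤ) < ((i : ℤ) + 1) * B := by positivity
    have hbr : (((((i : ℤ) + 1) * B : ℤ)) : ℝ) = ((i : ℝ) + 1) * B := by push_cast; ring
    have h2' : (0 : ℝ) ≤ p.1 := by exact_mod_cast h2
    have e1 : z / (i + 1) * horR z (i + 1) n
        ≤ ((zh : ℝ) * p.2 / (((i : ℝ) + 1) * B)) / B := by
      have h5 : z * horR z (i + 1) n ≤ (zh : ℝ) / B * ((p.2 : ℝ) / B) :=
        mul_le_mul hh h4 hmem.1 (h0.trans hh)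
      calc z / (i + 1) * horR z (i + 1) n = z * horR z (i + 1) n / (i + 1) := by ring
        _ ≤ (zh : ℝ) / B * ((p.2 : ℝ) / B) / (i + 1) := div_le_div_of_nonneg_right h5 hi.le
        _ = _ := by field_simp
    have e2 : ((zl : ℝ) * p.1 / (((i : ℝ) + 1) * B)) / B ≤ z / (i + 1) * horR z (i + 1) n := by
      have h5 : (zl : ℝ) / B * ((p.1 : ℝ) / B) ≤ z * horR z (i + 1) n :=
        mul_le_mul hl h3 (by positivity) h0
      calc ((zl : ℝ) * p.1 / (((i : ℝ) + 1) * B)) / B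
          = (zl : ℝ) / B * ((p.1 : ℝ) / B) / (i + 1) := by field_simp
        _ ≤ z * horR z (i + 1) n / (i + 1) := div_le_div_of_nonneg_right h5 hi.le
        _ = _ := by ring
    refine ⟨le_max_left _ _, ?_, ?_⟩
    · simp only
      rcases le_total 0 (B - (zh * p.2 / (((i : ℤ) + 1) * B) + 1)) with h6 | h6
      · rw [max_eq_right h6]
        have h7 := lt_ediv_real (zh * p.2) (((i : ℤ) + 1) * B) hb
        rw [hbr] at h7
        push_cast at h7 ⊢
        rw [div_le_iff₀ hB']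
        have h8 := mul_le_mul_of_nonneg_right e1 hB'.le
        rw [div_mul_cancel₀ _ hB'.ne'] at h8
        nlinarith
      · rw [max_eq_left h6]
        simp only [Int.cast_zero, zero_div]
        exact hmem'.1
    · simp only
      have h7 := ediv_le_real (zl * p.1) (((i : ℤ) + 1) * B) hb
      rw [hbr] at h7
      push_cast at h7 ⊢
      rw [le_div_iff₀ hB']
      have h8 := mul_le_mul_of_nonneg_right e2 hB'.le
      rw [div_mul_cancel₀ _ hB'.ne'] at h8
      nlinarith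

/-- repeated squaring, rounded down -/
def sqd (B : ℤ) : ℕ → ℤ → ℤ
  | 0, x => x
  | s + 1, x => sqd B s (x * x / B)

/-- repeated squaring, rounded up -/
def squ (B : ℤ) : ℕ → ℤ → ℤ
  | 0, x => x
  | s + 1, x => squ B s (x * x / B + 1)

theorem sqd_le (B : ℤ) (hB : 0 < B) (s : ℕ) (x : ℤ) (E : ℝ) (hx : 0 ≤ x) (h : (x : ℝ) / B ≤ E) :
    (sqd B s x : ℝ) / B ≤ E ^ (2 ^ s) := by
  have hB' : (0 : ℝ) < B := by exact_mod_cast hB
  induction s generalizing x E with
  | zero => simpa [sqd] using h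
  | succ s IH =>
    rw [sqd, pow_succ 2 s, mul_comm (2 ^ s) 2, pow_mul]
    have hx' : (0 : ℝ) ≤ x := by exact_mod_cast hx
    apply IH
    · exact Int.ediv_nonneg (mul_nonneg hx hx) hB.le
    · have h1 := ediv_le_real (x * x) B hB
      push_cast at h1
      have h2 : (x : ℝ) / B * ((x : ℝ) / B) ≤ E * E :=
        mul_le_mul h h (by positivity) (le_trans (by positivity) h)
      calc ((x * x / B : ℤ) : ℝ) / B ≤ (x : ℝ) * x / B / B := div_le_div_of_nonneg_right h1 hB'.le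
        _ = (x : ℝ) / B * ((x : ℝ) / B) := by ring
        _ ≤ E * E := h2
        _ = E ^ 2 := by ring

theorem le_squ (B : ℤ) (hB : 0 < B) (s : ℕ) (x : ℤ) (E : ℝ) (hE : 0 ≤ E) (h : E ≤ (x : ℝ) / B) :
    E ^ (2 ^ s) ≤ (squ B s x : ℝ) / B := by
  have hB' : (0 : ℝ) < B := by exact_mod_cast hB
  induction s generalizing x E with
  | zero => simpa [squ] using h
  | succ s IH =>
    rw [squ, pow_succ 2 s, mul_comm (2 ^ s) 2, pow_mul]
    apply IH _ _ (by positivity)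
    have h1 := lt_ediv_real (x * x) B hB
    push_cast at h1 ⊢
    have h2 : E * E ≤ (x : ℝ) / B * ((x : ℝ) / B) :=
      mul_le_mul h h hE (hE.trans h)
    calc E ^ 2 = E * E := by ring
      _ ≤ (x : ℝ) / B * ((x : ℝ) / B) := h2
      _ = (x : ℝ) * x / B / B := by ring
      _ ≤ _ := div_le_div_of_nonneg_right h1 hB'.le

/-- check of an enclosure of `exp (-x)`; `B` is the working precision, `G` the guard factor -/
def chkI (N s : ℕ) (B G : ℤ) (x : ℚ) (c : ℤ) : Bool :=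
  let zl : ℤ := ⌊x * B / 2 ^ s⌋
  let p := ih B zl (zl + 1) 0 N
  decide (0 ≤ zl) && (decide (x ≤ 2 ^ s) && (decide (1 ≤ p.1) &&
    (decide (c * G ≤ sqd B s (p.1 - 1)) && decide (squ B s (p.2 + 1) ≤ (c + 2) * G))))

theorem chkI_sound (N s P : ℕ) (B G : ℤ) (hN : 0 < N) (hB : 0 < B) (hBG : B = 10 ^ P * G)
    (hdl : dl N ≤ 1 / B) (x : ℚ) (c : ℤ) (h : chkI N s B G x c = true) :
    (c : ℝ) / 10 ^ P ≤ Real.exp (-x) ∧ Real.exp (-x) ≤ ((c : ℝ) + 2) / 10 ^ P := by
  unfold chkI at h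
  simp only [Bool.and_eq_true, decide_eq_true_eq] at h
  set zl : ℤ := ⌊x * B / 2 ^ s⌋ with hzl
  obtain ⟨hz0, hx1, hp1, hlo, hhi⟩ := h
  have hB' : (0 : ℝ) < B := by exact_mod_cast hB
  have hG : 0 < G := by
    by_contra hcon
    rw [not_lt] at hcon
    have : B ≤ 0 := by
      rw [hBG]
      exact mul_nonpos_of_nonneg_of_nonpos (by positivity) hcon
    omega
  have hG' : (0 : ℝ) < G := by exact_mod_cast hG
  have hs : (0 : ℝ) < 2 ^ s := by positivity
  set z : ℝ := (x : ℝ) / 2 ^ s with hz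
  have hf1 : (zl : ℚ) ≤ x * B / 2 ^ s := Int.floor_le _
  have hf2 : x * B / 2 ^ s ≤ (zl : ℚ) + 1 := (Int.lt_floor_add_one _).le
  have hf1' : (zl : ℝ) ≤ (x : ℝ) * B / 2 ^ s := by
    have : ((zl : ℚ) : ℝ) ≤ ((x * B / 2 ^ s : ℚ) : ℝ) := by exact_mod_cast hf1
    push_cast at this
    exact this
  have hf2' : (x : ℝ) * B / 2 ^ s ≤ (zl : ℝ) + 1 := by
    have : ((x * B / 2 ^ s : ℚ) : ℝ) ≤ (((zl : ℚ) + 1 : ℚ) : ℝ) := by exact_mod_cast hf2
    push_cast at this
    exact this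
  have hl : (zl : ℝ) / B ≤ z := by
    rw [div_le_iff₀ hB', hz]
    calc (zl : ℝ) ≤ (x : ℝ) * B / 2 ^ s := hf1'
      _ = _ := by ring
  have hh : z ≤ ((zl + 1 : ℤ) : ℝ) / B := by
    rw [le_div_iff₀ hB', hz]
    push_cast
    calc (x : ℝ) / 2 ^ s * B = (x : ℝ) * B / 2 ^ s := by ring
      _ ≤ _ := hf2'
  have hz1 : z ≤ 1 := by
    rw [hz, div_le_one hs]
    have : ((x : ℚ) : ℝ) ≤ ((2 ^ s : ℚ) : ℝ) := by exact_mod_cast hx1
    push_cast at this
    exact this
  have hzl0 : (0 : ℝ) ≤ zl := by exact_mod_cast hz0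
  have hz00 : 0 ≤ z := le_trans (by positivity) hl
  obtain ⟨h1, h2, h3⟩ := ih_sound B zl (zl + 1) hB hz0 z hz1 hl hh 0 N
  have h4 := exp_horR N hN z hz00 hz1
  set p := ih B zl (zl + 1) 0 N with hp
  have hdl' : (dl N : ℝ) ≤ 1 / B := by
    have : ((dl N : ℚ) : ℝ) ≤ ((1 / B : ℚ) : ℝ) := by exact_mod_cast hdl
    push_cast at this
    exact this
  have e0 : Real.exp (-z) ^ (2 ^ s) = Real.exp (-x) := by
    rw [← Real.exp_nat_mul]
    congr 1
    rw [hz]
    push_cast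
    field_simp
  have hBG' : (B : ℝ) = 10 ^ P * G := by rw [hBG]; push_cast; ring
  constructor
  · have h5 : (((p.1 - 1 : ℤ)) : ℝ) / B ≤ Real.exp (-z) := by
      push_cast
      rw [sub_div]
      linarith
    have h6 := sqd_le B hB s (p.1 - 1) _ (by omega) h5
    rw [e0] at h6
    refine le_trans ?_ h6
    have h7 : ((c * G : ℤ) : ℝ) ≤ (sqd B s (p.1 - 1) : ℝ) := by exact_mod_cast hlo
    push_cast at h7
    calc (c : ℝ) / 10 ^ P = (c : ℝ) * G / B := by rw [hBG']; field_simp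
      _ ≤ _ := div_le_div_of_nonneg_right h7 hB'.le
  · have h5 : Real.exp (-z) ≤ (((p.2 + 1 : ℤ)) : ℝ) / B := by
      push_cast
      rw [add_div]
      linarith
    have h6 := le_squ B hB s (p.2 + 1) _ (Real.exp_pos _).le h5
    rw [e0] at h6
    refine h6.trans ?_
    have h7 : (squ B s (p.2 + 1) : ℝ) ≤ (((c + 2) * G : ℤ) : ℝ) := by exact_mod_cast hhi
    push_cast at h7
    calc (squ B s (p.2 + 1) : ℝ) / B ≤ ((c : ℝ) + 2) * G / B :=
          div_le_div_of_nonneg_right h7 hB'.le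
      _ = _ := by rw [hBG']; field_simp

end Pool.Agent.H986R2.SP
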