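import Pool.Agent.H986R2.SP.Check
import Pool.Agent.H986R2.SP.Num3

open Finset Filter Topology

namespace Pool.Agent.H986R2.SP

/-- weights and products of the tuples of atoms -/
def tl {N : ℕ} (r et : Fin N → ℚ) : ℕ → List (ℚ × ℚ)
  | 0 => [(1, 1)]
  | k + 1 => (List.finRange N).flatMap (fun x => (tl r et k).map (fun p => (r x * p.1, et x * p.2)))

theorem ts_tl {N : ℕ} (r et : Fin N → ℚ) (k : ℕ) (f : ℚ → ℚ) :
    ts r et k f = ((tl r et k).map (fun p => p.1 * f p.2)).sum := by
  induction k generalizing f with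
  | zero => simp [ts, tl]
  | succ k ih =>
    rw [ts, tl, List.flatMap_def, List.map_flatten, List.sum_flatten, List.map_map, List.map_map,
      Fin.sum_univ_def]
    congr 1
    apply List.map_congr_left
    intro x _
    rw [ih, ← List.sum_map_mul_left]
    simp only [Function.comp_apply]
    rw [List.map_map]
    congr 1
    apply List.map_congr_left
    intro p _
    simp only [Function.comp_apply]
    ring

/-- check of a list of enclosures -/
def chkL (N s : ℕ) (B G : ℤ) (lam : ℚ) : List (ℚ × ℚ) → List ℤ → Bool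
  | _, [] => true
  | st, c :: t => chkI N s B G (lam * (1 - (st.map Prod.fst).sum)) c &&
      chkL N s B G lam (st.map (fun p => (p.1 * p.2, p.2))) t

theorem chkL_sound (N s P : ℕ) (B G : ℤ) (hN : 0 < N) (hB : 0 < B) (hBG : B = 10 ^ P * G)
    (hdl : dl N ≤ 1 / B) (lam : ℚ) (st : List (ℚ × ℚ)) (L : List ℤ)
    (h : chkL N s B G lam st L = true) (j : ℕ) (hj : j < L.length) :
    (L[j] : ℝ) / 10 ^ P ≤
        Real.exp (-((lam * (1 - (st.map (fun p => p.1 * p.2 ^ j)).sum) : ℚ) : ℝ)) ∧
      Real.exp (-((lam * (1 - (st.map (fun p => p.1 * p.2 ^ j)).sum) : ℚ) : ℝ))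
        ≤ ((L[j] : ℝ) + 2) / 10 ^ P := by
  induction L generalizing st j with
  | nil => simp at hj
  | cons c t ih =>
    rw [chkL, Bool.and_eq_true] at h
    cases j with
    | zero =>
      simp only [List.getElem_cons_zero, pow_zero, mul_one]
      exact chkI_sound N s P B G hN hB hBG hdl _ c h.1
    | succ j =>
      have h3 := ih _ h.2 j (by simpa using hj)
      simp only [List.getElem_cons_succ]
      have e : ((st.map (fun p : ℚ × ℚ => (p.1 * p.2, p.2))).map (fun p => p.1 * p.2 ^ j)).sum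
          = (st.map (fun p => p.1 * p.2 ^ (j + 1))).sum := by
        rw [List.map_map]
        congr 1
        apply List.map_congr_left
        intro p _
        simp only [Function.comp_apply]
        ring
      rw [e] at h3
      exact h3

/-- The certificate theorem. -/
theorem check3 {N : ℕ} (k : ℕ) (α : ℚ) (r et : Fin N → ℚ) (hα : 0 < α) (hr : ∀ a, 0 ≤ r a)
    (hr1 : ∑ a, r a = 1) (het : ∀ a, 0 ≤ et a) (het1 : ∀ a, et a < 1) (D : ℕ) (L : List ℤ)
    (N' s P S nl : ℕ) (B G : ℤ) (hN : 0 < N') (hB : 0 < B) (hBG : B = 10 ^ P * G)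
    (hdl : dl N' ≤ 1 / B)
    (h1 : chkL N' s B G (((k : ℚ) + 1) * α / 2)
      ((tl r et k).map (fun p => (p.1, 1 - p.2))) L = true)
    (h2 : α * (k * ((tl r et (k + 1)).map (fun p => p.1 * lgupN nl p.2)).sum)
      < (totz S D 0 2 L 0 : ℤ) * 10 ^ S / 10 ^ (2 * P))
    (β : ℝ) (hβ : (α : ℝ) ≤ β) :
    Tendsto (fun n : ℕ => probSat (k + 1) n ⌊β * n⌋₊) atTop (𝓝 0) := by
  set R : Fin N → ℝ := fun a => (r a : ℝ) with hR
  set T : Fin N → ℝ := fun a => (et a : ℝ) with hT
  have hkap : ∀ j, kap k R T j = (ts r et k (fun t => (1 - t) ^ j) : ℝ) := by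
    intro j
    have h3 := ts_eq r et (fun t : ℝ => (1 - t) ^ j) (fun t : ℚ => (1 - t) ^ j) k 1
      (fun t => by push_cast; rfl)
    simp only [one_mul, Rat.cast_one] at h3
    rw [← h3]
    rfl
  have hEnc : EncP P (EE k α R T) 0 2 L 0 := by
    intro j hj
    have h3 := chkL_sound N' s P B G hN hB hBG hdl (((k : ℚ) + 1) * α / 2) _ L h1 j hj
    have e : (((tl r et k).map (fun p => (p.1, 1 - p.2))).map (fun p => p.1 * p.2 ^ j)).sum
        = ts r et k (fun t => (1 - t) ^ j) := by
      rw [ts_tl, List.map_map]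
      rfl
    rw [e] at h3
    rw [zero_add]
    have e2 : dif (EE k α R T) 0 j = Real.exp (-((((k : ℚ) + 1) * α / 2 *
      (1 - ts r et k (fun t => (1 - t) ^ j)) : ℚ) : ℝ)) := by
      rw [dif]
      unfold EE
      rw [hkap]
      push_cast
      rfl
    rw [e2]
    push_cast at h3 ⊢
    exact h3
  have htot := totz_le P S (EE k α R T) D 0 2 L 0 hEnc
  have hNN : ∑ m ∈ range D, dif (EE k α R T) (0 + m + 1) 0 ^ 2 / (((0 : ℕ) : ℝ) + m + 1)
      = NN k α R T D := by
    unfold NN
    refine sum_congr rfl fun m _ => ?_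
    rw [zero_add, dif_eq]
    unfold aa
    simp only [zero_add, Nat.cast_zero]
  rw [hNN] at htot
  have hcst : cst1 k R T ≤ (ts r et (k + 1) (lgupN nl) : ℝ) := by
    unfold cst1
    rw [sum_cons, ts]
    push_cast
    refine sum_le_sum fun x _ => ?_
    have h3 := ts_le r et hr het het1 (fun t : ℝ => -Real.log (1 - t)) (lgupN nl) k (et x) (het x)
      (het1 x) (fun t h0 h1 => lgupN_le nl t h0 h1)
    have h4 := mul_le_mul_of_nonneg_left h3 (show (0 : ℝ) ≤ r x by exact_mod_cast hr x)
    refine le_trans (le_of_eq ?_) h4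
    rw [mul_sum]
    refine sum_congr rfl fun b _ => ?_
    rw [Fin.prod_univ_succ, Fin.prod_univ_succ]
    simp only [Fin.cons_zero, Fin.cons_succ]
    rw [mul_assoc]
  have hα' : (0 : ℝ) < α := by exact_mod_cast hα
  rw [← ts_tl] at h2
  have h2' : (α : ℝ) * (k * (ts r et (k + 1) (lgupN nl) : ℝ))
      < (totz S D 0 2 L 0 : ℝ) * 10 ^ S / 10 ^ (2 * P) := by
    exact_mod_cast h2
  have htot' : (totz S D 0 2 L 0 : ℝ) * 10 ^ S / 10 ^ (2 * P) ≤ NN k α R T D := by
    rw [div_le_iff₀ (by positivity)]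
    have h5 : (0 : ℝ) < 10 ^ S := by positivity
    have h6 := mul_le_mul_of_nonneg_right htot h5.le
    refine h6.trans (le_of_eq ?_)
    push_cast
    field_simp
    ring
  have hr' : ∀ a, 0 ≤ R a := fun a => by simp only [hR]; exact_mod_cast hr a
  have het' : ∀ a, 0 ≤ T a := fun a => by simp only [hT]; exact_mod_cast het a
  have het1' : ∀ a, T a < 1 := fun a => by simp only [hT]; exact_mod_cast het1 a
  apply criterion' k α hα' R T hr'
    (by have : ((∑ a, r a : ℚ) : ℝ) = 1 := by rw [hr1]; norm_num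
        push_cast at this
        exact this)
    het' het1' D _ β hβ
  refine lt_of_le_of_lt ?_ (lt_of_lt_of_le h2' htot')
  apply mul_le_mul_of_nonneg_left _ hα'.le
  exact mul_le_mul_of_nonneg_left hcst (Nat.cast_nonneg k)

end Pool.Agent.H986R2.SP
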