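import Mathlib

open Finset

namespace Pool.Agent.H986R2.SP

/-- elementary convexity inequality -/
theorem conv_ineq (Q q : ℝ) (hQ : 0 ≤ Q) (hq : 0 ≤ q) (k : ℕ) :
    0 ≤ Q ^ (k + 1) - (k + 1) * (q ^ k * Q) + k * q ^ (k + 1) := by
  induction k with
  | zero => simp
  | succ k ih =>
    have h1 : 0 ≤ (Q ^ (k + 1) - q ^ (k + 1)) * (Q - q) := by
      rcases le_total Q q with h | h
      · have h2 : Q ^ (k + 1) ≤ q ^ (k + 1) := pow_le_pow_left₀ hQ h _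
        nlinarith
      · have h2 : q ^ (k + 1) ≤ Q ^ (k + 1) := pow_le_pow_left₀ hq h _
        nlinarith
    have h3 := mul_nonneg hq ih
    have e : Q ^ (k + 1 + 1) - ((k + 1 : ℕ) + 1) * (q ^ (k + 1) * Q) + (k + 1 : ℕ) * q ^ (k + 1 + 1)
        = q * (Q ^ (k + 1) - (k + 1) * (q ^ k * Q) + k * q ^ (k + 1))
          + (Q ^ (k + 1) - q ^ (k + 1)) * (Q - q) := by
      push_cast
      ring
    rw [e]
    linarith

section

variable {S L A : Type*} [Fintype S] [Fintype L] [Fintype A]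

/-- replica expansion -/
theorem repl (w : S → ℝ) (X : L → S → ℝ) (p : L → ℝ) (k m : ℕ) :
    ∑ l : Fin k → L, (∏ j, p (l j)) * (∑ H, w H * ∏ j, X (l j) H) ^ m
      = ∑ h : Fin m → S, (∏ a, w (h a)) * (∑ l, p l * ∏ a, X l (h a)) ^ k := by
  have e1 : ∀ l : Fin k → L, (∑ H, w H * ∏ j, X (l j) H) ^ m
      = ∑ h : Fin m → S, ∏ a, (w (h a) * ∏ j, X (l j) (h a)) := fun l => Fintype.sum_pow _ _
  have e2 : ∀ h : Fin m → S, (∑ l, p l * ∏ a, X l (h a)) ^ k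
      = ∑ l : Fin k → L, ∏ j, (p (l j) * ∏ a, X (l j) (h a)) := fun h => Fintype.sum_pow _ _
  simp only [e1, e2, mul_sum]
  rw [sum_comm]
  refine sum_congr rfl fun h _ => sum_congr rfl fun l _ => ?_
  rw [prod_mul_distrib, prod_mul_distrib, prod_comm]
  ring

theorem core_pow (k m : ℕ) (w : S → ℝ) (hw : ∀ H, 0 ≤ w H) (hw1 : ∑ H, w H = 1)
    (X : L → S → ℝ) (hX : ∀ l H, 0 ≤ X l H) (p : L → ℝ) (hp : ∀ l, 0 ≤ p l)
    (r : A → ℝ) (hr : ∀ a, 0 ≤ r a) (et : A → ℝ) (het : ∀ a, 0 ≤ et a) :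
    0 ≤ (∑ l : Fin (k + 1) → L, (∏ j, p (l j)) * (∑ H, w H * ∏ j, X (l j) H) ^ m)
      - (k + 1) * (∑ l, ∑ a : Fin k → A, p l * (∏ j, r (a j)) *
          ((∏ j, et (a j)) * ∑ H, w H * X l H) ^ m)
      + k * (∑ a : Fin (k + 1) → A, (∏ j, r (a j)) * (∏ j, et (a j)) ^ m) := by
  set q := ∑ a, r a * et a ^ m with hq
  have hq0 : 0 ≤ q := sum_nonneg fun a _ => mul_nonneg (hr a) (pow_nonneg (het a) _)
  have hqk : ∀ k : ℕ, ∑ a : Fin k → A, (∏ j, r (a j)) * (∏ j, et (a j)) ^ m = q ^ k := by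
    intro k
    rw [hq, Fintype.sum_pow]
    refine sum_congr rfl fun a _ => ?_
    rw [prod_mul_distrib, prod_pow]
  have h1 := repl w X p (k + 1) m
  have h2 : ∑ l, ∑ a : Fin k → A, p l * (∏ j, r (a j)) *
          ((∏ j, et (a j)) * ∑ H, w H * X l H) ^ m
      = q ^ k * ∑ h : Fin m → S, (∏ a, w (h a)) * (∑ l, p l * ∏ a, X l (h a)) := by
    have h3 := repl w X p 1 m
    have h4 : ∑ l : Fin 1 → L, (∏ j, p (l j)) * (∑ H, w H * ∏ j, X (l j) H) ^ m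
        = ∑ l, p l * (∑ H, w H * X l H) ^ m := by
      rw [← (Equiv.funUnique (Fin 1) L).symm.sum_comp]
      refine sum_congr rfl fun l _ => ?_
      simp
    rw [h4] at h3
    simp only [pow_one] at h3
    rw [← h3, ← hqk k, sum_mul_sum, sum_comm]
    refine sum_congr rfl fun a _ => sum_congr rfl fun l _ => ?_
    rw [mul_pow]
    ring
  have h5 : (1 : ℝ) = ∑ h : Fin m → S, ∏ a, w (h a) := by
    rw [← Fintype.sum_pow, hw1, one_pow]
  have h6 : q ^ (k + 1) = ∑ h : Fin m → S, (∏ a, w (h a)) * q ^ (k + 1) := by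
    rw [← sum_mul, ← h5, one_mul]
  rw [h1, h2, hqk (k + 1), h6]
  have e : (∑ h : Fin m → S, (∏ a, w (h a)) * (∑ l, p l * ∏ a, X l (h a)) ^ (k + 1))
      - (k + 1) * (q ^ k * ∑ h : Fin m → S, (∏ a, w (h a)) * (∑ l, p l * ∏ a, X l (h a)))
      + k * ∑ h : Fin m → S, (∏ a, w (h a)) * q ^ (k + 1)
      = ∑ h : Fin m → S, (∏ a, w (h a)) * ((∑ l, p l * ∏ a, X l (h a)) ^ (k + 1)
        - (k + 1) * (q ^ k * (∑ l, p l * ∏ a, X l (h a))) + k * q ^ (k + 1)) := by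
    rw [mul_sum, mul_sum, mul_sum, ← sum_sub_distrib, ← sum_add_distrib]
    refine sum_congr rfl fun h _ => ?_
    ring
  rw [e]
  refine sum_nonneg fun h _ => mul_nonneg (prod_nonneg fun a _ => hw _) ?_
  exact conv_ineq _ _ (sum_nonneg fun l _ => mul_nonneg (hp l)
    (prod_nonneg fun a _ => hX _ _)) hq0 k

/-- `-log (1 - c z)` -/
noncomputable def gg (c z : ℝ) : ℝ := -Real.log (1 - c * z)

theorem gg_hasSum (c z : ℝ) (hc0 : 0 ≤ c) (hc1 : c < 1) (hz0 : 0 ≤ z) (hz1 : z ≤ 1) :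
    HasSum (fun m : ℕ => c ^ (m + 1) / (m + 1) * z ^ (m + 1)) (gg c z) := by
  have h : |c * z| < 1 := by
    rw [abs_of_nonneg (mul_nonneg hc0 hz0)]
    nlinarith
  have := Real.hasSum_pow_div_log_of_abs_lt_one h
  unfold gg
  refine this.congr_fun ?_ |> id
  intro m
  rw [mul_pow]
  ring

theorem core (k : ℕ) (w : S → ℝ) (hw : ∀ H, 0 ≤ w H) (hw1 : ∑ H, w H = 1)
    (X : L → S → ℝ) (hX : ∀ l H, 0 ≤ X l H) (hX1 : ∀ l H, X l H ≤ 1) (p : L → ℝ)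
    (hp : ∀ l, 0 ≤ p l)
    (r : A → ℝ) (hr : ∀ a, 0 ≤ r a) (et : A → ℝ) (het : ∀ a, 0 ≤ et a) (het1 : ∀ a, et a ≤ 1)
    (c : ℝ) (hc0 : 0 ≤ c) (hc1 : c < 1) :
    0 ≤ (∑ l : Fin (k + 1) → L, (∏ j, p (l j)) * gg c (∑ H, w H * ∏ j, X (l j) H))
      - (k + 1) * (∑ l, ∑ a : Fin k → A, p l * (∏ j, r (a j)) *
          gg c ((∏ j, et (a j)) * ∑ H, w H * X l H))
      + k * (∑ a : Fin (k + 1) → A, (∏ j, r (a j)) * gg c (∏ j, et (a j))) := by
  have hz1 : ∀ l : Fin (k + 1) → L, 0 ≤ (∑ H, w H * ∏ j, X (l j) H) ∧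
      (∑ H, w H * ∏ j, X (l j) H) ≤ 1 := by
    intro l
    constructor
    · exact sum_nonneg fun H _ => mul_nonneg (hw H) (prod_nonneg fun j _ => hX _ _)
    · rw [← hw1]
      refine sum_le_sum fun H _ => ?_
      exact mul_le_of_le_one_right (hw H) (prod_le_one (fun j _ => hX _ _) fun j _ => hX1 _ _)
  have hz2 : ∀ l, 0 ≤ (∑ H, w H * X l H) ∧ (∑ H, w H * X l H) ≤ 1 := by
    intro l
    constructor
    · exact sum_nonneg fun H _ => mul_nonneg (hw H) (hX _ _)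
    · rw [← hw1]
      exact sum_le_sum fun H _ => mul_le_of_le_one_right (hw H) (hX1 _ _)
  have hz3 : ∀ (k : ℕ) (a : Fin k → A), 0 ≤ (∏ j, et (a j)) ∧ (∏ j, et (a j)) ≤ 1 := fun k a =>
    ⟨prod_nonneg fun j _ => het _, prod_le_one (fun j _ => het _) fun j _ => het1 _⟩
  have s1 : HasSum (fun m : ℕ => ∑ l : Fin (k + 1) → L, (∏ j, p (l j)) *
      (c ^ (m + 1) / (m + 1) * (∑ H, w H * ∏ j, X (l j) H) ^ (m + 1)))
      (∑ l : Fin (k + 1) → L, (∏ j, p (l j)) * gg c (∑ H, w H * ∏ j, X (l j) H)) :=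
    hasSum_sum fun l _ => (gg_hasSum c _ hc0 hc1 (hz1 l).1 (hz1 l).2).mul_left _
  have s2 : HasSum (fun m : ℕ => ∑ l, ∑ a : Fin k → A, p l * (∏ j, r (a j)) *
          (c ^ (m + 1) / (m + 1) * ((∏ j, et (a j)) * ∑ H, w H * X l H) ^ (m + 1)))
      (∑ l, ∑ a : Fin k → A, p l * (∏ j, r (a j)) *
          gg c ((∏ j, et (a j)) * ∑ H, w H * X l H)) := by
    refine hasSum_sum fun l _ => hasSum_sum fun a _ => HasSum.mul_left _ ?_
    refine gg_hasSum c _ hc0 hc1 (mul_nonneg (hz3 k a).1 (hz2 l).1) ?_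
    exact mul_le_one₀ (hz3 k a).2 (hz2 l).1 (hz2 l).2
  have s3 : HasSum (fun m : ℕ => ∑ a : Fin (k + 1) → A, (∏ j, r (a j)) *
      (c ^ (m + 1) / (m + 1) * (∏ j, et (a j)) ^ (m + 1)))
      (∑ a : Fin (k + 1) → A, (∏ j, r (a j)) * gg c (∏ j, et (a j))) :=
    hasSum_sum fun a _ => (gg_hasSum c _ hc0 hc1 (hz3 _ a).1 (hz3 _ a).2).mul_left _
  have s4 := (s1.sub (s2.mul_left ((k : ℝ) + 1))).add (s3.mul_left (k : ℝ))
  refine s4.nonneg fun m => ?_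
  have h := core_pow k (m + 1) w hw hw1 X hX p hp r hr et het
  have hc : 0 ≤ c ^ (m + 1) / ((m : ℝ) + 1) := by positivity
  have h2 := mul_nonneg hc h
  refine le_of_le_of_eq h2 ?_
  have a1 : c ^ (m + 1) / ((m : ℝ) + 1) * ∑ l : Fin (k + 1) → L, (∏ j, p (l j)) *
      (∑ H, w H * ∏ j, X (l j) H) ^ (m + 1)
      = ∑ l : Fin (k + 1) → L, (∏ j, p (l j)) *
      (c ^ (m + 1) / (m + 1) * (∑ H, w H * ∏ j, X (l j) H) ^ (m + 1)) := by
    rw [mul_sum]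
    exact sum_congr rfl fun l _ => by ring
  have a2 : c ^ (m + 1) / ((m : ℝ) + 1) * ∑ l, ∑ a : Fin k → A, p l * (∏ j, r (a j)) *
          ((∏ j, et (a j)) * ∑ H, w H * X l H) ^ (m + 1)
      = ∑ l, ∑ a : Fin k → A, p l * (∏ j, r (a j)) *
          (c ^ (m + 1) / (m + 1) * ((∏ j, et (a j)) * ∑ H, w H * X l H) ^ (m + 1)) := by
    rw [mul_sum]
    refine sum_congr rfl fun l _ => ?_
    rw [mul_sum]
    exact sum_congr rfl fun a _ => by ring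
  have a3 : c ^ (m + 1) / ((m : ℝ) + 1) * ∑ a : Fin (k + 1) → A, (∏ j, r (a j)) *
      (∏ j, et (a j)) ^ (m + 1)
      = ∑ a : Fin (k + 1) → A, (∏ j, r (a j)) *
      (c ^ (m + 1) / (m + 1) * (∏ j, et (a j)) ^ (m + 1)) := by
    rw [mul_sum]
    exact sum_congr rfl fun a _ => by ring
  rw [mul_add, mul_sub, mul_left_comm _ ((k : ℝ) + 1), mul_left_comm _ (k : ℝ), a1, a2, a3]

end

end Pool.Agent.H986R2.SP
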