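import Pool.Agent.H986R2.SP.Site

open Finset

namespace Pool.Agent.H986R2.SP

/-- indicator that one value is free -/
noncomputable def indb (b : Bool) (h : Bool → ℕ) : ℝ := if h b = 0 then 1 else 0

/-- indicator that there is no penalty -/
noncomputable def ind0 (h : Bool → ℕ) : ℝ := if h = 0 then 1 else 0

/-- probability that the value `b` is free -/
noncomputable def chi (b : Bool) (ρ : St Bool) : ℝ := ev (indb b) ρ

/-- probability that there is no penalty -/
noncomputable def chi0 (ρ : St Bool) : ℝ := ev ind0 ρ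

theorem chi_mul (b b' : Bool) (ρ : St Bool) (t : ℝ) :
    chi b (ρ * nu (pe b') t) = chi b ρ * (if b = b' then 1 else 1 - t) := by
  unfold chi
  rw [ev_mul_nu]
  by_cases h : b = b'
  · subst h
    rw [if_pos rfl]
    have : (fun H : Bool → ℕ => indb b (H + pe b)) = indb b := by
      funext H
      unfold indb
      simp [pe]
    rw [this]
    ring
  · rw [if_neg h]
    have : (fun H : Bool → ℕ => indb b (H + pe b')) = fun _ => 0 := by
      funext H
      unfold indb
      simp [pe, h]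
    rw [this]
    have h0 : ev (fun _ => (0 : ℝ)) ρ = 0 := by simp [ev]
    rw [h0]
    ring

theorem chi0_mul (b' : Bool) (ρ : St Bool) (t : ℝ) :
    chi0 (ρ * nu (pe b') t) = chi0 ρ * (1 - t) := by
  unfold chi0
  rw [ev_mul_nu]
  have : (fun H : Bool → ℕ => ind0 (H + pe b')) = fun _ => 0 := by
    funext H
    unfold ind0
    rw [if_neg]
    intro hcon
    have := congrFun hcon (!b')
    simp [pe] at this
  rw [this]
  have h0 : ev (fun _ => (0 : ℝ)) ρ = 0 := by simp [ev]
  rw [h0]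
  ring

/-- good states whose two signs are independent -/
def Ind (ρ : St Bool) : Prop := Good ρ ∧ chi0 ρ = chi true ρ * chi false ρ

theorem Ind.one : Ind (1 : St Bool) := by
  refine ⟨Good.one, ?_⟩
  rw [AddMonoidAlgebra.one_def]
  unfold chi0 chi
  rw [ev_single, ev_single, ev_single]
  simp [ind0, indb]

theorem Ind.mul {ρ : St Bool} (h : Ind ρ) (b : Bool) (t : ℝ) (ht0 : 0 ≤ t) (ht1 : t ≤ 1) :
    Ind (ρ * nu (pe b) t) := by
  refine ⟨h.1.mul_nu _ _ ht0 ht1, ?_⟩
  rw [chi0_mul, chi_mul, chi_mul, h.2]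
  cases b <;> simp <;> ring

theorem chi_nonneg {ρ : St Bool} (h : Good ρ) (b : Bool) : 0 ≤ chi b ρ :=
  h.1 _ fun H => by unfold indb; split_ifs <;> norm_num

theorem chi_le_one {ρ : St Bool} (h : Good ρ) (b : Bool) : chi b ρ ≤ 1 := by
  unfold chi
  rw [← h.2]
  exact h.mono fun H => by unfold indb; split_ifs <;> norm_num

theorem chi_one (b : Bool) : chi b 1 = 1 := by
  rw [AddMonoidAlgebra.one_def]
  unfold chi
  rw [ev_single]
  simp [indb]

theorem Zf_le {ρ : St Bool} (h : Ind ρ) (e : ℝ) (he0 : 0 ≤ e) (he1 : e ≤ 1) :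
    Zf e ρ ≤ 1 - (1 - chi true ρ) * (1 - chi false ρ) + e := by
  have h1 : Zf e ρ ≤ ev (fun H => 1 * (indb true H + indb false H) + 1 * (-ind0 H + e)) ρ := by
    refine h.1.mono fun H => ?_
    unfold indb ind0
    by_cases hm : mnn H = 0
    · rw [hm, pow_zero]
      obtain ⟨b, hb⟩ := exists_mnn H
      rw [hm] at hb
      have h0 : H = 0 ↔ H true = 0 ∧ H false = 0 := by
        constructor
        · intro h; rw [h]; exact ⟨rfl, rfl⟩
        · rintro ⟨h1, h2⟩
          funext b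
          cases b
          · exact h2
          · exact h1
      by_cases ht : H true = 0 <;> by_cases hf : H false = 0
      · rw [if_pos ht, if_pos hf, if_pos (h0.2 ⟨ht, hf⟩)]; linarith
      · rw [if_pos ht, if_neg hf, if_neg (fun h => hf (h0.1 h).2)]; linarith
      · rw [if_neg ht, if_pos hf, if_neg (fun h => ht (h0.1 h).1)]; linarith
      · exfalso
        cases b
        · exact hf hb
        · exact ht hb
    · have ht : H true ≠ 0 := by
        intro hcon
        have := mnn_le H true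
        omega
      have hf : H false ≠ 0 := by
        intro hcon
        have := mnn_le H false
        omega
      rw [if_neg ht, if_neg hf, if_neg (fun h => ht (by rw [h]; rfl))]
      have : e ^ mnn H ≤ e ^ 1 := pow_le_pow_of_le_one he0 he1 (Nat.one_le_iff_ne_zero.2 hm)
      rw [pow_one] at this
      linarith
  rw [ev_lin] at h1
  have h2 := ev_lin (indb true) (indb false) 1 1 ρ
  simp only [one_mul] at h2
  have h3 := ev_lin ind0 (fun _ => (1 : ℝ)) (-1) e ρ
  have h4 : (fun H : Bool → ℕ => -ind0 H + e) = fun H => -1 * ind0 H + e * 1 := by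
    funext H; ring
  rw [h4, h3, h2, h.1.2] at h1
  have h5 := h.2
  unfold chi0 at h5
  rw [h5] at h1
  unfold chi at h1 ⊢
  linarith

theorem pow_sub_le (w e : ℝ) (he : 0 ≤ e) (hwe : e ≤ w) (hw1 : w ≤ 1) (m : ℕ) :
    w ^ m - (w - e) ^ m ≤ m * e := by
  induction m with
  | zero => simp
  | succ m ih =>
    have h1 : w ^ (m + 1) - (w - e) ^ (m + 1) = w * (w ^ m - (w - e) ^ m) + e * (w - e) ^ m := by
      ring
    have h2 : (w - e) ^ m ≤ 1 := pow_le_one₀ (by linarith) (by linarith)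
    have h3 : 0 ≤ w ^ m - (w - e) ^ m := by
      have := pow_le_pow_left₀ (sub_nonneg.2 hwe) (by linarith : w - e ≤ w) m
      linarith
    rw [h1]
    push_cast
    nlinarith

theorem log_lower (x w e : ℝ) (hx0 : 0 < x) (hx1 : x ≤ 1) (hw0 : 0 ≤ w) (hw1 : w ≤ 1)
    (he : 0 ≤ e) (h : x ≤ 1 - w + e) (D : ℕ) :
    ∑ m ∈ range D, w ^ (m + 1) / (m + 1) - D * e ≤ -Real.log x := by
  have h1 : ∑ m ∈ range D, (1 - x) ^ (m + 1) / ((m : ℝ) + 1) ≤ -Real.log x := by
    have h2 : |1 - x| < 1 := by rw [abs_lt]; constructor <;> linarith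
    have h3 := Real.hasSum_pow_div_log_of_abs_lt_one h2
    have e1 : 1 - (1 - x) = x := by ring
    rw [e1] at h3
    exact sum_le_hasSum _ (fun m _ => div_nonneg (pow_nonneg (by linarith) _) (by positivity)) h3
  refine le_trans ?_ h1
  have h4 : (D : ℝ) * e = ∑ m ∈ range D, e := by rw [sum_const, card_range, nsmul_eq_mul]
  rw [h4, ← sum_sub_distrib]
  refine sum_le_sum fun m _ => ?_
  have hm : (0 : ℝ) < (m : ℝ) + 1 := by positivity
  have h5 : w ^ (m + 1) - (m + 1) * e ≤ (1 - x) ^ (m + 1) := by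
    rcases le_total w e with hwe | hwe
    · have h6 : w ^ (m + 1) ≤ w := by
        calc w ^ (m + 1) ≤ w ^ 1 := pow_le_pow_of_le_one hw0 hw1 (by omega)
          _ = w := pow_one w
      have h7 : 0 ≤ (1 - x) ^ (m + 1) := pow_nonneg (by linarith) _
      have h8 : (0 : ℝ) ≤ m * e := by positivity
      linarith
    · have h6 := pow_sub_le w e he hwe hw1 (m + 1)
      have h7 : (w - e) ^ (m + 1) ≤ (1 - x) ^ (m + 1) :=
        pow_le_pow_left₀ (sub_nonneg.2 hwe) (by linarith) _
      push_cast at h6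
      linarith
  have h6 : w ^ (m + 1) / ((m : ℝ) + 1) - e = (w ^ (m + 1) - (m + 1) * e) / (m + 1) := by
    field_simp
  rw [h6]
  exact div_le_div_of_nonneg_right h5 hm.le

theorem phi_lower {ρ : St Bool} (h : Ind ρ) (e : ℝ) (he0 : 0 < e) (he1 : e ≤ 1) (D : ℕ) :
    ∑ m ∈ range D, ((1 - chi true ρ) * (1 - chi false ρ)) ^ (m + 1) / (m + 1) - D * e
      ≤ phi e ρ := by
  have ht0 := chi_nonneg h.1 true
  have ht1 := chi_le_one h.1 true
  have hf0 := chi_nonneg h.1 false
  have hf1 := chi_le_one h.1 false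
  exact log_lower _ _ e (Zf_pos e he0 _ h.1) (Zf_le_one e he0.le he1 _ h.1)
    (mul_nonneg (by linarith) (by linarith)) (mul_le_one₀ (by linarith) (by linarith)
    (by linarith)) he0.le (Zf_le h e he0.le he1) D

section

variable {A : Type*} [Fintype A]

/-- moments of the trial distribution -/
noncomputable def kap (k : ℕ) (r et : A → ℝ) (j : ℕ) : ℝ :=
  ∑ a : Fin k → A, (∏ i, r (a i)) * (1 - ∏ i, et (a i)) ^ j

/-- eigenfunctions -/
noncomputable def eig (j l : ℕ) : St Bool → ℝ := fun ρ => chi false ρ ^ j * chi true ρ ^ l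

/-- eigenvalues -/
noncomputable def lam (k n : ℕ) (r et : A → ℝ) (j l : ℕ) : ℝ :=
  1 + (-(1 - (kap k r et j + kap k r et l) / 2)) / n

theorem eig_step (k n : ℕ) (r et : A → ℝ) (j l : ℕ) :
    lzy (1 / (n : ℝ)) (wQ k r) (sQ k et) (eig j l) = lam k n r et j l • eig j l := by
  funext ρ
  rw [lzy_apply, avg_apply, Fintype.sum_prod_type, Fintype.sum_bool]
  have h1 : ∀ a : Fin k → A, eig j l (ρ * sQ k et (true, a))
      = eig j l ρ * (1 - ∏ i, et (a i)) ^ j := by
    intro a
    unfold eig sQ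
    rw [chi_mul, chi_mul]
    simp only [reduceCtorEq, if_false, if_true, mul_one]
    rw [mul_pow]; ring
  have h2 : ∀ a : Fin k → A, eig j l (ρ * sQ k et (false, a))
      = eig j l ρ * (1 - ∏ i, et (a i)) ^ l := by
    intro a
    unfold eig sQ
    rw [chi_mul, chi_mul]
    simp only [reduceCtorEq, if_false, if_true, mul_one]
    rw [mul_pow]; ring
  simp only [h1, h2, Pi.smul_apply, smul_eq_mul]
  have h3 : ∀ j : ℕ, ∀ b : Bool, ∑ a : Fin k → A, wQ k r (b, a) *
      (eig j l ρ * (1 - ∏ i, et (a i)) ^ j) = eig j l ρ * (kap k r et j / 2) := by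
    intro j b
    unfold kap wQ
    rw [sum_div, mul_sum]
    refine sum_congr rfl fun a _ => ?_
    ring
  have h4 : ∀ b : Bool, ∑ a : Fin k → A, wQ k r (b, a) *
      (eig j l ρ * (1 - ∏ i, et (a i)) ^ l) = eig j l ρ * (kap k r et l / 2) := by
    intro b
    unfold kap wQ
    rw [sum_div, mul_sum]
    refine sum_congr rfl fun a _ => ?_
    ring
  rw [h3, h4]
  unfold lam
  ring

theorem eig_pow (k n : ℕ) (r et : A → ℝ) (j l T : ℕ) :
    (lzy (1 / (n : ℝ)) (wQ k r) (sQ k et) ^ T) (eig j l) 1 = lam k n r et j l ^ T := by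
  have h : (lzy (1 / (n : ℝ)) (wQ k r) (sQ k et) ^ T) (eig j l)
      = lam k n r et j l ^ T • eig j l := by
    induction T with
    | zero => simp
    | succ T ih =>
      rw [pow_succ']
      show lzy (1 / (n : ℝ)) (wQ k r) (sQ k et)
        ((lzy (1 / (n : ℝ)) (wQ k r) (sQ k et) ^ T) (eig j l)) = _
      rw [ih, map_smul, eig_step, smul_smul]
      congr 1
  rw [h]
  simp only [Pi.smul_apply, smul_eq_mul]
  unfold eig
  rw [chi_one, chi_one]
  ring

theorem expand (M : ℕ) :
    (fun ρ : St Bool => ((1 - chi true ρ) * (1 - chi false ρ)) ^ M)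
      = ∑ j ∈ range (M + 1), ∑ l ∈ range (M + 1),
        ((-1 : ℝ) ^ j * M.choose j * ((-1) ^ l * M.choose l)) • eig j l := by
  funext ρ
  simp only [Finset.sum_apply, Pi.smul_apply, smul_eq_mul]
  have h : ∀ u : ℝ, (1 - u) ^ M = ∑ j ∈ range (M + 1), (-1) ^ j * M.choose j * u ^ j := by
    intro u
    have e : (1 - u) = (-u) + 1 := by ring
    rw [e, add_pow]
    refine sum_congr rfl fun j _ => ?_
    rw [one_pow, mul_one, neg_pow]
    ring
  rw [mul_comm (1 - chi true ρ), mul_pow, h, h, sum_mul_sum]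
  refine sum_congr rfl fun j _ => sum_congr rfl fun l _ => ?_
  unfold eig
  ring

/-- Lower bound for the one-site free energy. -/
theorem site_lower (k n T : ℕ) (hn : 0 < n) (r et : A → ℝ) (hr : ∀ a, 0 ≤ r a)
    (hr1 : ∑ a, r a = 1) (het : ∀ a, 0 ≤ et a) (het1 : ∀ a, et a ≤ 1)
    (e : ℝ) (he0 : 0 < e) (he1 : e ≤ 1) (D : ℕ) :
    ∑ m ∈ range D, (∑ j ∈ range (m + 1 + 1), ∑ l ∈ range (m + 1 + 1),
        ((-1 : ℝ) ^ j * (m + 1).choose j * ((-1) ^ l * (m + 1).choose l))
          * lam k n r et j l ^ T) / (m + 1) - D * e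
      ≤ (lzy (1 / (n : ℝ)) (wQ k r) (sQ k et) ^ T) (phi e) 1 := by
  have hn' : (1 : ℝ) ≤ n := by exact_mod_cast hn
  have hn0 : (0 : ℝ) < n := by linarith
  have hq0 : (0 : ℝ) ≤ 1 / n := by positivity
  have hq1 : (1 : ℝ) / n ≤ 1 := by rw [div_le_one hn0]; exact hn'
  have het' : ∀ a : Fin k → A, 0 ≤ (∏ j, et (a j)) ∧ (∏ j, et (a j)) ≤ 1 := fun a =>
    ⟨prod_nonneg fun j _ => het _, prod_le_one (fun j _ => het _) fun j _ => het1 _⟩
  have h1 := lzy_pow_mono (1 / (n : ℝ)) hq0 hq1 (wQ k r) (sQ k et) (wQ_nonneg k r hr) Ind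
    (fun ρ hρ x => hρ.mul x.1 _ (het' x.2).1 (het' x.2).2)
    (Φ := fun ρ => (∑ m ∈ range D, ((1 - chi true ρ) * (1 - chi false ρ)) ^ (m + 1) / (m + 1))
      + -(D * e)) (Ψ := phi e)
    (fun ρ hρ => by
      have := phi_lower hρ e he0 he1 D
      linarith) T 1 Ind.one
  rw [lzy_pow_add_const _ _ _ (wQ_sum k r hr1)] at h1
  refine le_trans (le_of_eq ?_) h1
  rw [← sub_eq_add_neg]
  congr 1
  have h2 : (fun ρ : St Bool => ∑ m ∈ range D,
      ((1 - chi true ρ) * (1 - chi false ρ)) ^ (m + 1) / ((m : ℝ) + 1))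
      = ∑ m ∈ range D, (1 / ((m : ℝ) + 1)) •
        (fun ρ : St Bool => ((1 - chi true ρ) * (1 - chi false ρ)) ^ (m + 1)) := by
    funext ρ
    simp only [Finset.sum_apply, Pi.smul_apply, smul_eq_mul]
    exact sum_congr rfl fun m _ => by ring
  rw [h2, map_sum, Finset.sum_apply]
  refine sum_congr rfl fun m _ => ?_
  rw [map_smul, expand, map_sum]
  simp only [map_sum, map_smul, Pi.smul_apply, Finset.sum_apply, smul_eq_mul, eig_pow]
  ring

end

end Pool.Agent.H986R2.SP
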