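import Pool.Agent.H986R2.SP.Model
import Pool.Agent.H986R2.SP.Eigen

open Finset Filter Topology

namespace Pool.Agent.H986R2.SP

section

variable {A : Type*} [Fintype A]

/-- The finite-size bound. -/
theorem finite_bound (k n m : ℕ) (hn : k + 1 ≤ n) (r et : A → ℝ) (hr : ∀ a, 0 ≤ r a)
    (hr1 : ∑ a, r a = 1) (het : ∀ a, 0 ≤ et a) (het1 : ∀ a, et a ≤ 1)
    (e : ℝ) (he0 : 0 < e) (he1 : e ≤ 1) (D : ℕ) (a : ℝ) (ha : 0 < a) :
    (n : ℝ) * (∑ m' ∈ range D, (∑ j ∈ range (m' + 1 + 1), ∑ l ∈ range (m' + 1 + 1),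
        ((-1 : ℝ) ^ j * (m' + 1).choose j * ((-1) ^ l * (m' + 1).choose l))
          * lam k n r et j l ^ ((k + 1) * m)) / (m' + 1) - D * e)
      ≤ -Real.log e * ((AV n (k + 1) ^ m) mnR 1 + m / (2 * a) + a / 2)
        + m * (k * cst k e r et + -Real.log e * (k + 1) ^ 2 / n) := by
  have hn0 : 0 < n := by omega
  have hy : 0 ≤ -Real.log e := by
    have := Real.log_nonpos he0.le he1
    linarith
  have h1 := site_lower k n ((k + 1) * m) hn0 r et hr hr1 het het1 e he0 he1 D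
  have h2 := sep_pow hn0 k r et hr1 het het1 e he0 ((k + 1) * m) (fun _ : Fin n => (1 : St Bool))
    (fun _ => Good.one)
  rw [prodst_one, sum_const, card_univ, Fintype.card_fin, nsmul_eq_mul] at h2
  have het' : ∀ a : Fin k → A, 0 ≤ (∏ j, et (a j)) ∧ (∏ j, et (a j)) ≤ 1 := fun a =>
    ⟨prod_nonneg fun j _ => het _, prod_le_one (fun j _ => het _) fun j _ => het1 _⟩
  have hk : (0 : ℝ) < (k : ℝ) + 1 := by positivity
  have hq0 : (0 : ℝ) ≤ 1 / ((k : ℝ) + 1) := by positivity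
  have hq1 : (1 : ℝ) / ((k : ℝ) + 1) ≤ 1 := by
    rw [div_le_one hk]
    have : (0 : ℝ) ≤ k := Nat.cast_nonneg k
    linarith
  have h3 := interp (1 / ((k : ℝ) + 1)) hq0 hq1 wt (sA n (k + 1)) (wB n k r) (sB n k et)
    (fun c => wt_nonneg c) (wt_sum n (k + 1) hn) (wB_nonneg n k r hr) (wB_sum n k hn0 r hr1)
    Good (fun ρ hρ c => hρ.mul_single _) (fun ρ hρ x => hρ.mul_nu _ _ (het' x.2).1 (het' x.2).2)
    (phi e) _ (step k hn e he0 he1 r hr hr1 et het het1) ((k + 1) * m) 1 Good.one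
  have h4 := intertw (n := n) (k := k + 1) e (1 / ((k : ℝ) + 1)) ((k + 1) * m) 0
  rw [← AddMonoidAlgebra.one_def, ofAdd_zero] at h4
  have h5 := lazy_le (k := k + 1) (by omega) hn m a ha
  push_cast at h5
  rw [h4] at h3
  rw [h2] at h3
  have h6 := mul_le_mul_of_nonneg_left h1 (Nat.cast_nonneg (α := ℝ) n)
  have h7 := mul_le_mul_of_nonneg_left h5 hy
  push_cast at h3
  have h8 : ((k : ℝ) + 1) * m * ((k * cst k e r et + -Real.log e * (k + 1) ^ 2 / n) / (k + 1))
      = m * (k * cst k e r et + -Real.log e * (k + 1) ^ 2 / n) := by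
    field_simp
  rw [h8] at h3
  linarith

/-- limiting weights -/
noncomputable def EE (k : ℕ) (α : ℝ) (r et : A → ℝ) (j : ℕ) : ℝ :=
  Real.exp (-(((k : ℝ) + 1) * α / 2 * (1 - kap k r et j)))

/-- moments of the limiting one-sign law -/
noncomputable def aa (k : ℕ) (α : ℝ) (r et : A → ℝ) (M : ℕ) : ℝ :=
  ∑ j ∈ range (M + 1), (-1 : ℝ) ^ j * M.choose j * EE k α r et j

/-- the site term -/
noncomputable def NN (k : ℕ) (α : ℝ) (r et : A → ℝ) (D : ℕ) : ℝ :=
  ∑ m ∈ range D, aa k α r et (m + 1) ^ 2 / (m + 1)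

/-- the clause term -/
noncomputable def cst1 (k : ℕ) (r et : A → ℝ) : ℝ :=
  ∑ a : Fin (k + 1) → A, (∏ j, r (a j)) * -Real.log (1 - ∏ j, et (a j))

theorem cst_le (k : ℕ) (r et : A → ℝ) (hr : ∀ a, 0 ≤ r a) (het : ∀ a, 0 ≤ et a)
    (het1 : ∀ a, et a < 1) (e : ℝ) (he0 : 0 < e) : cst k e r et ≤ cst1 k r et := by
  unfold cst cst1
  refine sum_le_sum fun a _ => mul_le_mul_of_nonneg_left ?_ (prod_nonneg fun j _ => hr _)
  unfold gg
  have h0 : 0 ≤ ∏ j, et (a j) := prod_nonneg fun j _ => het _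
  have h1 : ∏ j, et (a j) < 1 := by
    rw [Fin.prod_univ_succ]
    have h2 : ∏ j : Fin k, et (a j.succ) ≤ 1 :=
      prod_le_one (fun j _ => het _) fun j _ => (het1 _).le
    have h3 : 0 ≤ ∏ j : Fin k, et (a j.succ) := prod_nonneg fun j _ => het _
    have h4 := het1 (a 0)
    have h5 := het (a 0)
    nlinarith
  have h2 : Real.log (1 - ∏ j, et (a j)) ≤ Real.log (1 - (1 - e) * ∏ j, et (a j)) := by
    apply Real.log_le_log (by linarith)
    nlinarith
  linarith

theorem tendsto_pow_exp (x β : ℝ) (T : ℕ → ℕ)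
    (hT : Tendsto (fun n : ℕ => (T n : ℝ) / n) atTop (𝓝 β)) :
    Tendsto (fun n : ℕ => (1 + x / (n : ℝ)) ^ T n) atTop (𝓝 (Real.exp (x * β))) := by
  have h1 : Tendsto (fun n : ℕ => (n : ℝ) * Real.log (1 + x / n)) atTop (𝓝 x) :=
    (Real.tendsto_mul_log_one_add_div_atTop x).comp tendsto_natCast_atTop_atTop
  have h2 := h1.mul hT
  have h3 := (Real.continuous_exp.tendsto _).comp h2
  refine h3.congr' ?_
  have h4 : Tendsto (fun n : ℕ => 1 + x / (n : ℝ)) atTop (𝓝 1) := by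
    have := (tendsto_const_nhds (x := (1 : ℝ))).add
      (tendsto_const_nhds.div_atTop tendsto_natCast_atTop_atTop (a := x))
    rwa [add_zero] at this
  filter_upwards [h4.eventually_const_lt (zero_lt_one), eventually_gt_atTop 0] with n hn hn0
  have hn' : (n : ℝ) ≠ 0 := by positivity
  simp only [Function.comp_apply]
  have e1 : (n : ℝ) * Real.log (1 + x / n) * ((T n : ℝ) / n)
      = T n * Real.log (1 + x / n) := by field_simp
  rw [e1, Real.exp_nat_mul, Real.exp_log hn]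

theorem tendsto_floor (α : ℝ) (hα : 0 ≤ α) :
    Tendsto (fun n : ℕ => ((⌊α * (n : ℝ)⌋₊ : ℕ) : ℝ) / n) atTop (𝓝 α) :=
  (tendsto_nat_floor_mul_div_atTop hα).comp tendsto_natCast_atTop_atTop

/-- The criterion. -/
theorem criterion (k : ℕ) (α : ℝ) (hα : 0 < α) (r et : A → ℝ) (hr : ∀ a, 0 ≤ r a)
    (hr1 : ∑ a, r a = 1) (het : ∀ a, 0 ≤ et a) (het1 : ∀ a, et a < 1) (D : ℕ)
    (h : α * (k * cst1 k r et) < NN k α r et D) :
    Tendsto (fun n : ℕ => probSat (k + 1) n ⌊α * n⌋₊) atTop (𝓝 0) := by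
  set g := NN k α r et D - α * (k * cst1 k r et) with hg
  have hg0 : 0 < g := by rw [hg]; linarith
  -- the parameters
  set e : ℝ := min (1 / 2) (g / (4 * (D + 1))) with he
  have he0 : 0 < e := lt_min (by norm_num) (by positivity)
  have he1 : e < 1 := lt_of_le_of_lt (min_le_left _ _) (by norm_num)
  have heD : D * e ≤ g / 4 := by
    have h1 : e ≤ g / (4 * (D + 1)) := min_le_right _ _
    have h2 : (0 : ℝ) ≤ D := Nat.cast_nonneg D
    calc D * e ≤ (D + 1) * (g / (4 * (D + 1))) := by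
          apply mul_le_mul _ h1 he0.le (by positivity)
          linarith
      _ = g / 4 := by field_simp
  set y := -Real.log e with hy
  have hy0 : 0 < y := by
    have := Real.log_neg he0 he1
    rw [hy]; linarith
  set δ := g / (2 * y) with hδ
  have hδ0 : 0 < δ := by positivity
  set M : ℕ → ℝ := fun n => ((⌊α * (n : ℝ)⌋₊ : ℕ) : ℝ) / n with hM
  have tM : Tendsto M atTop (𝓝 α) := tendsto_floor α hα.le
  have t0 : Tendsto (fun n : ℕ => 1 / (n : ℝ)) atTop (𝓝 0) := tendsto_one_div_atTop_nhds_zero_nat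
  have tT : Tendsto (fun n : ℕ => (((k + 1) * ⌊α * (n : ℝ)⌋₊ : ℕ) : ℝ) / n) atTop
      (𝓝 (((k : ℝ) + 1) * α)) := by
    refine (tM.const_mul ((k : ℝ) + 1)).congr (fun n => ?_)
    rw [hM]
    push_cast
    rw [mul_div_assoc]
  have tlam : ∀ j l, Tendsto (fun n : ℕ => lam k n r et j l ^ ((k + 1) * ⌊α * (n : ℝ)⌋₊)) atTop
      (𝓝 (EE k α r et j * EE k α r et l)) := by
    intro j l
    have h1 := tendsto_pow_exp (-(1 - (kap k r et j + kap k r et l) / 2)) (((k : ℝ) + 1) * α)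
      (fun n => (k + 1) * ⌊α * (n : ℝ)⌋₊) tT
    have e1 : Real.exp (-(1 - (kap k r et j + kap k r et l) / 2) * (((k : ℝ) + 1) * α))
        = EE k α r et j * EE k α r et l := by
      unfold EE
      rw [← Real.exp_add]
      congr 1
      ring
    rw [e1] at h1
    exact h1
  set Fn : ℕ → ℝ := fun n => ∑ m' ∈ range D, (∑ j ∈ range (m' + 1 + 1),
      ∑ l ∈ range (m' + 1 + 1),
        ((-1 : ℝ) ^ j * (m' + 1).choose j * ((-1) ^ l * (m' + 1).choose l))
          * lam k n r et j l ^ ((k + 1) * ⌊α * (n : ℝ)⌋₊)) / (m' + 1) with hFn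
  have tF : Tendsto Fn atTop (𝓝 (NN k α r et D)) := by
    unfold NN
    apply tendsto_finset_sum
    intro m' _
    apply Tendsto.div_const
    have e1 : aa k α r et (m' + 1) ^ 2 = ∑ j ∈ range (m' + 1 + 1), ∑ l ∈ range (m' + 1 + 1),
        ((-1 : ℝ) ^ j * (m' + 1).choose j * ((-1) ^ l * (m' + 1).choose l))
          * (EE k α r et j * EE k α r et l) := by
      unfold aa
      rw [pow_two, sum_mul_sum]
      refine sum_congr rfl fun j _ => sum_congr rfl fun l _ => ?_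
      ring
    rw [e1]
    apply tendsto_finset_sum
    intro j _
    apply tendsto_finset_sum
    intro l _
    exact (tlam j l).const_mul _
  set G : ℕ → ℝ := fun n => Fn n - D * e - y * (M n / (2 * δ) * (1 / n) + δ / 2)
    - M n * (k * cst1 k r et + y * (k + 1) ^ 2 * (1 / n)) with hG
  have tG : Tendsto G atTop (𝓝 (NN k α r et D - D * e - y * (δ / 2)
      - α * (k * cst1 k r et))) := by
    have h1 := (((tM.div_const (2 * δ)).mul t0).add_const (δ / 2)).const_mul y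
    have h2 := tM.mul ((t0.const_mul (y * ((k : ℝ) + 1) ^ 2)).const_add (k * cst1 k r et))
    have h3 := ((tF.sub_const (D * e)).sub h1).sub h2
    have e1 : NN k α r et D - D * e - y * (α / (2 * δ) * 0 + δ / 2)
        - α * (k * cst1 k r et + y * (k + 1) ^ 2 * 0)
        = NN k α r et D - D * e - y * (δ / 2) - α * (k * cst1 k r et) := by ring
    rw [e1] at h3
    exact h3
  have hlim : g / 4 < NN k α r et D - D * e - y * (δ / 2) - α * (k * cst1 k r et) := by
    have h1 : y * (δ / 2) = g / 4 := by rw [hδ]; field_simp; ring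
    rw [h1]
    linarith
  have hev := tG.eventually_const_lt hlim
  have t1 : Tendsto (fun n => M n * (16 * y ^ 2 / g ^ 2) * (1 / (n : ℝ))) atTop (𝓝 0) := by
    have := (tM.mul_const (16 * y ^ 2 / g ^ 2)).mul t0
    rwa [mul_zero] at this
  refine tendsto_of_tendsto_of_tendsto_of_le_of_le' tendsto_const_nhds t1
    (Eventually.of_forall fun n => probSat_nonneg _ n _) ?_
  filter_upwards [hev, eventually_ge_atTop (k + 1)] with n hn1 hn2
  have hn0 : (0 : ℝ) < n := by exact_mod_cast (by omega : 0 < n)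
  set m := ⌊α * (n : ℝ)⌋₊ with hm
  have hb := finite_bound k n m hn2 r et hr hr1 het (fun a => (het1 a).le) e he0 he1.le D (δ * n)
    (by positivity)
  rw [← hy] at hb
  have hc := cst_le k r et hr het het1 e he0
  have hk0 : (0 : ℝ) ≤ k := Nat.cast_nonneg k
  have hm0 : (0 : ℝ) ≤ m := Nat.cast_nonneg m
  have hb2 : (m : ℝ) * (k * cst k e r et + y * (k + 1) ^ 2 / n)
      ≤ m * (k * cst1 k r et + y * (k + 1) ^ 2 / n) := by
    apply mul_le_mul_of_nonneg_left _ hm0
    have := mul_le_mul_of_nonneg_left hc hk0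
    linarith
  have hGn : (n : ℝ) * G n = (n : ℝ) * (Fn n - D * e)
      - y * (m / (2 * (δ * n)) + δ * n / 2) - m * (k * cst1 k r et + y * (k + 1) ^ 2 / n) := by
    simp only [hG, hM]
    rw [← hm]
    field_simp
  have hE : (n : ℝ) * (g / 4) ≤ y * (AV n (k + 1) ^ m) mnR 1 := by
    have h1 : (n : ℝ) * (g / 4) ≤ n * G n := mul_le_mul_of_nonneg_left hn1.le hn0.le
    have h2 : (n : ℝ) * (Fn n - D * e) ≤ y * ((AV n (k + 1) ^ m) mnR 1 + m / (2 * (δ * n))
        + δ * n / 2) + m * (k * cst1 k r et + y * (k + 1) ^ 2 / n) := by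
      simp only [hFn]
      linarith
    rw [hGn] at h1
    have h3 : y * ((AV n (k + 1) ^ m) mnR 1 + m / (2 * (δ * n)) + δ * n / 2)
        = y * (AV n (k + 1) ^ m) mnR 1 + y * (m / (2 * (δ * n)) + δ * n / 2) := by ring
    rw [h3] at h2
    linarith
  have hE2 : (n : ℝ) * (g / 4) / y ≤ (AV n (k + 1) ^ m) mnR 1 := by
    rw [div_le_iff₀ hy0]
    linarith
  have h3 := probSat_le hn2 m ((n : ℝ) * (g / 4) / y) (by positivity) hE2
  refine h3.trans (le_of_eq ?_)
  simp only [hM]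
  rw [← hm]
  field_simp
  norm_num

/-- The criterion, with monotonicity in the density. -/
theorem criterion' (k : ℕ) (α : ℝ) (hα : 0 < α) (r et : A → ℝ) (hr : ∀ a, 0 ≤ r a)
    (hr1 : ∑ a, r a = 1) (het : ∀ a, 0 ≤ et a) (het1 : ∀ a, et a < 1) (D : ℕ)
    (h : α * (k * cst1 k r et) < NN k α r et D) (β : ℝ) (hβ : α ≤ β) :
    Tendsto (fun n : ℕ => probSat (k + 1) n ⌊β * n⌋₊) atTop (𝓝 0) := by
  have h1 := criterion k α hα r et hr hr1 het het1 D h
  refine tendsto_of_tendsto_of_tendsto_of_le_of_le' tendsto_const_nhds h1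
    (Eventually.of_forall fun n => probSat_nonneg _ n _) ?_
  filter_upwards [eventually_ge_atTop (k + 1)] with n hn
  have h2 : ⌊α * (n : ℝ)⌋₊ ≤ ⌊β * (n : ℝ)⌋₊ :=
    Nat.floor_le_floor (mul_le_mul_of_nonneg_right hβ (Nat.cast_nonneg n))
  obtain ⟨d, hd⟩ := Nat.exists_eq_add_of_le h2
  rw [hd]
  exact probSat_anti hn _ d

end

end Pool.Agent.H986R2.SP
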