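import Mathlib

open Finset

namespace Pool.Agent.H986R2.SP

/-- A literal: the variable `x_i` with the truth value `b` that makes the literal true. -/
abbrev Lit (n : ℕ) := Fin n × Bool

/-- The disjunctions of `k` literals. -/
abbrev Cls (n k : ℕ) := Fin k → Lit n

/-- The `k`-clauses whose underlying variables are pairwise distinct. -/
def dist (n k : ℕ) : Finset (Cls n k) :=
  univ.filter (fun c => Function.Injective (fun j => (c j).1))

/-- The assignment `A` satisfies the clause `c`. -/
def SatC {n k : ℕ} (A : Fin n → Bool) (c : Cls n k) : Prop := ∃ j, A (c j).1 = (c j).2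

open Classical in
/-- The probability that the conjunction of `m` independent uniform random `k`-clauses on `n`
variables is satisfiable. -/
noncomputable def probSat (k n m : ℕ) : ℝ :=
  ((univ.filter (fun F : Fin m → Cls n k =>
    (∀ i, F i ∈ dist n k) ∧ ∃ A : Fin n → Bool, ∀ i, SatC A (F i))).card : ℝ)
      / ((dist n k).card : ℝ) ^ m

end Pool.Agent.H986R2.SP
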