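import Pool.Agent.H986R2.SP.Model

open Finset

namespace Pool.Agent.H986R2.SP

/-- A `k`-clause on the variables `x_0, …, x_{n-1}`: `c i = none` if `x_i` does not occur, `some b`
if it occurs with the literal that is true when `x_i = b`; exactly `k` variables occur. -/
def clauses (n k : ℕ) : Finset (Fin n → Option Bool) :=
  univ.filter (fun c => (univ.filter (fun i => c i ≠ none)).card = k)

/-- The probability that the conjunction of `m` independent uniform random `k`-clauses on `n`
variables is satisfiable (a ratio of numbers of formulas). -/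
noncomputable def prSat (k n m : ℕ) : ℝ :=
  ((univ.filter (fun F : Fin m → Fin n → Option Bool =>
    (∀ j, F j ∈ clauses n k) ∧ ∃ a : Fin n → Bool, ∀ j, ∃ i, F j i = some (a i))).card : ℝ)
  / ((univ.filter (fun F : Fin m → Fin n → Option Bool => ∀ j, F j ∈ clauses n k)).card : ℝ)

open Classical in
/-- the clause of a tuple -/
noncomputable def tc {n k : ℕ} (c : Cls n k) : Fin n → Option Bool :=
  fun i => if h : ∃ j, (c j).1 = i then some (c h.choose).2 else none

theorem tc_some {n k : ℕ} (c : Cls n k) (hc : c ∈ dist n k) (j : Fin k) :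
    tc c (c j).1 = some (c j).2 := by
  unfold tc
  have h : ∃ j', (c j').1 = (c j).1 := ⟨j, rfl⟩
  rw [dif_pos h]
  have hinj : Function.Injective (fun j => (c j).1) := by
    unfold dist at hc
    exact (mem_filter.1 hc).2
  have h2 : h.choose = j := hinj h.choose_spec
  rw [h2]

theorem tc_none {n k : ℕ} (c : Cls n k) (i : Fin n) (h : tc c i ≠ none) : ∃ j, (c j).1 = i := by
  unfold tc at h
  by_contra hcon
  rw [dif_neg hcon] at h
  exact h rfl

theorem tc_sat {n k : ℕ} (c : Cls n k) (hc : c ∈ dist n k) (A : Fin n → Bool) :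
    SatC A c ↔ ∃ i, tc c i = some (A i) := by
  constructor
  · rintro ⟨j, hj⟩
    refine ⟨(c j).1, ?_⟩
    rw [tc_some c hc j, hj]
  · rintro ⟨i, hi⟩
    obtain ⟨j, hj⟩ := tc_none c i (by rw [hi]; simp)
    refine ⟨j, ?_⟩
    have h1 := tc_some c hc j
    rw [hj, hi] at h1
    rw [hj]
    exact Option.some_injective _ h1

theorem tc_mem {n k : ℕ} (c : Cls n k) (hc : c ∈ dist n k) : tc c ∈ clauses n k := by
  classical
  unfold clauses
  rw [mem_filter]
  refine ⟨mem_univ _, ?_⟩
  have hinj : Function.Injective (fun j => (c j).1) := by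
    unfold dist at hc
    exact (mem_filter.1 hc).2
  have h1 : univ.filter (fun i => tc c i ≠ none) = univ.image (fun j => (c j).1) := by
    ext i
    simp only [mem_filter, mem_univ, true_and, mem_image]
    constructor
    · exact tc_none c i
    · rintro ⟨j, hj⟩
      rw [← hj, tc_some c hc j]
      simp
  rw [h1, card_image_of_injective _ hinj, card_univ, Fintype.card_fin]

open Classical in
/-- the tuples of a clause -/
noncomputable def fib {n : ℕ} (k : ℕ) (c' : Fin n → Option Bool) : Finset (Cls n k) :=
  univ.filter (fun c => c ∈ dist n k ∧ tc c = c')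

theorem fib_card {n k : ℕ} (c' : Fin n → Option Bool) (hc' : c' ∈ clauses n k) :
    (fib k c').card = k.factorial := by
  classical
  have hS : Fintype.card {i // c' i ≠ none} = k := by
    unfold clauses at hc'
    rw [mem_filter] at hc'
    rw [Fintype.card_subtype]
    exact hc'.2
  have h1 : Fintype.card (Fin k ≃ {i // c' i ≠ none}) = k.factorial := by
    rw [Fintype.card_equiv (Fintype.equivOfCardEq (by rw [Fintype.card_fin, hS])),
      Fintype.card_fin]
  rw [← h1, ← Finset.card_univ]
  symm
  have hget : ∀ (i : {i // c' i ≠ none}), ∃ b, c' i = some b := fun i =>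
    Option.ne_none_iff_exists'.1 i.2
  choose b hb using hget
  have hdist : ∀ g : Fin k ≃ {i // c' i ≠ none},
      (fun j => ((g j : Fin n), b (g j)) : Cls n k) ∈ dist n k := by
    intro g
    unfold dist
    rw [mem_filter]
    refine ⟨mem_univ _, fun j j' hjj => ?_⟩
    exact g.injective (Subtype.ext hjj)
  apply card_bij (fun (g : Fin k ≃ {i // c' i ≠ none}) _ =>
    (fun j => ((g j : Fin n), b (g j)) : Cls n k))
  · intro g _
    unfold fib
    rw [mem_filter]
    refine ⟨mem_univ _, hdist g, ?_⟩
    funext i
    by_cases hi : c' i = none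
    · rw [hi]
      by_contra hcon
      obtain ⟨j, hj⟩ := tc_none _ i hcon
      simp only at hj
      have := (g j).2
      rw [hj] at this
      exact this hi
    · have h2 := tc_some _ (hdist g) (g.symm ⟨i, hi⟩)
      simp only [Equiv.apply_symm_apply] at h2
      rw [h2, hb ⟨i, hi⟩]
  · intro g _ g' _ hgg
    apply Equiv.ext
    intro j
    apply Subtype.ext
    exact (Prod.ext_iff.1 (congrFun hgg j)).1
  · intro c hc
    unfold fib at hc
    rw [mem_filter] at hc
    obtain ⟨_, hcd, hct⟩ := hc
    have hinj : Function.Injective (fun j => (c j).1) := by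
      unfold dist at hcd
      exact (mem_filter.1 hcd).2
    have hval : ∀ j, c' (c j).1 = some (c j).2 := fun j => by
      rw [← hct]; exact tc_some c hcd j
    have hne : ∀ j, c' (c j).1 ≠ none := fun j => by rw [hval j]; simp
    have hbij : Function.Bijective (fun j => (⟨(c j).1, hne j⟩ : {i // c' i ≠ none})) := by
      rw [Fintype.bijective_iff_injective_and_card]
      refine ⟨fun j j' h => ?_, by rw [Fintype.card_fin, hS]⟩
      exact hinj (congrArg Subtype.val h)
    refine ⟨Equiv.ofBijective _ hbij, mem_univ _, ?_⟩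
    funext j
    apply Prod.ext
    · rfl
    · simp only [Equiv.ofBijective_apply]
      have h3 := hb ⟨(c j).1, hne j⟩
      rw [hval j] at h3
      exact (Option.some_injective _ h3).symm

theorem dist_card (n k : ℕ) : (dist n k).card = (clauses n k).card * k.factorial := by
  classical
  rw [card_eq_sum_card_fiberwise (f := tc) (t := clauses n k) (fun c hc => tc_mem c hc)]
  have h : ∀ c' ∈ clauses n k, ((dist n k).filter (fun c => tc c = c')).card = k.factorial := by
    intro c' hc'
    rw [← fib_card c' hc']
    congr 1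
    unfold fib
    ext c
    simp only [mem_filter, mem_univ, true_and]
  rw [sum_congr rfl h, sum_const, smul_eq_mul]

theorem num_card (n k m : ℕ) (Q : (Fin m → Fin n → Option Bool) → Prop) [DecidablePred Q]
    [DecidablePred fun F : Fin m → Cls n k => (∀ i, F i ∈ dist n k) ∧ Q (fun i => tc (F i))] :
    (univ.filter (fun F : Fin m → Cls n k => (∀ i, F i ∈ dist n k) ∧
      Q (fun i => tc (F i)))).card
      = (univ.filter (fun G : Fin m → Fin n → Option Bool =>
        (∀ j, G j ∈ clauses n k) ∧ Q G)).card * k.factorial ^ m := by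
  classical
  rw [card_eq_sum_card_fiberwise (f := fun F : Fin m → Cls n k => fun i => tc (F i))
    (t := univ.filter (fun G : Fin m → Fin n → Option Bool =>
        (∀ j, G j ∈ clauses n k) ∧ Q G))]
  · have h : ∀ G ∈ univ.filter (fun G : Fin m → Fin n → Option Bool =>
        (∀ j, G j ∈ clauses n k) ∧ Q G),
        ((univ.filter (fun F : Fin m → Cls n k => (∀ i, F i ∈ dist n k) ∧
          Q (fun i => tc (F i)))).filter (fun F => (fun i => tc (F i)) = G)).card
          = k.factorial ^ m := by
      intro G hG
      rw [mem_filter] at hG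
      obtain ⟨_, hG1, hG2⟩ := hG
      have e : (univ.filter (fun F : Fin m → Cls n k => (∀ i, F i ∈ dist n k) ∧
          Q (fun i => tc (F i)))).filter (fun F => (fun i => tc (F i)) = G)
          = Fintype.piFinset (fun i => fib k (G i)) := by
        ext F
        simp only [mem_filter, mem_univ, true_and, Fintype.mem_piFinset, fib]
        constructor
        · rintro ⟨⟨h1, _⟩, h3⟩ i
          exact ⟨h1 i, congrFun h3 i⟩
        · intro h1
          have h3 : (fun i => tc (F i)) = G := funext fun i => (h1 i).2
          exact ⟨⟨fun i => (h1 i).1, by rw [h3]; exact hG2⟩, h3⟩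
      rw [e, Fintype.card_piFinset]
      rw [prod_congr rfl (fun i _ => fib_card (G i) (hG1 i)), prod_const, card_univ,
        Fintype.card_fin]
    rw [sum_congr rfl h, sum_const, smul_eq_mul]
  · intro F hF
    simp only [coe_filter, mem_univ, true_and, Set.mem_ofPred_eq] at hF ⊢
    exact ⟨fun j => tc_mem _ (hF.1 j), hF.2⟩

theorem prSat_eq (k n m : ℕ) : prSat k n m = probSat k n m := by
  classical
  unfold prSat probSat
  have h1 := num_card n k m (fun G => ∃ a : Fin n → Bool, ∀ j, ∃ i, G j i = some (a i))
  have h2 : (univ.filter (fun F : Fin m → Cls n k => (∀ i, F i ∈ dist n k) ∧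
      ∃ a : Fin n → Bool, ∀ j, ∃ i, tc (F j) i = some (a i)))
      = univ.filter (fun F : Fin m → Cls n k =>
        (∀ i, F i ∈ dist n k) ∧ ∃ A : Fin n → Bool, ∀ i, SatC A (F i)) := by
    ext F
    simp only [mem_filter, mem_univ, true_and]
    constructor
    · rintro ⟨h3, a, ha⟩
      exact ⟨h3, a, fun j => (tc_sat _ (h3 j) a).2 (ha j)⟩
    · rintro ⟨h3, a, ha⟩
      exact ⟨h3, a, fun j => (tc_sat _ (h3 j) a).1 (ha j)⟩
  rw [h2] at h1
  have h3 : (univ.filter (fun F : Fin m → Fin n → Option Bool => ∀ j, F j ∈ clauses n k)).card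
      = (clauses n k).card ^ m := by
    have : univ.filter (fun F : Fin m → Fin n → Option Bool => ∀ j, F j ∈ clauses n k)
        = Fintype.piFinset (fun _ => clauses n k) := by
      ext F
      simp only [mem_filter, mem_univ, true_and, Fintype.mem_piFinset]
    rw [this, Fintype.card_piFinset, prod_const, card_univ, Fintype.card_fin]
  rw [h3, dist_card]
  have h4 : ((univ.filter (fun F : Fin m → Cls n k =>
        (∀ i, F i ∈ dist n k) ∧ ∃ A : Fin n → Bool, ∀ i, SatC A (F i))).card : ℝ)
      = ((univ.filter (fun G : Fin m → Fin n → Option Bool =>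
        (∀ j, G j ∈ clauses n k) ∧ ∃ a : Fin n → Bool, ∀ j, ∃ i, G j i = some (a i))).card : ℝ)
        * (k.factorial : ℝ) ^ m := by
    exact_mod_cast h1
  have h5 : ((k.factorial : ℕ) : ℝ) ^ m ≠ 0 := by positivity
  rw [h4]
  push_cast
  rw [mul_pow, mul_div_mul_right _ _ h5]

end Pool.Agent.H986R2.SP
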