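import Pool.Agent.H986R2.SP.Step

open Finset

namespace Pool.Agent.H986R2.SP

theorem avg_pow {M : Type*} [CommMonoid M] {ι : Type*} [Fintype ι] (w : ι → ℝ) (s : ι → M)
    (Φ : M → ℝ) (m : ℕ) (ρ : M) :
    (avg w s ^ m) Φ ρ = ∑ f : Fin m → ι, (∏ i, w (f i)) * Φ (ρ * ∏ i, s (f i)) := by
  induction m generalizing ρ with
  | zero => simp
  | succ m ih =>
    rw [pow_succ']
    show avg w s ((avg w s ^ m) Φ) ρ = _
    rw [avg_apply]
    simp only [ih]
    rw [← (Fin.consEquiv (fun _ => ι)).sum_comp, Fintype.sum_prod_type]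
    apply sum_congr rfl
    intro c _
    rw [mul_sum]
    apply sum_congr rfl
    intro f _
    simp only [Fin.consEquiv_apply]
    rw [Fin.prod_univ_succ, Fin.prod_univ_succ]
    simp only [Fin.cons_zero, Fin.cons_succ]
    rw [mul_assoc ρ]
    ring

/-- energies, written multiplicatively -/
abbrev VM (n : ℕ) := Multiplicative ((Fin n → Bool) → ℕ)

/-- clause steps on energies -/
def sV {n k : ℕ} (c : Cls n k) : VM n := Multiplicative.ofAdd (viol c)

/-- least energy -/
noncomputable def mnR {n : ℕ} (h : VM n) : ℝ := (mnn (Multiplicative.toAdd h) : ℝ)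

theorem mnR_one {n : ℕ} : mnR (1 : VM n) = 0 := by
  unfold mnR
  rw [toAdd_one, mnn_zero]
  simp

theorem mnR_mul {n k : ℕ} (h : VM n) (c : Cls n k) :
    mnR h ≤ mnR (h * sV c) ∧ mnR (h * sV c) ≤ mnR h + 1 := by
  unfold mnR
  have e : Multiplicative.toAdd (h * sV c) = Multiplicative.toAdd h + viol c := rfl
  rw [e]
  have h1 := mnn_add (viol c) (Multiplicative.toAdd h) (viol_le c)
  rcases h1 with h1 | h1
  · rw [h1]
    constructor <;> linarith
  · rw [h1]
    push_cast
    constructor <;> linarith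

theorem phi_single {n : ℕ} (e : ℝ) (H : (Fin n → Bool) → ℕ) :
    phi e (AddMonoidAlgebra.single H 1) = -Real.log e * mnn H := by
  unfold phi Zf
  rw [ev_single, one_mul, Real.log_pow]
  ring

theorem intertw {n k : ℕ} (e q : ℝ) (T : ℕ) (H : (Fin n → Bool) → ℕ) :
    (lzy q wt (sA n k) ^ T) (phi e) (AddMonoidAlgebra.single H 1)
      = -Real.log e * (lzy q (wt (n := n) (k := k)) sV ^ T) mnR (Multiplicative.ofAdd H) := by
  induction T generalizing H with
  | zero =>
    simp only [pow_zero, Module.End.one_apply]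
    exact phi_single e H
  | succ T ih =>
    rw [pow_succ', pow_succ']
    show lzy q wt (sA n k) ((lzy q wt (sA n k) ^ T) (phi e)) (AddMonoidAlgebra.single H 1)
      = -Real.log e * lzy q (wt (n := n) (k := k)) sV
        ((lzy q (wt (n := n) (k := k)) sV ^ T) mnR) (Multiplicative.ofAdd H)
    rw [lzy_apply, lzy_apply, avg_apply, avg_apply, ih H]
    have h1 : ∀ c : Cls n k, AddMonoidAlgebra.single H 1 * sA n k c
        = AddMonoidAlgebra.single (H + viol c) 1 := by
      intro c
      unfold sA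
      rw [AddMonoidAlgebra.single_mul_single, one_mul]
    simp only [h1, ih]
    have h2 : ∀ c : Cls n k, Multiplicative.ofAdd (H + viol c)
        = Multiplicative.ofAdd H * sV c := fun c => rfl
    simp only [h2]
    have h3 : ∀ Y : Cls n k → ℝ, ∑ c : Cls n k, wt c * (-Real.log e * Y c)
        = -Real.log e * ∑ c : Cls n k, wt c * Y c := by
      intro Y
      rw [mul_sum]
      exact sum_congr rfl fun c _ => by ring
    rw [h3]
    ring

/-- adding a random clause -/
noncomputable def AV (n k : ℕ) : Module.End ℝ (VM n → ℝ) := avg (wt (n := n) (k := k)) sV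

theorem AV_mono {n k : ℕ} {Φ Ψ : VM n → ℝ} (h : ∀ ρ, Φ ρ ≤ Ψ ρ) (m : ℕ) (ρ : VM n) :
    (AV n k ^ m) Φ ρ ≤ (AV n k ^ m) Ψ ρ := by
  unfold AV
  rw [avg_pow, avg_pow]
  exact sum_le_sum fun f _ => mul_le_mul_of_nonneg_left (h _)
    (prod_nonneg fun i _ => wt_nonneg _)

theorem AV_add_const {n k : ℕ} (hn : k ≤ n) (Φ : VM n → ℝ) (c : ℝ) (m : ℕ) (ρ : VM n) :
    (AV n k ^ m) (fun ρ => Φ ρ + c) ρ = (AV n k ^ m) Φ ρ + c := by
  unfold AV
  rw [avg_pow, avg_pow]
  simp only [mul_add, sum_add_distrib]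
  congr 1
  rw [← sum_mul, ← Fintype.sum_pow, wt_sum n k hn, one_pow, one_mul]

theorem AV_mn {n k : ℕ} (hn : k ≤ n) (m : ℕ) (ρ : VM n) :
    (AV n k ^ m) mnR ρ ≤ (AV n k ^ (m + 1)) mnR ρ ∧
      (AV n k ^ (m + 1)) mnR ρ ≤ (AV n k ^ m) mnR ρ + 1 := by
  have e : (AV n k ^ (m + 1)) mnR ρ = (AV n k ^ m) (AV n k mnR) ρ := by rw [pow_succ]; rfl
  rw [e]
  have hs := wt_sum n k hn
  constructor
  · apply AV_mono
    intro h
    unfold AV
    rw [avg_apply]
    calc mnR h = ∑ c : Cls n k, wt c * mnR h := by rw [← sum_mul, hs, one_mul]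
      _ ≤ _ := sum_le_sum fun c _ => mul_le_mul_of_nonneg_left (mnR_mul h c).1 (wt_nonneg c)
  · rw [← AV_add_const hn]
    apply AV_mono
    intro h
    unfold AV
    rw [avg_apply]
    calc ∑ c : Cls n k, wt c * mnR (h * sV c) ≤ ∑ c : Cls n k, wt c * (mnR h + 1) :=
          sum_le_sum fun c _ => mul_le_mul_of_nonneg_left (mnR_mul h c).2 (wt_nonneg c)
      _ = mnR h + 1 := by rw [← sum_mul, hs, one_mul]

theorem psi_lip (ψ : ℕ → ℝ) (h : ∀ m, ψ m ≤ ψ (m + 1) ∧ ψ (m + 1) ≤ ψ m + 1) (i j : ℕ) :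
    ψ i ≤ ψ j + |(i : ℝ) - j| := by
  have h1 : ∀ a d : ℕ, ψ a ≤ ψ (a + d) ∧ ψ (a + d) ≤ ψ a + d := by
    intro a d
    induction d with
    | zero => simp
    | succ d ih =>
      have h2 := h (a + d)
      rw [← add_assoc]
      push_cast
      constructor <;> linarith
  rcases le_total i j with hij | hij
  · obtain ⟨d, rfl⟩ := Nat.exists_eq_add_of_le hij
    have := (h1 i d).1
    have h3 := abs_nonneg ((i : ℝ) - (i + d : ℕ))
    linarith
  · obtain ⟨d, rfl⟩ := Nat.exists_eq_add_of_le hij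
    have h2 := (h1 j d).2
    push_cast
    rw [add_sub_cancel_left, abs_of_nonneg (Nat.cast_nonneg d)]
    exact h2

theorem binom_sum (T : ℕ) (x : ℝ) :
    ∑ j ∈ range (T + 1), (T.choose j : ℝ) * x ^ j * (1 - x) ^ (T - j) = 1 := by
  have h := add_pow x (1 - x) T
  have e : x + (1 - x) = 1 := by ring
  rw [e, one_pow] at h
  refine Eq.trans (sum_congr rfl fun j _ => ?_) h.symm
  ring

theorem binom_var (T : ℕ) (x : ℝ) :
    ∑ j ∈ range (T + 1), (T.choose j : ℝ) * x ^ j * (1 - x) ^ (T - j) * ((j : ℝ) - T * x) ^ 2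
      = T * x * (1 - x) := by
  have h := congrArg (fun P : Polynomial ℝ => P.eval x) (bernsteinPolynomial.variance ℝ T)
  simp only [Polynomial.eval_finsetSum, Polynomial.eval_mul, Polynomial.eval_pow,
    Polynomial.eval_sub, Polynomial.eval_X, Polynomial.eval_one,
    Polynomial.eval_natCast, bernsteinPolynomial, nsmul_eq_mul] at h
  rw [← h]
  apply sum_congr rfl
  intro j _
  ring

theorem binom_term {M : Type*} [CommMonoid M] (Q : Module.End ℝ (M → ℝ)) (a b : ℝ) (m k c : ℕ)
    (Φ : M → ℝ) (x : M) :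
    ((a • Q) ^ m * (b • (1 : Module.End ℝ (M → ℝ))) ^ k * (c : Module.End ℝ (M → ℝ))) Φ x
      = c * a ^ m * b ^ k * (Q ^ m) Φ x := by
  have hc : (c : Module.End ℝ (M → ℝ)) = (c : ℝ) • (1 : Module.End ℝ (M → ℝ)) := by
    apply LinearMap.ext
    intro Ψ
    rw [Module.End.natCast_apply, LinearMap.smul_apply, Module.End.one_apply,
      Nat.cast_smul_eq_nsmul]
  rw [smul_pow, smul_pow, one_pow, hc]
  simp only [Module.End.mul_apply, LinearMap.smul_apply, Module.End.one_apply, Pi.smul_apply,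
    smul_eq_mul, map_smul]
  ring

/-- Comparison of the lazy chain with exactly `m` clauses. -/
theorem lazy_le {n k : ℕ} (hk : 1 ≤ k) (hn : k ≤ n) (m : ℕ) (a : ℝ) (ha : 0 < a) :
    (lzy (1 / (k : ℝ)) (wt (n := n) (k := k)) sV ^ (k * m)) mnR 1
      ≤ (AV n k ^ m) mnR 1 + m / (2 * a) + a / 2 := by
  have hk0 : (0 : ℝ) < k := by exact_mod_cast hk
  have e0 : lzy (1 / (k : ℝ)) (wt (n := n) (k := k)) sV
      = (1 / (k : ℝ)) • AV n k + (1 - 1 / (k : ℝ)) • (1 : Module.End ℝ (VM n → ℝ)) := by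
    unfold lzy AV
    rw [add_comm]
  rw [e0]
  have hcomm : Commute ((1 / (k : ℝ)) • AV n k)
      ((1 - 1 / (k : ℝ)) • (1 : Module.End ℝ (VM n → ℝ))) :=
    (Commute.one_right _).smul_right _
  rw [hcomm.add_pow, LinearMap.sum_apply, Finset.sum_apply]
  simp only [binom_term]
  set ψ : ℕ → ℝ := fun j => (AV n k ^ j) mnR 1 with hψ
  have hlip := psi_lip ψ (fun m => AV_mn hn m 1)
  have hq0 : (0 : ℝ) ≤ 1 / k := by positivity
  have hq1 : (1 : ℝ) / k ≤ 1 := by
    rw [div_le_one hk0]; exact_mod_cast hk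
  set W : ℕ → ℝ := fun j => ((k * m).choose j : ℝ) * (1 / (k : ℝ)) ^ j
    * (1 - 1 / (k : ℝ)) ^ (k * m - j) with hW
  have hW0 : ∀ j, 0 ≤ W j := fun j => by
    have : 0 ≤ 1 - 1 / (k : ℝ) := by linarith
    rw [hW]; positivity
  have hs1 : ∑ j ∈ range (k * m + 1), W j = 1 := binom_sum (k * m) (1 / k)
  have hs2 : ∑ j ∈ range (k * m + 1), W j * ((j : ℝ) - m) ^ 2 ≤ m := by
    have := binom_var (k * m) (1 / k)
    push_cast at this
    have e : ((k : ℝ) * m) * (1 / k) = m := by field_simp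
    rw [e] at this
    rw [hW, this]
    have hm : (0 : ℝ) ≤ m := Nat.cast_nonneg m
    nlinarith
  calc ∑ j ∈ range (k * m + 1), ((k * m).choose j : ℝ) * (1 / (k : ℝ)) ^ j
        * (1 - 1 / (k : ℝ)) ^ (k * m - j) * (AV n k ^ j) mnR 1
      ≤ ∑ j ∈ range (k * m + 1), W j * (ψ m + (((j : ℝ) - m) ^ 2 / (2 * a) + a / 2)) := by
        apply sum_le_sum
        intro j _
        apply mul_le_mul_of_nonneg_left _ (hW0 j)
        refine (hlip j m).trans ?_
        have h5 : |(j : ℝ) - m| ≤ ((j : ℝ) - m) ^ 2 / (2 * a) + a / 2 := by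
          have h6 : 0 ≤ (|(j : ℝ) - m| - a) ^ 2 := sq_nonneg _
          have h7 : |(j : ℝ) - m| ^ 2 = ((j : ℝ) - m) ^ 2 := sq_abs _
          have h8 : ((j : ℝ) - m) ^ 2 / (2 * a) + a / 2
              = (((j : ℝ) - m) ^ 2 + a ^ 2) / (2 * a) := by field_simp
          rw [h8, le_div_iff₀ (by positivity), ← h7]
          nlinarith
        linarith
    _ = ψ m * ∑ j ∈ range (k * m + 1), W j
        + (∑ j ∈ range (k * m + 1), W j * ((j : ℝ) - m) ^ 2) / (2 * a)
        + a / 2 * ∑ j ∈ range (k * m + 1), W j := by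
        rw [mul_sum, mul_sum, sum_div, ← sum_add_distrib, ← sum_add_distrib]
        apply sum_congr rfl
        intro j _
        ring
    _ ≤ _ := by
        rw [hs1]
        have h9 : (∑ j ∈ range (k * m + 1), W j * ((j : ℝ) - m) ^ 2) / (2 * a)
            ≤ m / (2 * a) := div_le_div_of_nonneg_right hs2 (by positivity)
        simp only [hψ]
        linarith

theorem sat_iff {n k : ℕ} {m : ℕ} (f : Fin m → Cls n k) :
    (∃ A : Fin n → Bool, ∀ i, SatC A (f i)) ↔
      ∃ A : Fin n → Bool, (Multiplicative.toAdd ((1 : VM n) * ∏ i, sV (f i))) A = 0 := by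
  apply exists_congr
  intro A
  rw [one_mul, toAdd_prod]
  have e : (∑ i, Multiplicative.toAdd (sV (f i))) A = ∑ i, viol (f i) A := by
    rw [Finset.sum_apply]; rfl
  rw [e, sum_eq_zero_iff]
  constructor
  · intro h i _
    exact (viol_eq_zero _ _).2 (h i)
  · intro h i
    exact (viol_eq_zero _ _).1 (h i (mem_univ i))

open Classical in
/-- indicator of satisfiability -/
noncomputable def isat {n : ℕ} (h : VM n) : ℝ :=
  if ∃ A : Fin n → Bool, (Multiplicative.toAdd h) A = 0 then 1 else 0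

theorem probSat_eq {n k : ℕ} (m : ℕ) :
    probSat k n m = (AV n k ^ m) isat 1 := by
  classical
  unfold AV
  rw [avg_pow]
  unfold probSat
  rw [card_filter]
  push_cast
  rw [sum_div]
  refine sum_congr rfl fun f _ => ?_
  unfold isat
  simp only [← sat_iff]
  by_cases h1 : ∀ i, f i ∈ dist n k
  · have h2 : ∏ i, wt (f i) = 1 / ((dist n k).card : ℝ) ^ m := by
      unfold wt
      simp only [h1, if_true, prod_const, card_univ, Fintype.card_fin]
      rw [one_div_pow]
    rw [h2]
    by_cases h3 : ∃ A : Fin n → Bool, ∀ i, SatC A (f i)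
    · rw [if_pos ⟨h1, h3⟩, if_pos h3]; ring
    · rw [if_neg (fun h => h3 h.2), if_neg h3]; ring
  · rw [if_neg (fun h => h1 h.1)]
    push Not at h1
    obtain ⟨i, hi⟩ := h1
    have h2 : ∏ i, wt (f i) = 0 := by
      apply prod_eq_zero (mem_univ i)
      unfold wt
      rw [if_neg hi]
    rw [h2]; simp

theorem probSat_nonneg (k n m : ℕ) : 0 ≤ probSat k n m := by unfold probSat; positivity

theorem isat_mul {n k : ℕ} (h : VM n) (c : Cls n k) : isat (h * sV c) ≤ isat h := by
  classical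
  unfold isat
  by_cases h1 : ∃ A : Fin n → Bool, (Multiplicative.toAdd (h * sV c)) A = 0
  · rw [if_pos h1, if_pos]
    obtain ⟨A, hA⟩ := h1
    have e : (Multiplicative.toAdd (h * sV c)) A = (Multiplicative.toAdd h) A + viol c A := rfl
    rw [e] at hA
    exact ⟨A, by omega⟩
  · rw [if_neg h1]
    split_ifs <;> norm_num

theorem probSat_anti {k n : ℕ} (hn : k ≤ n) (m d : ℕ) : probSat k n (m + d) ≤ probSat k n m := by
  induction d with
  | zero => simp
  | succ d ih =>
    refine le_trans ?_ ih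
    rw [probSat_eq, probSat_eq, ← add_assoc]
    have e : (AV n k ^ (m + d + 1)) isat 1 = (AV n k ^ (m + d)) (AV n k isat) 1 := by
      rw [pow_succ]; rfl
    rw [e]
    apply AV_mono
    intro h
    unfold AV
    rw [avg_apply]
    calc ∑ c : Cls n k, wt c * isat (h * sV c) ≤ ∑ c : Cls n k, wt c * isat h :=
          sum_le_sum fun c _ => mul_le_mul_of_nonneg_left (isat_mul h c) (wt_nonneg c)
      _ = isat h := by rw [← sum_mul, wt_sum n k hn, one_mul]

/-- Variance bound. -/
theorem var_le {n k : ℕ} (hn : k ≤ n) (m : ℕ) (H : VM n) :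
    (AV n k ^ m) (fun h => mnR h ^ 2) H ≤ ((AV n k ^ m) mnR H) ^ 2 + m := by
  induction m generalizing H with
  | zero => simp
  | succ m ih =>
    rw [pow_succ']
    show AV n k ((AV n k ^ m) (fun h => mnR h ^ 2)) H ≤ (AV n k ((AV n k ^ m) mnR) H) ^ 2 + _
    set g := (AV n k ^ m) mnR with hg
    have hw : ∀ c : Cls n k, 0 ≤ wt c := fun c => wt_nonneg c
    have hs := wt_sum n k hn
    have hAV : ∀ Φ : VM n → ℝ, AV n k Φ H = ∑ c : Cls n k, wt c * Φ (H * sV c) := by
      intro Φ
      unfold AV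
      rw [avg_apply]
    rw [hAV, hAV]
    have hlow : ∀ c : Cls n k, g H ≤ g (H * sV c) := by
      intro c
      have e1 : g (H * sV c) = (AV n k ^ m) (fun h => mnR (h * sV c)) H := by
        rw [hg]
        unfold AV
        rw [avg_pow, avg_pow]
        apply sum_congr rfl
        intro f _
        rw [mul_right_comm]
      rw [e1, hg]
      apply AV_mono
      intro h
      exact (mnR_mul h c).1
    have hup : ∀ c : Cls n k, g (H * sV c) ≤ g H + 1 := by
      intro c
      have e1 : g (H * sV c) = (AV n k ^ m) (fun h => mnR (h * sV c)) H := by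
        rw [hg]
        unfold AV
        rw [avg_pow, avg_pow]
        apply sum_congr rfl
        intro f _
        rw [mul_right_comm]
      rw [e1, hg, ← AV_add_const hn]
      apply AV_mono
      intro h
      exact (mnR_mul h c).2
    calc ∑ c : Cls n k, wt c * (AV n k ^ m) (fun h => mnR h ^ 2) (H * sV c)
        ≤ ∑ c : Cls n k, wt c * (g (H * sV c) ^ 2 + m) :=
          sum_le_sum (fun c _ => mul_le_mul_of_nonneg_left (ih _) (hw c))
      _ = ∑ c : Cls n k, wt c * g (H * sV c) ^ 2 + m := by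
          simp only [mul_add, sum_add_distrib, ← sum_mul, hs, one_mul]
      _ ≤ (∑ c : Cls n k, wt c * g (H * sV c)) ^ 2 + 1 + m := by
          have h1 : ∑ c : Cls n k, wt c * g (H * sV c) ^ 2
              ≤ (∑ c : Cls n k, wt c * g (H * sV c)) ^ 2 + 1 := by
            set M := ∑ c : Cls n k, wt c * g (H * sV c) with hM
            have h2 : ∑ c : Cls n k, wt c * (g (H * sV c) - g H) ^ 2 ≤ 1 := by
              calc ∑ c : Cls n k, wt c * (g (H * sV c) - g H) ^ 2 ≤ ∑ c : Cls n k, wt c * 1 := by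
                    apply sum_le_sum
                    intro c _
                    apply mul_le_mul_of_nonneg_left _ (hw c)
                    have := hlow c
                    have := hup c
                    nlinarith
                _ = 1 := by rw [← sum_mul, hs, one_mul]
            have h3 : ∑ c : Cls n k, wt c * (g (H * sV c) - g H) ^ 2
                = ∑ c : Cls n k, wt c * g (H * sV c) ^ 2 - 2 * g H * M + g H ^ 2 := by
              have e : ∀ c : Cls n k, wt c * (g (H * sV c) - g H) ^ 2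
                  = wt c * g (H * sV c) ^ 2 - 2 * g H * (wt c * g (H * sV c))
                    + g H ^ 2 * wt c := fun c => by ring
              simp only [e, sum_add_distrib, sum_sub_distrib, ← mul_sum, hs, ← hM]
              ring
            rw [h3] at h2
            nlinarith [sq_nonneg (M - g H)]
          linarith
      _ = _ := by push_cast; ring

/-- Chebyshev bound for the probability of satisfiability. -/
theorem probSat_le {n k : ℕ} (hn : k ≤ n) (m : ℕ) (e : ℝ)
    (he : 0 < e) (hE : e ≤ (AV n k ^ m) mnR 1) : probSat k n m ≤ m / e ^ 2 := by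
  rw [probSat_eq]
  set E := (AV n k ^ m) mnR 1 with hEdef
  have hE0 : 0 < E := lt_of_lt_of_le he hE
  have h1 : (AV n k ^ m) (fun h => E ^ 2 * isat h) 1
      ≤ (AV n k ^ m) (fun h => (mnR h - E) ^ 2) 1 := by
    apply AV_mono
    intro h
    unfold isat
    split_ifs with h2
    · obtain ⟨A, hA⟩ := h2
      have h3 : mnR h = 0 := by
        unfold mnR
        have := mnn_le (Multiplicative.toAdd h) A
        rw [hA] at this
        have h4 : mnn (Multiplicative.toAdd h) = 0 := by omega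
        rw [h4]; simp
      rw [h3]
      nlinarith
    · rw [mul_zero]; exact sq_nonneg _
  have h2 : (AV n k ^ m) (fun h => E ^ 2 * isat h) 1 = E ^ 2 * (AV n k ^ m) isat 1 := by
    unfold AV
    rw [avg_pow, avg_pow, mul_sum]
    apply sum_congr rfl
    intro f _
    ring
  have h3 : (AV n k ^ m) (fun h => (mnR h - E) ^ 2) 1
      = (AV n k ^ m) (fun h => mnR h ^ 2) 1 - E ^ 2 := by
    have hs1 : ∑ f : Fin m → Cls n k, ∏ i, wt (f i) = 1 := by
      rw [← Fintype.sum_pow, wt_sum n k hn, one_pow]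
    have hEs : ∑ f : Fin m → Cls n k, (∏ i, wt (f i)) * mnR (1 * ∏ i, sV (f i)) = E := by
      rw [hEdef]
      unfold AV
      rw [avg_pow]
    unfold AV
    rw [avg_pow, avg_pow]
    have e : ∀ f : Fin m → Cls n k, (∏ i, wt (f i)) * (mnR (1 * ∏ i, sV (f i)) - E) ^ 2
        = (∏ i, wt (f i)) * mnR (1 * ∏ i, sV (f i)) ^ 2
          - 2 * E * ((∏ i, wt (f i)) * mnR (1 * ∏ i, sV (f i)))
          + E ^ 2 * (∏ i, wt (f i)) := fun f => by ring
    simp only [e, sum_add_distrib, sum_sub_distrib, ← mul_sum, hs1, hEs]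
    ring
  have h4 := var_le hn m 1
  rw [← hEdef] at h4
  rw [h2, h3] at h1
  have h5 : E ^ 2 * (AV n k ^ m) isat 1 ≤ m := by linarith
  have h6 : (AV n k ^ m) isat 1 ≤ m / E ^ 2 := by
    rw [le_div_iff₀ (by positivity)]
    linarith
  refine h6.trans ?_
  gcongr

end Pool.Agent.H986R2.SP
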