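import Pool.Agent.H986R2.SP.Num

open Finset

namespace Pool.Agent.H986R2.SP

/-- truncation error of the exponential sums -/
def dl (N : ℕ) : ℚ := (N + 1) / (N.factorial * N)

theorem exp_horN (N : ℕ) (hN : 0 < N) (z : ℚ) (h0 : 0 ≤ z) (h1 : z ≤ 1) :
    (hor (-z) 0 N : ℝ) - dl N ≤ Real.exp (-z) ∧
      Real.exp (-z) ≤ (hor (-z) 0 N : ℝ) + dl N := by
  have hz : |(-(z : ℝ))| ≤ 1 := by
    rw [abs_neg, abs_of_nonneg (by exact_mod_cast h0)]
    exact_mod_cast h1
  have h2 := Real.exp_bound hz hN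
  have h3 : |(-(z : ℝ))| ^ N * ((Nat.succ N : ℕ) / ((Nat.factorial N : ℕ) * (N : ℕ) : ℝ))
      ≤ dl N := by
    have h4 : |(-(z : ℝ))| ^ N ≤ 1 := pow_le_one₀ (abs_nonneg _) hz
    have h6 : (0 : ℝ) ≤ ((Nat.succ N : ℕ) / ((Nat.factorial N : ℕ) * (N : ℕ) : ℝ)) := by
      positivity
    calc _ ≤ 1 * ((Nat.succ N : ℕ) / ((Nat.factorial N : ℕ) * (N : ℕ) : ℝ)) :=
          mul_le_mul_of_nonneg_right h4 h6
      _ = _ := by rw [one_mul]; unfold dl; push_cast; rfl
  have h4 := h2.trans h3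
  rw [hor_zero]
  push_cast
  rw [abs_le] at h4
  constructor <;> linarith [h4.1, h4.2]

/-- rounding down -/
def rdn (Q : ℕ) (x : ℚ) : ℚ := (⌊x * 10 ^ Q⌋ : ℤ) / 10 ^ Q

theorem rdn_le (Q : ℕ) (x : ℚ) : rdn Q x ≤ x := by
  unfold rdn
  rw [div_le_iff₀ (by positivity)]
  exact Int.floor_le _

theorem le_rdn (Q : ℕ) (x : ℚ) : x ≤ rdn Q x + 1 / 10 ^ Q := by
  unfold rdn
  rw [← add_div, le_div_iff₀ (by positivity)]
  exact (Int.lt_floor_add_one (x * 10 ^ Q)).le

/-- check of an enclosure of `exp (-x)` -/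
def chkN (N P Q : ℕ) (x : ℚ) (c : ℤ) : Bool :=
  let y : ℚ := rdn Q x
  let lo : ℚ := rdn Q (hor (-((y + 1 / 10 ^ Q) / 64)) 0 N - dl N)
  let hi : ℚ := rdn Q (hor (-(y / 64)) 0 N + dl N) + 1 / 10 ^ Q
  decide (0 ≤ y) && (decide (y + 1 / 10 ^ Q ≤ 64) && (decide (0 ≤ lo) &&
    (decide ((c : ℚ) / 10 ^ P ≤ lo ^ 64) && decide (hi ^ 64 ≤ ((c : ℚ) + 2) / 10 ^ P))))

theorem chkN_sound (N P Q : ℕ) (hN : 0 < N) (x : ℚ) (c : ℤ) (h : chkN N P Q x c = true) :
    (c : ℝ) / 10 ^ P ≤ Real.exp (-x) ∧ Real.exp (-x) ≤ ((c : ℝ) + 2) / 10 ^ P := by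
  unfold chkN at h
  simp only [Bool.and_eq_true, decide_eq_true_eq] at h
  have hyx := rdn_le Q x
  have hxy := le_rdn Q x
  set y : ℚ := rdn Q x with hy
  obtain ⟨h0, h8, hlo0, hlo, hhi⟩ := h
  have hQ : (0 : ℚ) ≤ 1 / 10 ^ Q := by positivity
  have hyx' : (y : ℝ) ≤ x := by exact_mod_cast hyx
  have hxy' : (x : ℝ) ≤ y + 1 / 10 ^ Q := by
    have : ((x : ℚ) : ℝ) ≤ ((y + 1 / 10 ^ Q : ℚ) : ℝ) := by exact_mod_cast hxy
    push_cast at this
    exact this
  constructor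
  · have h1 := (exp_horN N hN ((y + 1 / 10 ^ Q) / 64) (by positivity) (by
      rw [div_le_one (by norm_num)]; exact h8)).1
    have h2 := rdn_le Q (hor (-((y + 1 / 10 ^ Q) / 64)) 0 N - dl N)
    set lo : ℚ := rdn Q (hor (-((y + 1 / 10 ^ Q) / 64)) 0 N - dl N) with hlod
    have h2' : (lo : ℝ) ≤ (hor (-((y + 1 / 10 ^ Q) / 64)) 0 N : ℝ) - dl N := by
      have : ((lo : ℚ) : ℝ) ≤ ((hor (-((y + 1 / 10 ^ Q) / 64)) 0 N - dl N : ℚ) : ℝ) := by
        exact_mod_cast h2
      push_cast at this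
      exact this
    have h2'' : (0 : ℝ) ≤ lo := by exact_mod_cast hlo0
    have h3 := pow_le_pow_left₀ h2'' (h2'.trans h1) 64
    have h4 : Real.exp (-(((y + 1 / 10 ^ Q) / 64 : ℚ) : ℝ)) ^ 64
        = Real.exp (-(y + 1 / 10 ^ Q)) := by
      rw [← Real.exp_nat_mul]
      congr 1
      push_cast
      ring
    rw [h4] at h3
    have h5 : (c : ℝ) / 10 ^ P ≤ (lo : ℝ) ^ 64 := by
      have : (((c : ℚ) / 10 ^ P : ℚ) : ℝ) ≤ ((lo ^ 64 : ℚ) : ℝ) := by
        exact_mod_cast hlo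
      push_cast at this
      exact this
    exact (h5.trans h3).trans (Real.exp_le_exp.2 (by linarith))
  · have hy8 : y ≤ 64 := by linarith
    have h1 := (exp_horN N hN (y / 64) (by positivity) (by
      rw [div_le_one (by norm_num)]; exact hy8)).2
    have h2 := le_rdn Q (hor (-(y / 64)) 0 N + dl N)
    set hi : ℚ := rdn Q (hor (-(y / 64)) 0 N + dl N) + 1 / 10 ^ Q with hhid
    have h2' : (hor (-(y / 64)) 0 N : ℝ) + dl N ≤ hi := by
      have : ((hor (-(y / 64)) 0 N + dl N : ℚ) : ℝ) ≤ ((hi : ℚ) : ℝ) := by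
        exact_mod_cast h2
      push_cast at this
      exact this
    have h3 := pow_le_pow_left₀ (Real.exp_pos _).le (h1.trans h2') 64
    have h4 : Real.exp (-((y / 64 : ℚ) : ℝ)) ^ 64 = Real.exp (-y) := by
      rw [← Real.exp_nat_mul]
      congr 1
      push_cast
      ring
    rw [h4] at h3
    have h5 : (hi : ℝ) ^ 64 ≤ ((c : ℝ) + 2) / 10 ^ P := by
      have : ((hi ^ 64 : ℚ) : ℝ) ≤ ((((c : ℚ) + 2) / 10 ^ P : ℚ) : ℝ) := by
        exact_mod_cast hhi
      push_cast at this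
      exact this
    exact (Real.exp_le_exp.2 (by linarith)).trans (h3.trans h5)

/-- enclosures -/
def EncP (P : ℕ) (E : ℕ → ℝ) (M : ℕ) (w : ℤ) (L : List ℤ) (i : ℕ) : Prop :=
  ∀ j (h : j < L.length), (L[j] : ℝ) / 10 ^ P ≤ dif E M (i + j) ∧
    dif E M (i + j) ≤ ((L[j] : ℝ) + w) / 10 ^ P

theorem encP_nxt (P : ℕ) (E : ℕ → ℝ) (M : ℕ) (w : ℤ) (L : List ℤ) (i : ℕ)
    (h : EncP P E M w L i) : EncP P E (M + 1) (2 * w) (nxt w L) i := by
  induction L generalizing i with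
  | nil => intro j hj; simp [nxt] at hj
  | cons a t ih =>
    cases t with
    | nil => intro j hj; simp [nxt] at hj
    | cons b t =>
      have h2 : EncP P E M w (b :: t) (i + 1) := by
        intro j hj
        have := h (j + 1) (by simp at hj ⊢; omega)
        simp only [List.getElem_cons_succ] at this
        rw [show i + 1 + j = i + (j + 1) by ring]
        exact this
      intro j hj
      cases j with
      | zero =>
        simp only [nxt, List.getElem_cons_zero, add_zero]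
        have h3 := h 0 (by simp)
        have h4 := h 1 (by simp)
        simp only [List.getElem_cons_zero, List.getElem_cons_succ, add_zero] at h3 h4
        rw [dif]
        push_cast
        constructor
        · calc ((a : ℝ) - b - w) / 10 ^ P = (a : ℝ) / 10 ^ P - ((b : ℝ) + w) / 10 ^ P := by ring
            _ ≤ _ := sub_le_sub h3.1 h4.2
        · calc dif E M i - dif E M (i + 1) ≤ ((a : ℝ) + w) / 10 ^ P - (b : ℝ) / 10 ^ P :=
                sub_le_sub h3.2 h4.1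
            _ = _ := by ring
      | succ j =>
        have h3 := ih (i + 1) h2 j (by simpa [nxt] using hj)
        simp only [nxt, List.getElem_cons_succ]
        rw [show i + (j + 1) = i + 1 + j by ring]
        exact h3

/-- tail-recursive scheme: sum of the squares of the heads -/
def totz (S : ℕ) : ℕ → ℕ → ℤ → List ℤ → ℤ → ℤ
  | 0, _, _, _, acc => acc
  | f + 1, M, w, L, acc =>
    totz S f (M + 1) (2 * w) (nxt w L)
      (acc + (max 0 ((nxt w L).headD 0)) ^ 2 / ((M : ℤ) + 1) / 10 ^ S)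

theorem totz_le (P S : ℕ) (E : ℕ → ℝ) (f M : ℕ) (w : ℤ) (L : List ℤ) (acc : ℤ)
    (h : EncP P E M w L 0) :
    (totz S f M w L acc : ℝ) ≤ acc + 10 ^ (2 * P) / 10 ^ S *
      ∑ m ∈ range f, dif E (M + m + 1) 0 ^ 2 / ((M : ℝ) + m + 1) := by
  induction f generalizing M w L acc with
  | zero => simp [totz]
  | succ f ih =>
    have h1 := encP_nxt P E M w L 0 h
    rw [totz]
    refine (ih (M + 1) (2 * w) (nxt w L) _ h1).trans ?_
    rw [sum_range_succ', mul_add]
    have e1 : ∑ m ∈ range f, dif E (M + 1 + m + 1) 0 ^ 2 / (((M + 1 : ℕ) : ℝ) + m + 1)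
        = ∑ m ∈ range f, dif E (M + (m + 1) + 1) 0 ^ 2 / ((M : ℝ) + ((m + 1 : ℕ) : ℝ) + 1) := by
      refine sum_congr rfl fun m _ => ?_
      rw [show M + 1 + m + 1 = M + (m + 1) + 1 by ring]
      push_cast
      congr 1
      ring
    rw [e1]
    have h3 : ((max 0 ((nxt w L).headD 0) : ℤ) : ℝ) ^ 2 ≤ 10 ^ (2 * P) * dif E (M + 1) 0 ^ 2 := by
      cases hL : nxt w L with
      | nil =>
        simp only [List.headD_nil, max_self, Int.cast_zero]
        rw [zero_pow (by norm_num)]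
        positivity
      | cons a t =>
        simp only [List.headD_cons]
        rcases le_total a 0 with ha | ha
        · rw [max_eq_left ha]
          simp only [Int.cast_zero]
          rw [zero_pow (by norm_num)]
          positivity
        · rw [max_eq_right ha]
          have h4 := (h1 0 (by rw [hL]; simp)).1
          simp only [hL, List.getElem_cons_zero, add_zero] at h4
          have h5 : (0 : ℝ) ≤ (a : ℝ) := by exact_mod_cast ha
          have h6 : (a : ℝ) ≤ 10 ^ P * dif E (M + 1) 0 := by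
            rw [div_le_iff₀ (by positivity)] at h4
            linarith
          calc (a : ℝ) ^ 2 ≤ (10 ^ P * dif E (M + 1) 0) ^ 2 := pow_le_pow_left₀ h5 h6 2
            _ = _ := by rw [mul_pow, ← pow_mul, mul_comm P 2]
    have h4 : (0 : ℝ) < (M : ℝ) + 1 := by positivity
    have h5 : (((max 0 ((nxt w L).headD 0)) ^ 2 / ((M : ℤ) + 1) / 10 ^ S : ℤ) : ℝ)
        ≤ 10 ^ (2 * P) / 10 ^ S * (dif E (M + 0 + 1) 0 ^ 2 / ((M : ℝ) + ((0 : ℕ) : ℝ) + 1)) := by
      have e2 : ∀ a b : ℤ, 0 < b → ((a / b : ℤ) : ℝ) ≤ (a : ℝ) / b := by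
        intro a b hb
        have hb' : (0 : ℝ) < b := by exact_mod_cast hb
        rw [le_div_iff₀ hb']
        exact_mod_cast Int.ediv_mul_le a hb.ne'
      have e3 := e2 ((max 0 ((nxt w L).headD 0)) ^ 2 / ((M : ℤ) + 1)) (10 ^ S) (by positivity)
      have e4 := e2 ((max 0 ((nxt w L).headD 0)) ^ 2) ((M : ℤ) + 1) (by positivity)
      refine e3.trans ?_
      have e5 : (0 : ℝ) < 10 ^ S := by positivity
      push_cast at e4 h3 ⊢
      calc (((max 0 ((nxt w L).headD 0) ^ 2 / ((M : ℤ) + 1) : ℤ)) : ℝ) / 10 ^ S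
          ≤ (max 0 ((nxt w L).headD 0 : ℝ) ^ 2 / ((M : ℝ) + 1)) / 10 ^ S :=
            div_le_div_of_nonneg_right e4 e5.le
        _ ≤ (10 ^ (2 * P) * dif E (M + 1) 0 ^ 2 / ((M : ℝ) + 1)) / 10 ^ S :=
            div_le_div_of_nonneg_right (div_le_div_of_nonneg_right h3 h4.le) e5.le
        _ = _ := by
            rw [add_zero, add_zero]
            ring
    push_cast at h5 ⊢
    linarith

/-- upper bound for `-log (1 - t)` -/
def lgupN (n : ℕ) (t : ℚ) : ℚ := ∑ i ∈ range n, t ^ (i + 1) / (i + 1) + t ^ (n + 1) / (1 - t)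

theorem lgupN_le (n : ℕ) (t : ℚ) (h0 : 0 ≤ t) (h1 : t < 1) : -Real.log (1 - t) ≤ lgupN n t := by
  have h0' : (0 : ℝ) ≤ t := by exact_mod_cast h0
  have h1' : (t : ℝ) < 1 := by exact_mod_cast h1
  have h2 : |(t : ℝ)| < 1 := by rw [abs_of_nonneg h0']; exact h1'
  have h3 := Real.abs_log_sub_add_sum_range_le h2 n
  rw [abs_le] at h3
  rw [abs_of_nonneg h0'] at h3
  unfold lgupN
  push_cast
  linarith [h3.1]

end Pool.Agent.H986R2.SP
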