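import Mathlib

open Finset

namespace Pool.Agent.H986R2.SP

section

variable {M : Type*} [CommMonoid M]

/-- translation operator on functions -/
def msh (s : M) : Module.End ℝ (M → ℝ) where
  toFun Φ := fun ρ => Φ (ρ * s)
  map_add' _ _ := rfl
  map_smul' _ _ := rfl

theorem msh_apply (s : M) (Φ : M → ℝ) (ρ : M) : msh s Φ ρ = Φ (ρ * s) := rfl

theorem msh_comm (s t : M) : Commute (msh s) (msh t) := by
  apply LinearMap.ext
  intro Φ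
  funext ρ
  show Φ (ρ * s * t) = Φ (ρ * t * s)
  rw [mul_right_comm]

variable {ι κ : Type*} [Fintype ι] [Fintype κ]

/-- averaging operator -/
noncomputable def avg (w : ι → ℝ) (s : ι → M) : Module.End ℝ (M → ℝ) := ∑ a, w a • msh (s a)

theorem avg_apply (w : ι → ℝ) (s : ι → M) (Φ : M → ℝ) (ρ : M) :
    avg w s Φ ρ = ∑ a, w a * Φ (ρ * s a) := by
  unfold avg
  simp [LinearMap.sum_apply, msh_apply]

theorem avg_comm (w : ι → ℝ) (s : ι → M) (w' : κ → ℝ) (s' : κ → M) :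
    Commute (avg w s) (avg w' s') := by
  unfold avg
  apply Commute.sum_left
  intro a _
  apply Commute.smul_left
  apply Commute.sum_right
  intro b _
  apply Commute.smul_right
  exact msh_comm _ _

/-- lazy averaging operator -/
noncomputable def lzy (q : ℝ) (w : ι → ℝ) (s : ι → M) : Module.End ℝ (M → ℝ) :=
  (1 - q) • (1 : Module.End ℝ (M → ℝ)) + q • avg w s

theorem lzy_apply (q : ℝ) (w : ι → ℝ) (s : ι → M) (Φ : M → ℝ) (ρ : M) :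
    lzy q w s Φ ρ = (1 - q) * Φ ρ + q * avg w s Φ ρ := by
  unfold lzy
  simp [LinearMap.add_apply, LinearMap.smul_apply, Module.End.one_apply]

theorem lzy_comm (q : ℝ) (w : ι → ℝ) (s : ι → M) (w' : κ → ℝ) (s' : κ → M) :
    Commute (avg w' s') (lzy q w s) := by
  unfold lzy
  apply Commute.add_right
  · exact (Commute.one_right _).smul_right _
  · exact (avg_comm _ _ _ _).smul_right _

theorem avg_mono (w : ι → ℝ) (s : ι → M) (hw : ∀ a, 0 ≤ w a) (P : M → Prop)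
    (hP : ∀ ρ, P ρ → ∀ a, P (ρ * s a)) {Φ Ψ : M → ℝ} (h : ∀ ρ, P ρ → Φ ρ ≤ Ψ ρ) (ρ : M)
    (hρ : P ρ) : avg w s Φ ρ ≤ avg w s Ψ ρ := by
  rw [avg_apply, avg_apply]
  exact sum_le_sum fun a _ => mul_le_mul_of_nonneg_left (h _ (hP ρ hρ a)) (hw a)

theorem lzy_mono (q : ℝ) (hq0 : 0 ≤ q) (hq1 : q ≤ 1) (w : ι → ℝ) (s : ι → M)
    (hw : ∀ a, 0 ≤ w a) (P : M → Prop)
    (hP : ∀ ρ, P ρ → ∀ a, P (ρ * s a)) {Φ Ψ : M → ℝ} (h : ∀ ρ, P ρ → Φ ρ ≤ Ψ ρ) (ρ : M)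
    (hρ : P ρ) : lzy q w s Φ ρ ≤ lzy q w s Ψ ρ := by
  rw [lzy_apply, lzy_apply]
  apply add_le_add
  · exact mul_le_mul_of_nonneg_left (h _ hρ) (by linarith)
  · exact mul_le_mul_of_nonneg_left (avg_mono w s hw P hP h ρ hρ) hq0

theorem lzy_pow_mono (q : ℝ) (hq0 : 0 ≤ q) (hq1 : q ≤ 1) (w : ι → ℝ) (s : ι → M)
    (hw : ∀ a, 0 ≤ w a) (P : M → Prop)
    (hP : ∀ ρ, P ρ → ∀ a, P (ρ * s a)) {Φ Ψ : M → ℝ} (h : ∀ ρ, P ρ → Φ ρ ≤ Ψ ρ) (T : ℕ) (ρ : M)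
    (hρ : P ρ) : (lzy q w s ^ T) Φ ρ ≤ (lzy q w s ^ T) Ψ ρ := by
  induction T generalizing ρ with
  | zero => simpa using h ρ hρ
  | succ T ih =>
    rw [pow_succ']
    exact lzy_mono q hq0 hq1 w s hw P hP ih ρ hρ

theorem lzy_add_const (q : ℝ) (w : ι → ℝ) (s : ι → M) (hw1 : ∑ a, w a = 1) (Φ : M → ℝ) (c : ℝ)
    (ρ : M) : lzy q w s (fun ρ => Φ ρ + c) ρ = lzy q w s Φ ρ + c := by
  rw [lzy_apply, lzy_apply, avg_apply, avg_apply]
  simp only [mul_add, sum_add_distrib, ← sum_mul, hw1]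
  ring

theorem avg_add_const (w : ι → ℝ) (s : ι → M) (hw1 : ∑ a, w a = 1) (Φ : M → ℝ) (c : ℝ)
    (ρ : M) : avg w s (fun ρ => Φ ρ + c) ρ = avg w s Φ ρ + c := by
  rw [avg_apply, avg_apply]
  simp only [mul_add, sum_add_distrib, ← sum_mul, hw1]
  ring

theorem lzy_pow_add_const (q : ℝ) (w : ι → ℝ) (s : ι → M) (hw1 : ∑ a, w a = 1) (Φ : M → ℝ)
    (c : ℝ) (T : ℕ) (ρ : M) :
    (lzy q w s ^ T) (fun ρ => Φ ρ + c) ρ = (lzy q w s ^ T) Φ ρ + c := by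
  induction T generalizing ρ with
  | zero => simp
  | succ T ih =>
    rw [pow_succ']
    show lzy q w s ((lzy q w s ^ T) (fun ρ => Φ ρ + c)) ρ = lzy q w s ((lzy q w s ^ T) Φ) ρ + c
    have e : (lzy q w s ^ T) (fun ρ => Φ ρ + c) = fun ρ => (lzy q w s ^ T) Φ ρ + c := funext ih
    rw [e, lzy_add_const q w s hw1]

/-- The interpolation principle. -/
theorem interp (q : ℝ) (hq0 : 0 ≤ q) (hq1 : q ≤ 1) (w : ι → ℝ) (s : ι → M) (w' : κ → ℝ)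
    (s' : κ → M) (hw : ∀ a, 0 ≤ w a) (hw1 : ∑ a, w a = 1) (hw' : ∀ a, 0 ≤ w' a)
    (hw1' : ∑ a, w' a = 1) (P : M → Prop) (hP : ∀ ρ, P ρ → ∀ a, P (ρ * s a))
    (hP' : ∀ ρ, P ρ → ∀ a, P (ρ * s' a)) (φ : M → ℝ) (c : ℝ)
    (h : ∀ ρ, P ρ → avg w' s' φ ρ ≤ lzy q w s φ ρ + c) (T : ℕ) (ρ : M) (hρ : P ρ) :
    (avg w' s' ^ T) φ ρ ≤ (lzy q w s ^ T) φ ρ + T * c := by
  induction T generalizing ρ with
  | zero => simp
  | succ T ih =>
    have h1 : (avg w' s' ^ (T + 1)) φ ρ = avg w' s' ((avg w' s' ^ T) φ) ρ := by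
      rw [pow_succ']; rfl
    have h2 : avg w' s' ((avg w' s' ^ T) φ) ρ
        ≤ avg w' s' (fun ρ => (lzy q w s ^ T) φ ρ + T * c) ρ := avg_mono w' s' hw' P hP' ih ρ hρ
    rw [avg_add_const w' s' hw1'] at h2
    have h3 : avg w' s' ((lzy q w s ^ T) φ) ρ = (lzy q w s ^ T) (avg w' s' φ) ρ := by
      have := (lzy_comm q w s w' s').pow_right T
      have := congrArg (fun L : Module.End ℝ (M → ℝ) => L φ ρ) this.eq
      exact this
    have h4 : (lzy q w s ^ T) (avg w' s' φ) ρ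
        ≤ (lzy q w s ^ T) (fun ρ => lzy q w s φ ρ + c) ρ :=
      lzy_pow_mono q hq0 hq1 w s hw P hP h T ρ hρ
    rw [lzy_pow_add_const q w s hw1] at h4
    have h5 : (lzy q w s ^ T) (lzy q w s φ) ρ = (lzy q w s ^ (T + 1)) φ ρ := by
      rw [pow_succ]; rfl
    rw [h1]
    push_cast
    linarith

end

end Pool.Agent.H986R2.SP
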