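import Pool.Agent.H986R2.SP.Step

open Finset

namespace Pool.Agent.H986R2.SP

theorem ev_sum {X ι : Type*} (F : (X → ℕ) → ℝ) (s : Finset ι) (f : ι → St X) :
    ev F (∑ i ∈ s, f i) = ∑ i ∈ s, ev F (f i) := by
  classical
  induction s using Finset.induction_on with
  | empty => simp [ev_zero]
  | insert a s ha ih => rw [sum_insert ha, sum_insert ha, ev_add, ih]

/-- functions of one coordinate -/
def embH {n : ℕ} (i : Fin n) : (Bool → ℕ) →+ ((Fin n → Bool) → ℕ) where
  toFun h := fun A => h (A i)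
  map_zero' := rfl
  map_add' _ _ := rfl

theorem embH_apply {n : ℕ} (i : Fin n) (h : Bool → ℕ) (A : Fin n → Bool) :
    embH i h A = h (A i) := rfl

/-- one-site states as states -/
noncomputable def emb {n : ℕ} (i : Fin n) : St Bool →+* St (Fin n → Bool) :=
  AddMonoidAlgebra.mapDomainRingHom ℝ (embH i)

theorem emb_single {n : ℕ} (i : Fin n) (h : Bool → ℕ) (r : ℝ) :
    emb i (AddMonoidAlgebra.single h r) = AddMonoidAlgebra.single (embH i h) r := by
  unfold emb
  exact AddMonoidAlgebra.mapDomain_single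

/-- product states -/
noncomputable def prodst {n : ℕ} (ρ : Fin n → St Bool) : St (Fin n → Bool) := ∏ i, emb i (ρ i)

theorem mnn_sep {n : ℕ} (h : Fin n → Bool → ℕ) :
    mnn (∑ i, embH i (h i)) = ∑ i, mnn (h i) := by
  apply le_antisymm
  · choose b hb using fun i => exists_mnn (h i)
    refine (mnn_le _ b).trans (le_of_eq ?_)
    rw [Finset.sum_apply]
    exact sum_congr rfl fun i _ => hb i
  · apply le_mnn
    intro B
    rw [Finset.sum_apply]
    exact sum_le_sum fun i _ => mnn_le _ _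

theorem emb_eq {n : ℕ} (i : Fin n) (ρ : St Bool) :
    emb i ρ = ∑ h ∈ ρ.coeff.support, AddMonoidAlgebra.single (embH i h) (ρ.coeff h) := by
  conv_lhs => rw [← ρ.sum_coeff_single]
  unfold Finsupp.sum
  rw [map_sum]
  exact sum_congr rfl fun h _ => emb_single i h _

theorem Zf_prodst {n : ℕ} (e : ℝ) (ρ : Fin n → St Bool) :
    Zf e (prodst ρ) = ∏ i, Zf e (ρ i) := by
  unfold prodst
  simp only [emb_eq]
  rw [prod_univ_sum]
  unfold Zf
  rw [ev_sum]
  have h1 : ∀ i, ev (fun H => e ^ mnn H) (ρ i)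
      = ∑ h ∈ (ρ i).coeff.support, (ρ i).coeff h * e ^ mnn h := fun i => rfl
  simp only [h1]
  rw [prod_univ_sum]
  refine sum_congr rfl fun h _ => ?_
  rw [AddMonoidAlgebra.prod_single, ev_single, mnn_sep, ← prod_pow_eq_pow_sum, prod_mul_distrib]

/-- one-site violation -/
def pe (b : Bool) : Bool → ℕ := fun b' => if b' = b then 0 else 1

theorem pe_le (b b' : Bool) : pe b b' ≤ 1 := by unfold pe; split_ifs <;> norm_num

theorem embH_pe {n : ℕ} (i : Fin n) (b : Bool) : embH i (pe b) = pen (i, b) := by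
  funext A
  rfl

theorem emb_nu {n : ℕ} (i : Fin n) (b : Bool) (t : ℝ) :
    emb i (nu (pe b) t) = nu (pen (i, b)) t := by
  unfold nu
  rw [map_add, emb_single, emb_single, embH_pe, map_zero]

theorem prodst_mul {n : ℕ} (ρ : Fin n → St Bool) (i : Fin n) (σ : St Bool) :
    prodst ρ * emb i σ = prodst (Function.update ρ i (ρ i * σ)) := by
  unfold prodst
  rw [← mul_prod_erase univ (fun j => emb j (ρ j)) (mem_univ i),
    ← mul_prod_erase univ (fun j => emb j (Function.update ρ i (ρ i * σ) j)) (mem_univ i)]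
  rw [Function.update_self, map_mul]
  have : ∏ x ∈ univ.erase i, emb x (Function.update ρ i (ρ i * σ) x)
      = ∏ x ∈ univ.erase i, emb x (ρ x) := by
    refine prod_congr rfl fun j hj => ?_
    rw [Function.update_of_ne (ne_of_mem_erase hj)]
  rw [this]
  ring

theorem prodst_one {n : ℕ} : prodst (fun _ : Fin n => (1 : St Bool)) = 1 := by
  unfold prodst
  simp

section

variable {A : Type*} [Fintype A]

/-- weights of the one-site steps -/
noncomputable def wQ (k : ℕ) (r : A → ℝ) : Bool × (Fin k → A) → ℝ :=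
  fun x => 1 / 2 * ∏ j, r (x.2 j)

/-- the one-site steps -/
noncomputable def sQ (k : ℕ) (et : A → ℝ) : Bool × (Fin k → A) → St Bool :=
  fun x => nu (pe x.1) (∏ j, et (x.2 j))

omit [Fintype A] in
theorem wQ_nonneg (k : ℕ) (r : A → ℝ) (hr : ∀ a, 0 ≤ r a) (x : Bool × (Fin k → A)) :
    0 ≤ wQ k r x := by
  unfold wQ
  exact mul_nonneg (by positivity) (prod_nonneg fun j _ => hr _)

theorem wQ_sum (k : ℕ) (r : A → ℝ) (hr1 : ∑ a, r a = 1) : ∑ x, wQ k r x = 1 := by
  unfold wQ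
  rw [Fintype.sum_prod_type]
  have h1 : ∀ b : Bool, ∑ a : Fin k → A, 1 / 2 * ∏ j, r (a j) = 1 / 2 := by
    intro l
    rw [← mul_sum, ← Fintype.sum_pow, hr1, one_pow, mul_one]
  refine (sum_congr rfl fun l _ => h1 l).trans ?_
  rw [sum_const, card_univ, Fintype.card_bool, nsmul_eq_mul]
  norm_num

theorem sep_step {n : ℕ} (hn : 0 < n) (k : ℕ) (r et : A → ℝ) (hr1 : ∑ a, r a = 1)
    (het : ∀ a, 0 ≤ et a) (het1 : ∀ a, et a ≤ 1)
    (Φ : St (Fin n → Bool) → ℝ) (ν : St Bool → ℝ)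
    (hΦ : ∀ ρ : Fin n → St Bool, (∀ i, Good (ρ i)) → Φ (prodst ρ) = ∑ i, ν (ρ i))
    (ρ : Fin n → St Bool) (hρ : ∀ i, Good (ρ i)) :
    avg (wB n k r) (sB n k et) Φ (prodst ρ)
      = ∑ i, lzy (1 / (n : ℝ)) (wQ k r) (sQ k et) ν (ρ i) := by
  have hn' : (n : ℝ) ≠ 0 := by positivity
  have het' : ∀ a : Fin k → A, 0 ≤ (∏ j, et (a j)) ∧ (∏ j, et (a j)) ≤ 1 := fun a =>
    ⟨prod_nonneg fun j _ => het _, prod_le_one (fun j _ => het _) fun j _ => het1 _⟩
  have h1 : ∀ (i : Fin n) (b : Bool) (a : Fin k → A),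
      Φ (prodst ρ * sB n k et ((i, b), a))
        = ∑ j, ν (ρ j) - ν (ρ i) + ν (ρ i * sQ k et (b, a)) := by
    intro i b a
    have e1 : sB n k et ((i, b), a) = emb i (sQ k et (b, a)) := by
      unfold sB sQ
      rw [emb_nu]
    rw [e1, prodst_mul, hΦ]
    · rw [← add_sum_erase univ (fun j => ν (Function.update ρ i (ρ i * sQ k et (b, a)) j))
        (mem_univ i), ← add_sum_erase univ (fun j => ν (ρ j)) (mem_univ i),
        Function.update_self]
      have : ∑ x ∈ univ.erase i, ν (Function.update ρ i (ρ i * sQ k et (b, a)) x)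
          = ∑ x ∈ univ.erase i, ν (ρ x) := by
        refine sum_congr rfl fun j hj => ?_
        rw [Function.update_of_ne (ne_of_mem_erase hj)]
      rw [this]
      ring
    · intro j
      by_cases hj : j = i
      · subst hj
        rw [Function.update_self]
        exact (hρ j).mul_nu _ _ (het' a).1 (het' a).2
      · rw [Function.update_of_ne hj]
        exact hρ j
  have h2 : ∀ i, lzy (1 / (n : ℝ)) (wQ k r) (sQ k et) ν (ρ i)
      = ν (ρ i) + (1 / (n : ℝ)) * (avg (wQ k r) (sQ k et) ν (ρ i) - ν (ρ i)) := by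
    intro i
    rw [lzy_apply]; ring
  simp only [h2]
  rw [sum_add_distrib, avg_apply]
  have hws : ∑ x, wB n k r x = 1 := wB_sum n k hn r hr1
  have h3 : ∑ x, wB n k r x * Φ (prodst ρ * sB n k et x)
      = ∑ x : Lit n × (Fin k → A), (wB n k r x * ∑ j, ν (ρ j)
        + wB n k r x * (ν (ρ x.1.1 * sQ k et (x.1.2, x.2)) - ν (ρ x.1.1))) := by
    refine sum_congr rfl fun x _ => ?_
    obtain ⟨⟨i, b⟩, a⟩ := x
    rw [h1]
    ring
  rw [h3, sum_add_distrib, ← sum_mul, hws, one_mul]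
  congr 1
  rw [Fintype.sum_prod_type (f := fun x : Lit n × (Fin k → A) =>
    wB n k r x * (ν (ρ x.1.1 * sQ k et (x.1.2, x.2)) - ν (ρ x.1.1)))]
  rw [Fintype.sum_prod_type (f := fun x : Lit n => ∑ y : Fin k → A,
    wB n k r (x, y) * (ν (ρ x.1 * sQ k et (x.2, y)) - ν (ρ x.1)))]
  refine sum_congr rfl fun i _ => ?_
  rw [avg_apply]
  have h4 : ν (ρ i) = ∑ x, wQ k r x * ν (ρ i) := by
    rw [← sum_mul, wQ_sum k r hr1, one_mul]
  have h5 : ∑ x, wQ k r x * ν (ρ i * sQ k et x) - ν (ρ i)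
      = ∑ x, wQ k r x * (ν (ρ i * sQ k et x) - ν (ρ i)) := by
    conv_lhs => rw [h4]
    rw [← sum_sub_distrib]
    refine sum_congr rfl fun x _ => ?_
    ring
  rw [h5, Fintype.sum_prod_type, mul_sum]
  refine sum_congr rfl fun b _ => ?_
  rw [mul_sum]
  refine sum_congr rfl fun a _ => ?_
  unfold wB wQ
  simp only
  field_simp

theorem sep_pow {n : ℕ} (hn : 0 < n) (k : ℕ) (r et : A → ℝ) (hr1 : ∑ a, r a = 1)
    (het : ∀ a, 0 ≤ et a) (het1 : ∀ a, et a ≤ 1) (e : ℝ) (he0 : 0 < e) (T : ℕ)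
    (ρ : Fin n → St Bool) (hρ : ∀ i, Good (ρ i)) :
    (avg (wB n k r) (sB n k et) ^ T) (phi e) (prodst ρ)
      = ∑ i, (lzy (1 / (n : ℝ)) (wQ k r) (sQ k et) ^ T) (phi e) (ρ i) := by
  induction T generalizing ρ with
  | zero =>
    simp only [pow_zero, Module.End.one_apply]
    unfold phi
    rw [Zf_prodst, Real.log_prod (fun i _ => (Zf_pos e he0 _ (hρ i)).ne'), sum_neg_distrib]
  | succ T ih =>
    rw [pow_succ', pow_succ']
    exact sep_step hn k r et hr1 het het1 _ _ ih ρ hρ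

end

end Pool.Agent.H986R2.SP
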