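import Pool.Agent.H986R2.SP.Core
import Pool.Agent.H986R2.SP.Ops

open Finset

namespace Pool.Agent.H986R2.SP

section

variable {X : Type*} [Fintype X] [Nonempty X]

/-- least value -/
noncomputable def mnn (H : X → ℕ) : ℕ := univ.inf' univ_nonempty H

theorem mnn_le (H : X → ℕ) (A : X) : mnn H ≤ H A := inf'_le _ (mem_univ A)

theorem exists_mnn (H : X → ℕ) : ∃ A, H A = mnn H := by
  obtain ⟨A, _, hA⟩ := exists_mem_eq_inf' univ_nonempty H
  exact ⟨A, hA.symm⟩

theorem le_mnn (H : X → ℕ) (a : ℕ) (h : ∀ A, a ≤ H A) : a ≤ mnn H :=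
  le_inf' _ _ fun A _ => h A

theorem mnn_zero : mnn (0 : X → ℕ) = 0 := by
  obtain ⟨A, hA⟩ := exists_mnn (0 : X → ℕ)
  rw [← hA]; rfl

/-- the increment of the least value is one -/
noncomputable def inc (s H : X → ℕ) : ℝ := if mnn (H + s) = mnn H then 0 else 1

open Classical in
theorem inc_eq (s H : X → ℕ) (hs : ∀ A, s A ≤ 1) :
    inc s H = if ∀ A, H A = mnn H → s A = 1 then 1 else 0 := by
  unfold inc
  by_cases h : ∀ A, H A = mnn H → s A = 1
  · rw [if_pos h, if_neg]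
    intro hcon
    obtain ⟨A, hA⟩ := exists_mnn (H + s)
    rw [hcon] at hA
    simp only [Pi.add_apply] at hA
    have h1 := mnn_le H A
    have h2 : H A = mnn H := by omega
    have := h A h2
    omega
  · rw [if_neg h, if_pos]
    push Not at h
    obtain ⟨A, hA, hsA⟩ := h
    apply le_antisymm
    · refine (mnn_le _ A).trans ?_
      simp only [Pi.add_apply]
      have := hs A
      omega
    · apply le_mnn
      intro B
      simp only [Pi.add_apply]
      have := mnn_le H B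
      omega

theorem mnn_add (s H : X → ℕ) (hs : ∀ A, s A ≤ 1) :
    mnn (H + s) = mnn H ∨ mnn (H + s) = mnn H + 1 := by
  have h1 : mnn H ≤ mnn (H + s) := by
    apply le_mnn
    intro B
    simp only [Pi.add_apply]
    have := mnn_le H B
    omega
  have h2 : mnn (H + s) ≤ mnn H + 1 := by
    obtain ⟨A, hA⟩ := exists_mnn H
    refine (mnn_le _ A).trans ?_
    simp only [Pi.add_apply]
    have := hs A
    omega
  omega

theorem inc_pow (e : ℝ) (s H : X → ℕ) (hs : ∀ A, s A ≤ 1) :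
    e ^ mnn (H + s) = e ^ mnn H * (1 - (1 - e) * inc s H) := by
  unfold inc
  split_ifs with h
  · rw [h]; ring
  · rcases mnn_add s H hs with h1 | h1
    · exact absurd h1 h
    · rw [h1, pow_succ]; ring

theorem inc_nonneg (s H : X → ℕ) : 0 ≤ inc s H := by unfold inc; split_ifs <;> norm_num

theorem inc_le_one (s H : X → ℕ) : inc s H ≤ 1 := by unfold inc; split_ifs <;> norm_num

theorem inc_prod {k : ℕ} (s : Fin k → X → ℕ) (hs : ∀ j A, s j A ≤ 1) (H : X → ℕ) :
    inc (fun A => ∏ j, s j A) H = ∏ j, inc (s j) H := by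
  classical
  have h1 : ∀ A, ∏ j, s j A ≤ 1 := fun A => prod_le_one' fun j _ => hs j A
  rw [inc_eq _ _ h1]
  simp only [fun j => inc_eq (s j) H (hs j)]
  rw [prod_ite_zero]
  simp only [prod_const_one]
  have h2 : ∀ A, (∏ j, s j A = 1) ↔ ∀ j, s j A = 1 := by
    intro A
    constructor
    · intro h j
      have h3 := Finset.prod_eq_one_iff.1 h j (mem_univ j)
      exact h3
    · intro h
      exact prod_eq_one fun j _ => h j
  by_cases h : ∀ A, H A = mnn H → ∏ j, s j A = 1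
  · rw [if_pos h, if_pos]
    intro j _ A hA
    exact (h2 A).1 (h A hA) j
  · rw [if_neg h, if_neg]
    intro hcon
    apply h
    intro A hA
    exact (h2 A).2 fun j => hcon j (mem_univ j) A hA

end

section

variable {X : Type*}

/-- states -/
abbrev St (X : Type*) := AddMonoidAlgebra ℝ (X → ℕ)

/-- evaluation of a function -/
noncomputable def ev (F : (X → ℕ) → ℝ) (ρ : St X) : ℝ := ρ.coeff.sum fun H r => r * F H

theorem ev_zero (F : (X → ℕ) → ℝ) : ev F 0 = 0 := by simp [ev]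

theorem ev_add (F : (X → ℕ) → ℝ) (ρ σ : St X) : ev F (ρ + σ) = ev F ρ + ev F σ := by
  unfold ev
  rw [AddMonoidAlgebra.coeff_add]
  exact Finsupp.sum_add_index' (fun _ => zero_mul _) (fun _ _ _ => add_mul _ _ _)

theorem ev_single (F : (X → ℕ) → ℝ) (H : X → ℕ) (r : ℝ) :
    ev F (AddMonoidAlgebra.single H r) = r * F H := by
  unfold ev
  rw [AddMonoidAlgebra.coeff_single, Finsupp.sum_single_index (zero_mul _)]

theorem ev_smul (F : (X → ℕ) → ℝ) (c : ℝ) (ρ : St X) : ev F (c • ρ) = c * ev F ρ := by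
  induction ρ using AddMonoidAlgebra.induction_linear with
  | zero => simp [ev_zero]
  | add f g hf hg => rw [smul_add, ev_add, ev_add, hf, hg]; ring
  | single H r =>
    rw [AddMonoidAlgebra.smul_single, ev_single, ev_single, smul_eq_mul]; ring

theorem ev_mul_single (F : (X → ℕ) → ℝ) (ρ : St X) (s : X → ℕ) (t : ℝ) :
    ev F (ρ * AddMonoidAlgebra.single s t) = t * ev (fun H => F (H + s)) ρ := by
  induction ρ using AddMonoidAlgebra.induction_linear with
  | zero => simp [ev_zero]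
  | add f g hf hg => rw [add_mul, ev_add, ev_add, hf, hg]; ring
  | single H r =>
    rw [AddMonoidAlgebra.single_mul_single, ev_single, ev_single]; ring

theorem ev_lin (F G : (X → ℕ) → ℝ) (a b : ℝ) (ρ : St X) :
    ev (fun H => a * F H + b * G H) ρ = a * ev F ρ + b * ev G ρ := by
  unfold ev
  rw [Finsupp.mul_sum, Finsupp.mul_sum, ← Finsupp.sum_add]
  refine Finsupp.sum_congr fun H _ => ?_
  ring

/-- probability states -/
def Good (ρ : St X) : Prop := (∀ F : (X → ℕ) → ℝ, (∀ H, 0 ≤ F H) → 0 ≤ ev F ρ) ∧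
  ev (fun _ => 1) ρ = 1

theorem Good.mono {ρ : St X} (h : Good ρ) {F G : (X → ℕ) → ℝ} (hFG : ∀ H, F H ≤ G H) :
    ev F ρ ≤ ev G ρ := by
  have h1 := h.1 (fun H => G H - F H) (fun H => sub_nonneg.2 (hFG H))
  have h2 := ev_lin G F 1 (-1) ρ
  have h3 : (fun H => G H - F H) = fun H => 1 * G H + -1 * F H := by funext H; ring
  rw [h3, h2] at h1
  linarith

theorem Good.const {ρ : St X} (h : Good ρ) (c : ℝ) : ev (fun _ => c) ρ = c := by
  have h2 := ev_lin (fun _ => (1 : ℝ)) (fun _ => (0 : ℝ)) c 0 ρ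
  have h3 : (fun _ : X → ℕ => c) = fun _ => c * (1 : ℝ) + 0 * 0 := by funext H; ring
  rw [h3, h2, h.2]
  ring

theorem Good.one : Good (1 : St X) := by
  rw [AddMonoidAlgebra.one_def]
  refine ⟨fun F hF => ?_, ?_⟩
  · rw [ev_single]; simpa using hF 0
  · rw [ev_single]; simp

theorem Good.mul_single {ρ : St X} (h : Good ρ) (s : X → ℕ) :
    Good (ρ * AddMonoidAlgebra.single s 1) := by
  refine ⟨fun F hF => ?_, ?_⟩
  · rw [ev_mul_single, one_mul]
    exact h.1 _ fun H => hF _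
  · rw [ev_mul_single, one_mul]
    exact h.2

/-- a penalty `s` present with probability `t` -/
noncomputable def nu (s : X → ℕ) (t : ℝ) : St X :=
  AddMonoidAlgebra.single 0 (1 - t) + AddMonoidAlgebra.single s t

theorem ev_mul_nu (F : (X → ℕ) → ℝ) (ρ : St X) (s : X → ℕ) (t : ℝ) :
    ev F (ρ * nu s t) = (1 - t) * ev F ρ + t * ev (fun H => F (H + s)) ρ := by
  unfold nu
  rw [mul_add, ev_add, ev_mul_single, ev_mul_single]
  simp only [add_zero]

theorem Good.mul_nu {ρ : St X} (h : Good ρ) (s : X → ℕ) (t : ℝ) (ht0 : 0 ≤ t) (ht1 : t ≤ 1) :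
    Good (ρ * nu s t) := by
  refine ⟨fun F hF => ?_, ?_⟩
  · rw [ev_mul_nu]
    exact add_nonneg (mul_nonneg (by linarith) (h.1 F hF))
      (mul_nonneg ht0 (h.1 _ fun H => hF _))
  · rw [ev_mul_nu]
    have := h.2
    rw [this]; ring

theorem Good.coeff_nonneg {ρ : St X} (h : Good ρ) (H : X → ℕ) : 0 ≤ ρ.coeff H := by
  classical
  have h1 := h.1 (fun H' => if H' = H then 1 else 0) (fun H' => by split_ifs <;> norm_num)
  unfold ev at h1
  have h2 : (ρ.coeff.sum fun H' r => r * if H' = H then 1 else 0) = ρ.coeff H := by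
    simp only [mul_ite, mul_one, mul_zero]
    rw [Finsupp.sum]
    rw [sum_ite_eq' ρ.coeff.support H (fun H' => ρ.coeff H')]
    split_ifs with h3
    · rfl
    · rw [Finsupp.notMem_support_iff] at h3
      exact h3.symm
  rw [h2] at h1
  exact h1

theorem ev_eq_sum (F : (X → ℕ) → ℝ) (ρ : St X) :
    ev F ρ = ∑ H : ρ.coeff.support, ρ.coeff H * F H := by
  unfold ev Finsupp.sum
  rw [← sum_coe_sort]

end

section

variable {X : Type*} [Fintype X] [Nonempty X]

/-- the partition function -/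
noncomputable def Zf (e : ℝ) (ρ : St X) : ℝ := ev (fun H => e ^ mnn H) ρ

theorem Zf_pos (e : ℝ) (he : 0 < e) (ρ : St X) (h : Good ρ) : 0 < Zf e ρ := by
  have h0 : 0 ≤ Zf e ρ := h.1 _ fun H => (pow_pos he _).le
  rcases h0.lt_or_eq with h1 | h1
  · exact h1
  · exfalso
    unfold Zf at h1
    rw [ev_eq_sum] at h1
    have h2 := (sum_eq_zero_iff_of_nonneg (fun (H : ρ.coeff.support) _ =>
      mul_nonneg (h.coeff_nonneg H) (pow_pos he (mnn (H : X → ℕ))).le)).1 h1.symm
    have h3 : ∀ H : ρ.coeff.support, ρ.coeff H = 0 := by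
      intro H
      have := h2 H (mem_univ H)
      rcases mul_eq_zero.1 this with h4 | h4
      · exact h4
      · exact absurd h4 (pow_pos he _).ne'
    have h5 := h.2
    rw [ev_eq_sum] at h5
    simp only [h3, zero_mul, sum_const_zero] at h5
    norm_num at h5

theorem Zf_le_one (e : ℝ) (he0 : 0 ≤ e) (he : e ≤ 1) (ρ : St X) (h : Good ρ) : Zf e ρ ≤ 1 := by
  unfold Zf
  rw [← h.2]
  exact h.mono fun H => pow_le_one₀ he0 he

theorem Zf_mul_single (e : ℝ) (ρ : St X) (s : X → ℕ) (hs : ∀ A, s A ≤ 1) :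
    Zf e (ρ * AddMonoidAlgebra.single s 1)
      = Zf e ρ - (1 - e) * ev (fun H => e ^ mnn H * inc s H) ρ := by
  unfold Zf
  rw [ev_mul_single, one_mul]
  have h1 : (fun H : X → ℕ => e ^ mnn (H + s))
      = fun H => 1 * e ^ mnn H + -(1 - e) * (e ^ mnn H * inc s H) := by
    funext H
    rw [inc_pow e s H hs]; ring
  rw [h1, ev_lin]
  ring

theorem Zf_mul_nu (e : ℝ) (ρ : St X) (s : X → ℕ) (hs : ∀ A, s A ≤ 1) (t : ℝ) :
    Zf e (ρ * nu s t) = Zf e ρ - (1 - e) * (t * ev (fun H => e ^ mnn H * inc s H) ρ) := by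
  have h1 := Zf_mul_single e ρ s hs
  unfold Zf at h1 ⊢
  rw [ev_mul_single, one_mul] at h1
  rw [ev_mul_nu, h1]
  ring

/-- minus the logarithm of the partition function -/
noncomputable def phi (e : ℝ) (ρ : St X) : ℝ := -Real.log (Zf e ρ)

/-- The step inequality for independent literals. -/
theorem step_iid {L A : Type*} [Fintype L] [Fintype A] (e : ℝ) (he0 : 0 < e) (he1 : e ≤ 1)
    (ρ : St X) (h : Good ρ) (pen : L → X → ℕ) (hpen : ∀ l B, pen l B ≤ 1) (k : ℕ)
    (p : L → ℝ) (hp : ∀ l, 0 ≤ p l) (hp1 : ∑ l, p l = 1)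
    (r : A → ℝ) (hr : ∀ a, 0 ≤ r a) (hr1 : ∑ a, r a = 1)
    (et : A → ℝ) (het : ∀ a, 0 ≤ et a) (het1 : ∀ a, et a ≤ 1) :
    (k + 1) * ((∑ l, ∑ a : Fin k → A, p l * (∏ j, r (a j)) *
        phi e (ρ * nu (pen l) (∏ j, et (a j)))) - phi e ρ)
      - k * (∑ a : Fin (k + 1) → A, (∏ j, r (a j)) * gg (1 - e) (∏ j, et (a j)))
    ≤ (∑ l : Fin (k + 1) → L, (∏ j, p (l j)) *
        phi e (ρ * AddMonoidAlgebra.single (fun B => ∏ j, pen (l j) B) 1)) - phi e ρ := by
  set Z := Zf e ρ with hZ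
  have hZ0 : 0 < Z := Zf_pos e he0 ρ h
  set w : ρ.coeff.support → ℝ := fun H => ρ.coeff H * e ^ mnn (H : X → ℕ) / Z with hw
  have hw0 : ∀ H, 0 ≤ w H := fun H =>
    div_nonneg (mul_nonneg (h.coeff_nonneg _) (pow_pos he0 _).le) hZ0.le
  have hw1 : ∑ H, w H = 1 := by
    rw [hw, ← sum_div]
    have : ∑ H : ρ.coeff.support, ρ.coeff H * e ^ mnn (H : X → ℕ) = Z := by
      rw [hZ]; unfold Zf; rw [ev_eq_sum]
    rw [this, div_self hZ0.ne']
  have hav : ∀ F : (X → ℕ) → ℝ, ev (fun H => e ^ mnn H * F H) ρ = Z * ∑ H, w H * F H := by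
    intro F
    rw [ev_eq_sum, mul_sum]
    refine sum_congr rfl fun H _ => ?_
    rw [hw]
    field_simp
  have hwF : ∀ F : (X → ℕ) → ℝ, (∀ H, 0 ≤ F H) → (∀ H, F H ≤ 1) →
      0 ≤ ∑ H, w H * F H ∧ ∑ H, w H * F H ≤ 1 := by
    intro F h0 h1
    refine ⟨sum_nonneg fun H _ => mul_nonneg (hw0 H) (h0 _), ?_⟩
    rw [← hw1]
    exact sum_le_sum fun H _ => mul_le_of_le_one_right (hw0 H) (h1 _)
  have hpos : ∀ z : ℝ, 0 ≤ z → z ≤ 1 → 0 < 1 - (1 - e) * z := by
    intro z h0 h1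
    nlinarith
  have hlog : ∀ z : ℝ, 0 ≤ z → z ≤ 1 → -Real.log (Z - (1 - e) * (Z * z))
      = phi e ρ + gg (1 - e) z := by
    intro z h0 h1
    have e1 : Z - (1 - e) * (Z * z) = Z * (1 - (1 - e) * z) := by ring
    rw [e1, Real.log_mul hZ0.ne' (hpos z h0 h1).ne']
    unfold phi gg
    ring
  have h1 : ∀ l : Fin (k + 1) → L,
      phi e (ρ * AddMonoidAlgebra.single (fun B => ∏ j, pen (l j) B) 1)
      = phi e ρ + gg (1 - e) (∑ H, w H * ∏ j, inc (pen (l j)) (H : X → ℕ)) := by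
    intro l
    have hs : ∀ B, ∏ j, pen (l j) B ≤ 1 := fun B => prod_le_one' fun j _ => hpen _ B
    have e1 : phi e (ρ * AddMonoidAlgebra.single (fun B => ∏ j, pen (l j) B) 1)
        = -Real.log (Zf e (ρ * AddMonoidAlgebra.single (fun B => ∏ j, pen (l j) B) 1)) := rfl
    rw [e1, Zf_mul_single e ρ _ hs, hav]
    have e2 : ∀ H : ρ.coeff.support, inc (fun B => ∏ j, pen (l j) B) (H : X → ℕ)
        = ∏ j, inc (pen (l j)) (H : X → ℕ) := fun H =>
      inc_prod (fun j => pen (l j)) (fun j => hpen (l j)) _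
    simp only [e2]
    have h3 := hwF (fun H => ∏ j, inc (pen (l j)) H)
      (fun H => prod_nonneg fun j _ => inc_nonneg _ _)
      (fun H => prod_le_one (fun j _ => inc_nonneg _ _) fun j _ => inc_le_one _ _)
    exact hlog _ h3.1 h3.2
  have h2 : ∀ (l : L) (t : ℝ), 0 ≤ t → t ≤ 1 → phi e (ρ * nu (pen l) t)
      = phi e ρ + gg (1 - e) (t * ∑ H, w H * inc (pen l) (H : X → ℕ)) := by
    intro l t ht0 ht1
    have e1 : phi e (ρ * nu (pen l) t) = -Real.log (Zf e (ρ * nu (pen l) t)) := rfl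
    rw [e1, Zf_mul_nu e ρ _ (hpen l), hav]
    have h3 := hwF (fun H => inc (pen l) H) (fun H => inc_nonneg _ _) (fun H => inc_le_one _ _)
    have e2 : t * (Z * ∑ H, w H * inc (pen l) (H : X → ℕ))
        = Z * (t * ∑ H, w H * inc (pen l) (H : X → ℕ)) := by ring
    rw [e2]
    exact hlog _ (mul_nonneg ht0 h3.1) (mul_le_one₀ ht1 h3.1 h3.2)
  have het' : ∀ a : Fin k → A, 0 ≤ (∏ j, et (a j)) ∧ (∏ j, et (a j)) ≤ 1 := fun a =>
    ⟨prod_nonneg fun j _ => het _, prod_le_one (fun j _ => het _) fun j _ => het1 _⟩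
  have h3 : ∀ (l : L) (a : Fin k → A), phi e (ρ * nu (pen l) (∏ j, et (a j)))
      = phi e ρ + gg (1 - e) ((∏ j, et (a j)) * ∑ H, w H * inc (pen l) (H : X → ℕ)) :=
    fun l a => h2 l _ (het' a).1 (het' a).2
  simp only [h1, h3, mul_add, sum_add_distrib]
  have e1 : ∑ l : Fin (k + 1) → L, (∏ j, p (l j)) * phi e ρ = phi e ρ := by
    rw [← sum_mul, ← Fintype.sum_pow, hp1]; simp
  have e2 : ∑ l, ∑ a : Fin k → A, p l * (∏ j, r (a j)) * phi e ρ = phi e ρ := by
    simp only [← sum_mul, ← mul_sum]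
    rw [← Fintype.sum_pow, hr1, hp1]; simp
  rw [e1, e2]
  have hcore := core k w hw0 hw1 (fun l (H : ρ.coeff.support) => inc (pen l) (H : X → ℕ))
    (fun l H => inc_nonneg _ _) (fun l H => inc_le_one _ _) p hp r hr et het het1 (1 - e)
    (by linarith) (by linarith)
  linarith

end

end Pool.Agent.H986R2.SP
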