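import Pool.Agent.H986R2.SP.State
import Pool.Agent.H986R2.SP.Defs

open Finset

namespace Pool.Agent.H986R2.SP

/-- violation of a literal -/
def pen {n : ℕ} (l : Lit n) : (Fin n → Bool) → ℕ := fun B => if B l.1 = l.2 then 0 else 1

theorem pen_le {n : ℕ} (l : Lit n) (B : Fin n → Bool) : pen l B ≤ 1 := by
  unfold pen; split_ifs <;> norm_num

/-- violation of a clause -/
def viol {n k : ℕ} (c : Cls n k) : (Fin n → Bool) → ℕ := fun B => ∏ j, pen (c j) B

theorem viol_le {n k : ℕ} (c : Cls n k) (B : Fin n → Bool) : viol c B ≤ 1 :=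
  prod_le_one' fun _ _ => pen_le _ B

theorem viol_eq_zero {n k : ℕ} (c : Cls n k) (B : Fin n → Bool) : viol c B = 0 ↔ SatC B c := by
  unfold viol SatC
  rw [prod_eq_zero_iff]
  constructor
  · rintro ⟨j, _, hj⟩
    refine ⟨j, ?_⟩
    unfold pen at hj
    by_contra hcon
    rw [if_neg hcon] at hj
    norm_num at hj
  · rintro ⟨j, hj⟩
    exact ⟨j, mem_univ j, by unfold pen; rw [if_pos hj]⟩

/-- uniform weights on the clauses -/
noncomputable def wt {n k : ℕ} (c : Cls n k) : ℝ :=
  if c ∈ dist n k then 1 / ((dist n k).card : ℝ) else 0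

theorem wt_nonneg {n k : ℕ} (c : Cls n k) : 0 ≤ wt c := by unfold wt; split_ifs <;> positivity

theorem dist_pos (n k : ℕ) (h : k ≤ n) : 0 < (dist n k).card := by
  rw [card_pos]
  refine ⟨fun j => (⟨j, by omega⟩, true), ?_⟩
  unfold dist
  rw [mem_filter]
  refine ⟨mem_univ _, fun i j hij => ?_⟩
  simp only [Fin.mk.injEq] at hij
  exact Fin.ext hij

theorem wt_sum_mul {n k : ℕ} (f : Cls n k → ℝ) :
    ∑ c, wt c * f c = (∑ c ∈ dist n k, f c) / (dist n k).card := by
  unfold wt
  simp only [ite_mul, zero_mul]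
  rw [← sum_filter, sum_div]
  have : univ.filter (fun c => c ∈ dist n k) = dist n k := by ext c; simp
  rw [this]
  refine sum_congr rfl fun c _ => ?_
  ring

theorem wt_sum (n k : ℕ) (h : k ≤ n) : ∑ c : Cls n k, wt c = 1 := by
  have h1 := wt_sum_mul (n := n) (k := k) (fun _ => 1)
  simp only [mul_one] at h1
  rw [h1, sum_const, nsmul_eq_mul, mul_one, div_self]
  have := dist_pos n k h
  positivity

theorem card_coinc {n k : ℕ} (i j : Fin k) (hij : i ≠ j) :
    (univ.filter (fun c : Cls n k => (c i).1 = (c j).1)).card * n ≤ Fintype.card (Cls n k) := by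
  classical
  have h1 : ((univ.filter (fun c : Cls n k => (c i).1 = (c j).1)) ×ˢ (univ : Finset (Fin n))).card
      ≤ (univ : Finset (Cls n k)).card := by
    apply card_le_card_of_injOn (fun x => Function.update x.1 i (x.2, (x.1 i).2))
    · intro x _
      exact mem_coe.2 (mem_univ _)
    · rintro ⟨c, v⟩ hc ⟨c', v'⟩ hc' h
      simp only [coe_product, coe_filter, mem_univ, true_and, coe_univ, Set.mem_prod,
        Set.mem_ofPred_eq, Set.mem_univ, and_true] at hc hc'
      simp only at h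
      have h1 := congrFun h i
      rw [Function.update_self, Function.update_self] at h1
      have h2 : ∀ j', j' ≠ i → c j' = c' j' := by
        intro j' hj'
        have := congrFun h j'
        rwa [Function.update_of_ne hj', Function.update_of_ne hj'] at this
      have h3 : v = v' := (Prod.ext_iff.1 h1).1
      have h4 : (c i).2 = (c' i).2 := (Prod.ext_iff.1 h1).2
      have h5 : c i = c' i := by
        apply Prod.ext
        · rw [hc, hc', h2 j hij.symm]
        · exact h4
      have h6 : c = c' := by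
        funext j'
        by_cases hj : j' = i
        · rw [hj]; exact h5
        · exact h2 j' hj
      rw [h6, h3]
  rw [card_product, card_univ, Fintype.card_fin] at h1
  exact h1

theorem card_bad (n k : ℕ) :
    ((univ : Finset (Cls n k)) \ dist n k).card * n ≤ k ^ 2 * Fintype.card (Cls n k) := by
  classical
  have h1 : (univ : Finset (Cls n k)) \ dist n k ⊆
      (univ : Finset (Fin k × Fin k)).biUnion (fun x => if x.1 = x.2 then ∅ else
        univ.filter (fun c : Cls n k => (c x.1).1 = (c x.2).1)) := by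
    intro c hc
    rw [mem_sdiff] at hc
    have h2 : ¬ Function.Injective (fun j => (c j).1) := by
      intro hcon
      apply hc.2
      unfold dist
      rw [mem_filter]
      exact ⟨mem_univ _, hcon⟩
    unfold Function.Injective at h2
    push Not at h2
    obtain ⟨i, j, h3, h4⟩ := h2
    rw [mem_biUnion]
    refine ⟨(i, j), mem_univ _, ?_⟩
    simp only
    rw [if_neg h4, mem_filter]
    exact ⟨mem_univ _, h3⟩
  have h2 := (card_le_card h1).trans card_biUnion_le
  have h3 : ∀ x : Fin k × Fin k, (if x.1 = x.2 then ∅ else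
        univ.filter (fun c : Cls n k => (c x.1).1 = (c x.2).1)).card * n
      ≤ Fintype.card (Cls n k) := by
    intro x
    split_ifs with hx
    · simp
    · exact card_coinc x.1 x.2 hx
  calc ((univ : Finset (Cls n k)) \ dist n k).card * n
      ≤ (∑ x : Fin k × Fin k, (if x.1 = x.2 then ∅ else
        univ.filter (fun c : Cls n k => (c x.1).1 = (c x.2).1)).card) * n :=
        Nat.mul_le_mul_right _ h2
    _ = ∑ x : Fin k × Fin k, (if x.1 = x.2 then ∅ else
        univ.filter (fun c : Cls n k => (c x.1).1 = (c x.2).1)).card * n := by rw [sum_mul]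
    _ ≤ ∑ x : Fin k × Fin k, Fintype.card (Cls n k) := sum_le_sum fun x _ => h3 x
    _ = k ^ 2 * Fintype.card (Cls n k) := by
        rw [sum_const, card_univ, Fintype.card_prod, Fintype.card_fin, smul_eq_mul]; ring

theorem card_cls (n k : ℕ) : (Fintype.card (Cls n k) : ℝ) = (2 * (n : ℝ)) ^ k := by
  rw [Fintype.card_fun, Fintype.card_prod, Fintype.card_fin, Fintype.card_fin, Fintype.card_bool]
  push_cast
  ring

/-- Comparison of distinct and independent literals. -/
theorem iid_le {n k : ℕ} (hn : k ≤ n) (hn0 : 0 < n) (f : Cls n k → ℝ) (y : ℝ)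
    (h0 : ∀ c, 0 ≤ f c) (h1 : ∀ c, f c ≤ y) :
    ∑ c : Cls n k, (1 / (2 * (n : ℝ))) ^ k * f c ≤ ∑ c, wt c * f c + y * k ^ 2 / n := by
  classical
  rw [wt_sum_mul, ← mul_sum]
  set N : ℝ := (2 * (n : ℝ)) ^ k with hN
  have hn' : (0 : ℝ) < n := by exact_mod_cast hn0
  have hN0 : 0 < N := by positivity
  have hcard := card_cls n k
  rw [← hN] at hcard
  have hD0 : (0 : ℝ) < (dist n k).card := by exact_mod_cast dist_pos n k hn
  have hDN : ((dist n k).card : ℝ) ≤ N := by
    rw [← hcard]
    exact_mod_cast card_le_univ _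
  have hy : 0 ≤ y := by
    have c0 : Cls n k := fun _ => (⟨0, hn0⟩, true)
    exact (h0 c0).trans (h1 c0)
  have hbad : (((univ : Finset (Cls n k)) \ dist n k).card : ℝ) * n ≤ k ^ 2 * N := by
    rw [← hcard]
    exact_mod_cast card_bad n k
  have hsplit : ∑ c : Cls n k, f c ≤ ∑ c ∈ dist n k, f c
      + (((univ : Finset (Cls n k)) \ dist n k).card : ℝ) * y := by
    rw [← sum_sdiff (subset_univ (dist n k)), add_comm]
    apply add_le_add le_rfl
    calc ∑ c ∈ univ \ dist n k, f c ≤ ∑ c ∈ univ \ dist n k, y := sum_le_sum fun c _ => h1 c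
      _ = _ := by rw [sum_const, nsmul_eq_mul]
  have hs0 : 0 ≤ ∑ c ∈ dist n k, f c := sum_nonneg fun c _ => h0 c
  have e1 : (1 / (2 * (n : ℝ))) ^ k = 1 / N := by rw [hN, one_div_pow]
  rw [e1]
  calc 1 / N * ∑ c : Cls n k, f c
      ≤ 1 / N * (∑ c ∈ dist n k, f c
        + (((univ : Finset (Cls n k)) \ dist n k).card : ℝ) * y) :=
        mul_le_mul_of_nonneg_left hsplit (by positivity)
    _ = (∑ c ∈ dist n k, f c) / N
        + (((univ : Finset (Cls n k)) \ dist n k).card : ℝ) * y / N := by ring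
    _ ≤ (∑ c ∈ dist n k, f c) / (dist n k).card + y * k ^ 2 / n := by
        apply add_le_add
        · exact div_le_div_of_nonneg_left hs0 hD0 hDN
        · rw [div_le_div_iff₀ hN0 hn']
          nlinarith

theorem phi_mul_single {X : Type*} [Fintype X] [Nonempty X] (e : ℝ) (he0 : 0 < e) (he1 : e ≤ 1)
    (ρ : St X) (h : Good ρ) (s : X → ℕ) (hs : ∀ A, s A ≤ 1) :
    phi e ρ ≤ phi e (ρ * AddMonoidAlgebra.single s 1) ∧
      phi e (ρ * AddMonoidAlgebra.single s 1) ≤ phi e ρ + -Real.log e := by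
  have hZ0 := Zf_pos e he0 ρ h
  have hZ1 := Zf_pos e he0 _ (h.mul_single s)
  have hZ := Zf_mul_single e ρ s hs
  have h1 : ev (fun H => e ^ mnn H * inc s H) ρ ≤ Zf e ρ :=
    h.mono fun H => mul_le_of_le_one_right (pow_pos he0 _).le (inc_le_one _ _)
  have h2 : 0 ≤ ev (fun H => e ^ mnn H * inc s H) ρ :=
    h.1 _ fun H => mul_nonneg (pow_pos he0 _).le (inc_nonneg _ _)
  have h3 : Zf e (ρ * AddMonoidAlgebra.single s 1) ≤ Zf e ρ := by
    rw [hZ]; nlinarith
  have h4 : e * Zf e ρ ≤ Zf e (ρ * AddMonoidAlgebra.single s 1) := by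
    rw [hZ]; nlinarith
  unfold phi
  constructor
  · have := Real.log_le_log hZ1 h3
    linarith
  · have := Real.log_le_log (mul_pos he0 hZ0) h4
    rw [Real.log_mul he0.ne' hZ0.ne'] at this
    linarith

section

variable {A : Type*} [Fintype A]

/-- weights of the one-literal steps -/
noncomputable def wB (n k : ℕ) (r : A → ℝ) : Lit n × (Fin k → A) → ℝ :=
  fun x => 1 / (2 * (n : ℝ)) * ∏ j, r (x.2 j)

/-- the one-literal steps -/
noncomputable def sB (n k : ℕ) (et : A → ℝ) : Lit n × (Fin k → A) → St (Fin n → Bool) :=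
  fun x => nu (pen x.1) (∏ j, et (x.2 j))

/-- the clause steps -/
noncomputable def sA (n k : ℕ) : Cls n k → St (Fin n → Bool) :=
  fun c => AddMonoidAlgebra.single (viol c) 1

omit [Fintype A] in
theorem wB_nonneg (n k : ℕ) (r : A → ℝ) (hr : ∀ a, 0 ≤ r a) (x : Lit n × (Fin k → A)) :
    0 ≤ wB n k r x := by
  unfold wB
  exact mul_nonneg (by positivity) (prod_nonneg fun j _ => hr _)

theorem wB_sum (n k : ℕ) (hn : 0 < n) (r : A → ℝ) (hr1 : ∑ a, r a = 1) :
    ∑ x, wB n k r x = 1 := by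
  unfold wB
  rw [Fintype.sum_prod_type]
  have h1 : ∀ l : Lit n, ∑ a : Fin k → A, 1 / (2 * (n : ℝ)) * ∏ j, r (a j)
      = 1 / (2 * (n : ℝ)) := by
    intro l
    rw [← mul_sum, ← Fintype.sum_pow, hr1, one_pow, mul_one]
  refine (sum_congr rfl fun l _ => h1 l).trans ?_
  rw [sum_const, card_univ, Fintype.card_prod,
    Fintype.card_fin, Fintype.card_bool, nsmul_eq_mul]
  have : (n : ℝ) ≠ 0 := by positivity
  push_cast
  field_simp

/-- the constant of the interpolation -/
noncomputable def cst (k : ℕ) (e : ℝ) (r et : A → ℝ) : ℝ :=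
  ∑ a : Fin (k + 1) → A, (∏ j, r (a j)) * gg (1 - e) (∏ j, et (a j))

/-- The step inequality. -/
theorem step {n : ℕ} (k : ℕ) (hn : k + 1 ≤ n) (e : ℝ) (he0 : 0 < e) (he1 : e ≤ 1)
    (r : A → ℝ) (hr : ∀ a, 0 ≤ r a) (hr1 : ∑ a, r a = 1)
    (et : A → ℝ) (het : ∀ a, 0 ≤ et a) (het1 : ∀ a, et a ≤ 1)
    (ρ : St (Fin n → Bool)) (h : Good ρ) :
    avg (wB n k r) (sB n k et) (phi e) ρ
      ≤ lzy (1 / ((k : ℝ) + 1)) wt (sA n (k + 1)) (phi e) ρ
        + (k * cst k e r et + -Real.log e * (k + 1) ^ 2 / n) / (k + 1) := by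
  have hn0 : 0 < n := by omega
  have hn' : (0 : ℝ) < n := by exact_mod_cast hn0
  have hk : (0 : ℝ) < (k : ℝ) + 1 := by positivity
  have h1 := step_iid e he0 he1 ρ h pen pen_le k (fun _ : Lit n => 1 / (2 * (n : ℝ)))
    (fun _ => by positivity) (by
      rw [sum_const, card_univ, Fintype.card_prod, Fintype.card_fin, Fintype.card_bool,
        nsmul_eq_mul]
      push_cast
      field_simp) r hr hr1 et het het1
  have e1 : ∑ l : Lit n, ∑ a : Fin k → A, 1 / (2 * (n : ℝ)) * (∏ j, r (a j)) *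
        phi e (ρ * nu (pen l) (∏ j, et (a j))) = avg (wB n k r) (sB n k et) (phi e) ρ := by
    rw [avg_apply]
    symm
    rw [Fintype.sum_prod_type]
    rfl
  have e2 : (∏ _j : Fin (k + 1), 1 / (2 * (n : ℝ)))
      = (1 / (2 * (n : ℝ))) ^ (k + 1) := by
    rw [prod_const, card_univ, Fintype.card_fin]
  have e3 : ∀ c : Cls n (k + 1), (fun B => ∏ j, pen (c j) B) = viol c := fun c => rfl
  simp only [e2, e3] at h1
  rw [e1] at h1
  have h2 := iid_le hn hn0 (fun c : Cls n (k + 1) =>
    phi e (ρ * AddMonoidAlgebra.single (viol c) 1) - phi e ρ) (-Real.log e)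
    (fun c => by have := (phi_mul_single e he0 he1 ρ h (viol c) (viol_le c)).1; linarith)
    (fun c => by have := (phi_mul_single e he0 he1 ρ h (viol c) (viol_le c)).2; linarith)
  have e4 : ∑ c : Cls n (k + 1), (1 / (2 * (n : ℝ))) ^ (k + 1) *
      (phi e (ρ * AddMonoidAlgebra.single (viol c) 1) - phi e ρ)
      = (∑ c : Cls n (k + 1), (1 / (2 * (n : ℝ))) ^ (k + 1) *
        phi e (ρ * AddMonoidAlgebra.single (viol c) 1)) - phi e ρ := by
    simp only [mul_sub, sum_sub_distrib]
    congr 1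
    rw [sum_const, card_univ, nsmul_eq_mul, card_cls, ← mul_assoc, ← mul_pow]
    have : 2 * (n : ℝ) * (1 / (2 * n)) = 1 := by field_simp
    rw [this, one_pow, one_mul]
  have e5 : ∑ c : Cls n (k + 1), wt c *
      (phi e (ρ * AddMonoidAlgebra.single (viol c) 1) - phi e ρ)
      = avg wt (sA n (k + 1)) (phi e) ρ - phi e ρ := by
    rw [avg_apply]
    simp only [mul_sub, sum_sub_distrib, ← sum_mul]
    rw [wt_sum n (k + 1) hn, one_mul]
    rfl
  rw [e4, e5] at h2
  rw [lzy_apply]
  have e6 : (1 - 1 / ((k : ℝ) + 1)) * phi e ρ + 1 / ((k : ℝ) + 1) *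
      avg wt (sA n (k + 1)) (phi e) ρ
        + (k * cst k e r et + -Real.log e * (k + 1) ^ 2 / n) / (k + 1)
      = phi e ρ + ((avg wt (sA n (k + 1)) (phi e) ρ - phi e ρ)
        + k * cst k e r et + -Real.log e * (k + 1) ^ 2 / n) / (k + 1) := by
    field_simp
    ring
  rw [e6]
  have e7 : avg (wB n k r) (sB n k et) (phi e) ρ = phi e ρ
      + ((k + 1) * (avg (wB n k r) (sB n k et) (phi e) ρ - phi e ρ)) / (k + 1) := by
    field_simp
    ring
  rw [e7]
  have h3 : ((k : ℝ) + 1) * (avg (wB n k r) (sB n k et) (phi e) ρ - phi e ρ)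
      ≤ (avg wt (sA n (k + 1)) (phi e) ρ - phi e ρ)
        + k * cst k e r et + -Real.log e * (k + 1) ^ 2 / n := by
    unfold cst
    push_cast at h2
    linarith
  have h4 := div_le_div_of_nonneg_right h3 hk.le
  linarith

end

end Pool.Agent.H986R2.SP
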