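import Pool.Agent.H986R2.SP.Exact

open Finset Filter Topology

namespace Pool.Agent.H986R2.SP

/-- The densities at which random `k`-SAT is unsatisfiable with high probability. -/
def unsatDensities (k : ℕ) : Set ℝ :=
  {r : ℝ | Tendsto (fun n : ℕ => prSat k n ⌈r * (n : ℝ)⌉₊) atTop (𝓝 0)}

/-- The upper threshold `r_k^{*+}`. -/
noncomputable def rPlus (k : ℕ) : ℝ := sInf (unsatDensities k)

theorem prSat_zero (k n : ℕ) : prSat k n 0 = 1 := by
  classical
  unfold prSat
  have h1 : (univ.filter (fun F : Fin 0 → Fin n → Option Bool =>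
      (∀ j, F j ∈ clauses n k) ∧ ∃ a : Fin n → Bool, ∀ j, ∃ i, F j i = some (a i)))
      = univ := by
    ext F
    simp only [mem_filter, mem_univ, true_and, iff_true]
    exact ⟨fun j => j.elim0, fun _ => true, fun j => j.elim0⟩
  have h2 : (univ.filter (fun F : Fin 0 → Fin n → Option Bool =>
      ∀ j, F j ∈ clauses n k)) = univ := by
    ext F
    simp only [mem_filter, mem_univ, true_and, iff_true]
    exact fun j => j.elim0
  rw [h1, h2]
  simp

theorem bddBelow_unsat (k : ℕ) : BddBelow (unsatDensities k) := by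
  refine ⟨0, fun r hr => ?_⟩
  by_contra hcon
  rw [not_le] at hcon
  have h1 : (fun n : ℕ => prSat k n ⌈r * (n : ℝ)⌉₊) = fun _ => 1 := by
    funext n
    have : ⌈r * (n : ℝ)⌉₊ = 0 := by
      rw [Nat.ceil_eq_zero]
      exact mul_nonpos_of_nonpos_of_nonneg hcon.le (Nat.cast_nonneg n)
    rw [this, prSat_zero]
  unfold unsatDensities at hr
  rw [Set.mem_setOf_eq, h1] at hr
  have := tendsto_nhds_unique hr tendsto_const_nhds
  norm_num at this

theorem thr_of {k : ℕ} (r : ℝ)
    (h : Tendsto (fun n : ℕ => probSat k n ⌊r * n⌋₊) atTop (𝓝 0)) :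
    r ∈ unsatDensities k := by
  unfold unsatDensities
  rw [Set.mem_setOf_eq]
  refine tendsto_of_tendsto_of_tendsto_of_le_of_le' tendsto_const_nhds h
    (Eventually.of_forall fun n => by rw [prSat_eq]; exact probSat_nonneg _ n _) ?_
  filter_upwards [eventually_ge_atTop k] with n hn
  rw [prSat_eq]
  have h2 : ⌊r * (n : ℝ)⌋₊ ≤ ⌈r * (n : ℝ)⌉₊ := Nat.floor_le_ceil _
  obtain ⟨d, hd⟩ := Nat.exists_eq_add_of_le h2
  rw [hd]
  exact probSat_anti hn _ d

theorem isGLB_rPlus (k : ℕ) (r : ℝ) (h : r ∈ unsatDensities k) :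
    IsGLB (unsatDensities k) (rPlus k) :=
  isGLB_csInf ⟨r, h⟩ (bddBelow_unsat k)

theorem rPlus_le (k : ℕ) (r : ℝ) (h : r ∈ unsatDensities k) : rPlus k ≤ r :=
  csInf_le (bddBelow_unsat k) h

end Pool.Agent.H986R2.SP
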